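import Mathlib

/-!
# Density lemmas for block sums, and the greedy selection of blocks
-/

set_option autoImplicit false

open Filter Topology

namespace Pool.Agent.Lib_helper50.NN

open Classical in
/-- counting function of a set of naturals -/
noncomputable def cnt (Z : Set ℕ) (T : ℕ) : ℕ := ((Finset.range T).filter (fun t => t ∈ Z)).card

/-- density zero -/
def DensZero (Z : Set ℕ) : Prop := Tendsto (fun T : ℕ => (cnt Z T : ℝ) / T) atTop (𝓝 0)

lemma cnt_succ_mem {Z : Set ℕ} {T : ℕ} (h : T ∈ Z) : cnt Z (T + 1) = cnt Z T + 1 := by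
  classical
  unfold cnt
  rw [Finset.range_add_one, Finset.filter_insert, if_pos h, Finset.card_insert_of_notMem]
  simp

lemma cnt_succ_notMem {Z : Set ℕ} {T : ℕ} (h : T ∉ Z) : cnt Z (T + 1) = cnt Z T := by
  classical
  unfold cnt
  rw [Finset.range_add_one, Finset.filter_insert, if_neg h]

lemma cnt_le (Z : Set ℕ) (T : ℕ) : cnt Z T ≤ T := by
  classical
  unfold cnt
  exact (Finset.card_filter_le _ _).trans (by simp)

open Classical in
lemma sum_indicator_eq_cnt (Z : Set ℕ) (T : ℕ) (C : ℝ) :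
    ∑ t ∈ Finset.range T, (if t ∈ Z then C else 0) = C * cnt Z T := by
  rw [← Finset.sum_filter, Finset.sum_const, nsmul_eq_mul, mul_comm]
  rfl

/-- averages of a bounded sequence tending to zero off a density-zero set -/
lemma avg_zero_of_densZero {Z : Set ℕ} (hZ : DensZero Z) {η : ℕ → ℝ} {C : ℝ}
    (h0 : ∀ t, 0 ≤ η t) (hC : ∀ t, η t ≤ C)
    (h : ∀ ε : ℝ, 0 < ε → ∀ᶠ t in atTop, t ∉ Z → η t ≤ ε) :
    Tendsto (fun T : ℕ => (∑ t ∈ Finset.range T, η t) / T) atTop (𝓝 0) := by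
  classical
  have hC0 : 0 ≤ C := (h0 0).trans (hC 0)
  -- the part off `Z` tends to zero
  set η1 : ℕ → ℝ := fun t => if t ∈ Z then 0 else η t with hη1
  have hη1lim : Tendsto η1 atTop (𝓝 0) := by
    rw [Metric.tendsto_nhds]
    intro ε hε
    filter_upwards [h (ε / 2) (by positivity)] with t ht
    rw [dist_zero_right, Real.norm_eq_abs]
    simp only [hη1]
    split_ifs with hz
    · simpa using hε
    · rw [abs_of_nonneg (h0 t)]
      exact lt_of_le_of_lt (ht hz) (by linarith)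
  have h1 : Tendsto (fun T : ℕ => (T : ℝ)⁻¹ * ∑ t ∈ Finset.range T, η1 t) atTop (𝓝 0) :=
    hη1lim.cesaro
  have h2 : Tendsto (fun T : ℕ => C * ((cnt Z T : ℝ) / T)) atTop (𝓝 0) := by
    simpa using hZ.const_mul C
  have h3 := h1.add h2
  rw [add_zero] at h3
  refine squeeze_zero (fun T => ?_) (fun T => ?_) h3
  · exact div_nonneg (Finset.sum_nonneg fun t _ => h0 t) (Nat.cast_nonneg _)
  · have h4 : ∑ t ∈ Finset.range T, η t ≤ ∑ t ∈ Finset.range T, η1 t + C * cnt Z T := by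
      rw [← sum_indicator_eq_cnt, ← Finset.sum_add_distrib]
      apply Finset.sum_le_sum
      intro t _
      simp only [hη1]
      split_ifs
      · simpa using hC t
      · simp
    calc (∑ t ∈ Finset.range T, η t) / T ≤
          (∑ t ∈ Finset.range T, η1 t + C * cnt Z T) / T :=
          div_le_div_of_nonneg_right h4 (Nat.cast_nonneg _)
      _ = _ := by ring

lemma sum_blocks {ν : ℕ → ℕ} (hν : Monotone ν) (hν0 : ν 0 = 0) (u : ℕ → ℂ) (T : ℕ) :
    ∑ n ∈ Finset.range (ν T), u n =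
      ∑ t ∈ Finset.range T, ∑ n ∈ Finset.Ico (ν t) (ν (t + 1)), u n := by
  induction T with
  | zero => simp [hν0]
  | succ T ih =>
    rw [Finset.sum_range_succ, ← ih, Finset.range_eq_Ico, Finset.range_eq_Ico,
      Finset.sum_Ico_consecutive _ (Nat.zero_le _) (hν (Nat.le_succ T))]

/-- structure of the block decomposition -/
structure Blocks (ν : ℕ → ℕ) (c C : ℝ) : Prop where
  mono : Monotone ν
  zero : ν 0 = 0
  cpos : 0 < c
  lower : ∀ T : ℕ, c * (T : ℝ) ^ 2 ≤ ν T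
  upper : ∀ T : ℕ, (ν T : ℝ) ≤ C * (T : ℝ) ^ 2
  step : ∀ t : ℕ, ((ν (t + 1) - ν t : ℕ) : ℝ) ≤ C * ((t : ℝ) + 1)

lemma Blocks.Cnonneg {ν : ℕ → ℕ} {c C : ℝ} (h : Blocks ν c C) : 0 ≤ C := by
  have h1 := h.step 0
  have h2 : (0 : ℝ) ≤ ((ν (0 + 1) - ν 0 : ℕ) : ℝ) := Nat.cast_nonneg _
  simp at h1 h2
  linarith

lemma Blocks.norm_block_le {ν : ℕ → ℕ} {c C : ℝ} (h : Blocks ν c C) {u : ℕ → ℂ}
    (hu : ∀ n, ‖u n‖ ≤ 1) (t : ℕ) :
    ‖∑ n ∈ Finset.Ico (ν t) (ν (t + 1)), u n‖ ≤ C * ((t : ℝ) + 1) := by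
  refine le_trans ?_ (h.step t)
  calc ‖∑ n ∈ Finset.Ico (ν t) (ν (t + 1)), u n‖
      ≤ ∑ n ∈ Finset.Ico (ν t) (ν (t + 1)), ‖u n‖ := norm_sum_le _ _
    _ ≤ ∑ n ∈ Finset.Ico (ν t) (ν (t + 1)), (1 : ℝ) := Finset.sum_le_sum fun n _ => hu n
    _ = _ := by simp

/-- **Convergence of averages.** -/
theorem blocks_tendsto {ν : ℕ → ℕ} {c C : ℝ} (h : Blocks ν c C) {u : ℕ → ℂ}
    (hu : ∀ n, ‖u n‖ ≤ 1) {Z : Set ℕ} (hZ : DensZero Z)
    (hS : ∀ ε : ℝ, 0 < ε → ∀ᶠ t in atTop, t ∉ Z →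
      ‖∑ n ∈ Finset.Ico (ν t) (ν (t + 1)), u n‖ ≤ ε * ((t : ℝ) + 1)) :
    Tendsto (fun N : ℕ => (∑ n ∈ Finset.range N, u n) / (N : ℂ)) atTop (𝓝 0) := by
  have hC0 := h.Cnonneg
  set η : ℕ → ℝ := fun t => ‖∑ n ∈ Finset.Ico (ν t) (ν (t + 1)), u n‖ / ((t : ℝ) + 1) with hη
  have hηlim : Tendsto (fun T : ℕ => (∑ t ∈ Finset.range T, η t) / T) atTop (𝓝 0) := by
    apply avg_zero_of_densZero hZ (C := C)
    · intro t; positivity
    · intro t
      simp only [hη]
      rw [div_le_iff₀ (by positivity)]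
      exact h.norm_block_le hu t
    · intro ε hε
      filter_upwards [hS ε hε] with t ht htZ
      simp only [hη]
      rw [div_le_iff₀ (by positivity)]
      exact ht htZ
  -- bound at `ν T ≤ N < ν (T+1)`
  have hbound : ∀ T N : ℕ, ν T ≤ N → N < ν (T + 1) →
      ‖∑ n ∈ Finset.range N, u n‖ ≤ T * (∑ t ∈ Finset.range T, η t) + C * ((T : ℝ) + 1) := by
    intro T N h1 h2
    have e1 : ∑ n ∈ Finset.range N, u n = ∑ n ∈ Finset.range (ν T), u n +
        ∑ n ∈ Finset.Ico (ν T) N, u n := by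
      rw [Finset.range_eq_Ico, Finset.range_eq_Ico,
        Finset.sum_Ico_consecutive _ (Nat.zero_le _) h1]
    rw [e1, sum_blocks h.mono h.zero]
    refine (norm_add_le _ _).trans (add_le_add ?_ ?_)
    · refine (norm_sum_le _ _).trans ?_
      rw [Finset.mul_sum]
      apply Finset.sum_le_sum
      intro t ht
      have h3 : (t : ℝ) + 1 ≤ T := by exact_mod_cast Finset.mem_range.mp ht
      have h4 : ‖∑ n ∈ Finset.Ico (ν t) (ν (t + 1)), u n‖ = ((t : ℝ) + 1) * η t := by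
        simp only [hη]; field_simp
      rw [h4]
      have : 0 ≤ η t := by simp only [hη]; positivity
      nlinarith
    · calc ‖∑ n ∈ Finset.Ico (ν T) N, u n‖ ≤ ∑ n ∈ Finset.Ico (ν T) N, ‖u n‖ := norm_sum_le _ _
        _ ≤ ∑ n ∈ Finset.Ico (ν T) N, (1 : ℝ) := Finset.sum_le_sum fun n _ => hu n
        _ = ((N - ν T : ℕ) : ℝ) := by simp
        _ ≤ ((ν (T + 1) - ν T : ℕ) : ℝ) := by
            exact_mod_cast Nat.sub_le_sub_right h2.le _
        _ ≤ _ := h.step T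
  -- existence of `T`
  have hexT : ∀ N : ℕ, ∃ T : ℕ, ν T ≤ N ∧ N < ν (T + 1) := by
    intro N
    have hunb : ∃ T : ℕ, N < ν T := by
      obtain ⟨T, hT⟩ := exists_nat_gt ((N : ℝ) / c)
      refine ⟨T + 1, ?_⟩
      rw [div_lt_iff₀ h.cpos] at hT
      have h1 := h.lower (T + 1)
      push_cast at h1
      have hTnn : (0 : ℝ) ≤ T := Nat.cast_nonneg T
      have h2 : (N : ℝ) < ν (T + 1) := by
        have hcp := h.cpos
        have h3 : (T : ℝ) * c ≤ c * ((T : ℝ) + 1) ^ 2 := by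
          have : (T : ℝ) ≤ ((T : ℝ) + 1) ^ 2 := by nlinarith
          nlinarith
        linarith
      exact_mod_cast h2
    classical
    have h1 := Nat.find_spec hunb
    have h2 : Nat.find hunb ≠ 0 := by
      intro h3
      rw [h3, h.zero] at h1
      omega
    obtain ⟨T, hT⟩ := Nat.exists_eq_succ_of_ne_zero h2
    refine ⟨T, ?_, ?_⟩
    · have := Nat.find_min hunb (m := T) (by omega)
      omega
    · rw [hT] at h1
      exact h1
  rw [Metric.tendsto_nhds]
  intro ε hε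
  have hcp := h.cpos
  have hsmall : ∀ᶠ T : ℕ in atTop, T * (∑ t ∈ Finset.range T, η t) + C * ((T : ℝ) + 1) ≤
      ε / 2 * (c * (T : ℝ) ^ 2) := by
    have h1 : ∀ᶠ T : ℕ in atTop, (∑ t ∈ Finset.range T, η t) / T < ε / 4 * c :=
      hηlim.eventually_lt_const (by positivity)
    obtain ⟨T1, hT1⟩ := exists_nat_ge (2 * C / (ε / 4 * c))
    filter_upwards [h1, eventually_ge_atTop T1, eventually_ge_atTop 1] with T h2 h3 h4
    have hT0 : (0 : ℝ) < T := by exact_mod_cast h4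
    have hT1' : (1 : ℝ) ≤ T := by exact_mod_cast h4
    rw [div_lt_iff₀ hT0] at h2
    have h5 : 2 * C / (ε / 4 * c) ≤ T := hT1.trans (by exact_mod_cast h3)
    rw [div_le_iff₀ (by positivity)] at h5
    have h6 : C * ((T : ℝ) + 1) ≤ ε / 4 * c * (T : ℝ) ^ 2 := by
      calc C * ((T : ℝ) + 1) ≤ C * (T + T) := by gcongr
        _ = (2 * C) * T := by ring
        _ ≤ (T * (ε / 4 * c)) * T := by gcongr
        _ = ε / 4 * c * (T : ℝ) ^ 2 := by ring
    nlinarith
  obtain ⟨T0, hT0⟩ := eventually_atTop.mp hsmall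
  filter_upwards [eventually_ge_atTop (ν T0), eventually_gt_atTop 0] with N hN hN0
  have hNpos : (0 : ℝ) < N := by exact_mod_cast hN0
  obtain ⟨T, hT1, hT2⟩ := hexT N
  have hTT0 : T0 ≤ T := by
    by_contra hlt
    push Not at hlt
    have := h.mono (show T + 1 ≤ T0 by omega)
    omega
  rw [dist_zero_right, norm_div, Complex.norm_natCast, div_lt_iff₀ hNpos]
  calc ‖∑ n ∈ Finset.range N, u n‖ ≤ T * (∑ t ∈ Finset.range T, η t) + C * ((T : ℝ) + 1) :=
        hbound T N hT1 hT2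
    _ ≤ ε / 2 * (c * (T : ℝ) ^ 2) := hT0 T hTT0
    _ ≤ ε / 2 * N := by
        have h1 := h.lower T
        have h2 : (ν T : ℝ) ≤ N := by exact_mod_cast hT1
        apply mul_le_mul_of_nonneg_left (h1.trans h2) (by positivity)
    _ < ε * N := by nlinarith

open Classical in
lemma sum_special_ge (B : Set ℕ) (T : ℕ) :
    (cnt B T : ℝ) ^ 2 / 2 ≤ ∑ t ∈ Finset.range T, (if t ∈ B then ((t : ℝ) + 1) else 0) := by
  induction T with
  | zero => simp [cnt]
  | succ T ih =>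
    rw [Finset.sum_range_succ]
    by_cases h : T ∈ B
    · rw [if_pos h, cnt_succ_mem h]
      have : (cnt B T : ℝ) ≤ T := by exact_mod_cast cnt_le B T
      push_cast
      nlinarith
    · rw [if_neg h, cnt_succ_notMem h]
      linarith

/-- **Non-convergence of averages.** -/
theorem blocks_not_tendsto {ν : ℕ → ℕ} {c C : ℝ} (h : Blocks ν c C) {u : ℕ → ℂ}
    (hu : ∀ n, ‖u n‖ ≤ 1) {Z B : Set ℕ} (hZ : DensZero Z) {κ C0 c' : ℝ} (hκ : 0 < κ)
    (hc' : 0 < c')
    (hS : ∀ ε : ℝ, 0 < ε → ∀ᶠ t in atTop, t ∉ Z → t ∉ B →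
      ‖∑ n ∈ Finset.Ico (ν t) (ν (t + 1)), u n‖ ≤ ε * ((t : ℝ) + 1))
    (hB : ∀ᶠ t in atTop, t ∈ B →
      κ * ((t : ℝ) + 1) - C0 ≤ (∑ n ∈ Finset.Ico (ν t) (ν (t + 1)), u n).re)
    (hfreq : ∃ᶠ T : ℕ in atTop, c' * (T : ℝ) ≤ cnt B T) :
    ¬ Tendsto (fun N : ℕ => (∑ n ∈ Finset.range N, u n) / (N : ℂ)) atTop (𝓝 0) := by
  classical
  intro hlim
  have hCnn := h.Cnonneg
  have hcp := h.cpos
  obtain ⟨t0, ht0⟩ := eventually_atTop.mp hB
  -- uniform version of `hB`
  set C1 : ℝ := |C0| + (κ + C) * ((t0 : ℝ) + 1) with hC1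
  have hC1nn : 0 ≤ C1 := by positivity
  have hB' : ∀ t ∈ B, κ * ((t : ℝ) + 1) - C1 ≤
      (∑ n ∈ Finset.Ico (ν t) (ν (t + 1)), u n).re := by
    intro t ht
    by_cases h1 : t0 ≤ t
    · refine le_trans ?_ (ht0 t h1 ht)
      have h2 : 0 ≤ (κ + C) * ((t0 : ℝ) + 1) := by positivity
      have h3 := le_abs_self C0
      rw [hC1]
      linarith
    · push Not at h1
      have h2 := h.norm_block_le hu t
      have h3 := Complex.abs_re_le_norm (∑ n ∈ Finset.Ico (ν t) (ν (t + 1)), u n)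
      have h4 := (abs_le.mp (h3.trans h2)).1
      have h5 : (t : ℝ) + 1 ≤ (t0 : ℝ) + 1 := by
        have : (t : ℝ) ≤ t0 := by exact_mod_cast h1.le
        linarith
      have h6 : (κ + C) * ((t : ℝ) + 1) ≤ (κ + C) * ((t0 : ℝ) + 1) := by gcongr
      have h7 := abs_nonneg C0
      rw [hC1]
      linarith
  -- the non special part
  set η : ℕ → ℝ := fun t => if t ∈ B then 0 else
    ‖∑ n ∈ Finset.Ico (ν t) (ν (t + 1)), u n‖ / ((t : ℝ) + 1) with hη
  have hη0 : ∀ t, 0 ≤ η t := by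
    intro t
    simp only [hη]
    split_ifs
    · exact le_rfl
    · positivity
  have hηlim : Tendsto (fun T : ℕ => (∑ t ∈ Finset.range T, η t) / T) atTop (𝓝 0) := by
    apply avg_zero_of_densZero hZ (C := C) hη0
    · intro t
      simp only [hη]
      split_ifs
      · exact hCnn
      · rw [div_le_iff₀ (by positivity)]
        exact h.norm_block_le hu t
    · intro ε hε
      filter_upwards [hS ε hε] with t ht htZ
      simp only [hη]
      split_ifs with hb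
      · exact hε.le
      · rw [div_le_iff₀ (by positivity)]
        exact ht htZ hb
  -- lower bound for the real part at block ends
  have hlow : ∀ T : ℕ, κ * ((cnt B T : ℝ) ^ 2 / 2) - C1 * T -
      T * (∑ t ∈ Finset.range T, η t) ≤ (∑ n ∈ Finset.range (ν T), u n).re := by
    intro T
    rw [sum_blocks h.mono h.zero, Complex.re_sum]
    have h1 : ∀ t ∈ Finset.range T, κ * (if t ∈ B then ((t : ℝ) + 1) else 0) - C1 - T * η t ≤
        (∑ n ∈ Finset.Ico (ν t) (ν (t + 1)), u n).re := by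
      intro t ht
      have htT : (t : ℝ) + 1 ≤ T := by exact_mod_cast Finset.mem_range.mp ht
      by_cases hb : t ∈ B
      · have h2 := hB' t hb
        have h3 : η t = 0 := by simp only [hη]; rw [if_pos hb]
        rw [if_pos hb, h3]
        linarith
      · have h3 : ‖∑ n ∈ Finset.Ico (ν t) (ν (t + 1)), u n‖ = ((t : ℝ) + 1) * η t := by
          simp only [hη]; rw [if_neg hb]; field_simp
        have h4 := Complex.abs_re_le_norm (∑ n ∈ Finset.Ico (ν t) (ν (t + 1)), u n)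
        rw [h3] at h4
        have h5 := (abs_le.mp h4).1
        have h6 : ((t : ℝ) + 1) * η t ≤ T * η t := mul_le_mul_of_nonneg_right htT (hη0 t)
        rw [if_neg hb]
        linarith
    refine le_trans ?_ (Finset.sum_le_sum h1)
    rw [Finset.sum_sub_distrib, Finset.sum_sub_distrib, ← Finset.mul_sum, ← Finset.mul_sum,
      Finset.sum_const, Finset.card_range, nsmul_eq_mul]
    have h2 := sum_special_ge B T
    have h3 : κ * ((cnt B T : ℝ) ^ 2 / 2) ≤
        κ * ∑ t ∈ Finset.range T, (if t ∈ B then ((t : ℝ) + 1) else 0) := by gcongr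
    linarith
  -- contradiction
  set δ : ℝ := κ * c' ^ 2 / (4 * (C + 1)) with hδ
  have hδpos : 0 < δ := by positivity
  have hνlim : Tendsto ν atTop atTop := by
    have h1 : Tendsto (fun T : ℕ => c * (T : ℝ) ^ 2) atTop atTop := by
      apply Tendsto.const_mul_atTop hcp
      exact (tendsto_pow_atTop (by norm_num)).comp tendsto_natCast_atTop_atTop
    have h2 : Tendsto (fun T : ℕ => (ν T : ℝ)) atTop atTop := tendsto_atTop_mono h.lower h1
    exact tendsto_natCast_atTop_iff.mp h2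
  have hlim2 := hlim.comp hνlim
  have hev1 : ∀ᶠ T : ℕ in atTop, ‖(∑ n ∈ Finset.range (ν T), u n) / (ν T : ℂ)‖ < δ := by
    have := Metric.tendsto_nhds.mp hlim2 δ hδpos
    simpa using this
  have hev2 : ∀ᶠ T : ℕ in atTop, (∑ t ∈ Finset.range T, η t) / T < κ * c' ^ 2 / 16 :=
    hηlim.eventually_lt_const (by positivity)
  obtain ⟨T1, hT1⟩ := exists_nat_ge (C1 / (κ * c' ^ 2 / 16))
  obtain ⟨T, hTf, hTe1, hTe2, hTe3, hTe4⟩ := (hfreq.and_eventually (hev1.and (hev2.and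
    ((eventually_ge_atTop T1).and (eventually_ge_atTop 1))))).exists
  have hT0 : (0 : ℝ) < T := by exact_mod_cast hTe4
  have hνpos : (0 : ℝ) < ν T := by
    have h1 := h.lower T
    have h2 : 0 < c * (T : ℝ) ^ 2 := by positivity
    linarith
  rw [norm_div, Complex.norm_natCast, div_lt_iff₀ hνpos] at hTe1
  rw [div_lt_iff₀ hT0] at hTe2
  have h1 : C1 / (κ * c' ^ 2 / 16) ≤ T := hT1.trans (by exact_mod_cast hTe3)
  rw [div_le_iff₀ (by positivity)] at h1
  have h2 := hlow T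
  have h3 := (Complex.re_le_norm (∑ n ∈ Finset.range (ν T), u n)).trans hTe1.le
  have h4 : (c' * T) ^ 2 ≤ (cnt B T : ℝ) ^ 2 := by gcongr
  have h5 : δ * ν T ≤ κ * c' ^ 2 / 4 * (T : ℝ) ^ 2 := by
    have h6 := h.upper T
    calc δ * ν T ≤ δ * (C * (T : ℝ) ^ 2) := by gcongr
      _ ≤ δ * ((C + 1) * (T : ℝ) ^ 2) := by gcongr; linarith
      _ = κ * c' ^ 2 / 4 * (T : ℝ) ^ 2 := by rw [hδ]; field_simp
  have h6 : κ * ((c' * T) ^ 2 / 2) ≤ κ * ((cnt B T : ℝ) ^ 2 / 2) := by gcongr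
  have h7 : C1 * T ≤ κ * c' ^ 2 / 16 * (T : ℝ) ^ 2 := by nlinarith
  have h8 : T * (∑ t ∈ Finset.range T, η t) ≤ κ * c' ^ 2 / 16 * (T : ℝ) ^ 2 := by nlinarith
  have h9 : 0 < κ * c' ^ 2 * (T : ℝ) ^ 2 := by positivity
  nlinarith

end Pool.Agent.Lib_helper50.NN
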