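import Mathlib
import Pool.Agent.Lib_helper50.NN.Density

/-!
# Greedy selection of blocks with prescribed density
-/

set_option autoImplicit false

open Filter Topology

namespace Pool.Agent.Lib_helper50.NN

open Classical in
/-- number of blocks selected so far by the greedy rule with rate `1 / (γ t + 1)`, avoiding the
blocked set -/
noncomputable def gr (γ : ℕ → ℕ) (blk : Set ℕ) : ℕ → ℕ
  | 0 => 0
  | t + 1 => if t ∉ blk ∧ (γ t + 1) * (gr γ blk t + 1) ≤ t + 1 then gr γ blk t + 1
      else gr γ blk t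

/-- the set of selected blocks -/
def sel (γ : ℕ → ℕ) (blk : Set ℕ) : Set ℕ :=
  {t | t ∉ blk ∧ (γ t + 1) * (gr γ blk t + 1) ≤ t + 1}

lemma gr_eq_cnt (γ : ℕ → ℕ) (blk : Set ℕ) (T : ℕ) : gr γ blk T = cnt (sel γ blk) T := by
  induction T with
  | zero => simp [gr, cnt]
  | succ T ih =>
    rw [gr]
    split_ifs with h
    · rw [cnt_succ_mem (show T ∈ sel γ blk from h), ih]
    · rw [cnt_succ_notMem (show T ∉ sel γ blk from h), ih]

open Classical in
/-- the selection depends only on the past -/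
lemma gr_congr {γ γ' : ℕ → ℕ} {blk blk' : Set ℕ} {T : ℕ} (hγ : ∀ t < T, γ t = γ' t)
    (hblk : ∀ t < T, (t ∈ blk ↔ t ∈ blk')) : gr γ blk T = gr γ' blk' T := by
  induction T with
  | zero => rfl
  | succ T ih =>
    have h1 := ih (fun t ht => hγ t (by omega)) (fun t ht => hblk t (by omega))
    rw [gr, gr, h1, hγ T (by omega)]
    exact if_congr (and_congr (not_congr (hblk T (by omega))) Iff.rfl) rfl rfl

lemma sel_congr {γ γ' : ℕ → ℕ} {blk blk' : Set ℕ} {T : ℕ} (hγ : ∀ t < T, γ t = γ' t)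
    (hblk : ∀ t < T, (t ∈ blk ↔ t ∈ blk')) {t : ℕ} (ht : t < T) :
    t ∈ sel γ blk ↔ t ∈ sel γ' blk' := by
  have h1 := gr_congr (T := t) (fun s hs => hγ s (by omega)) (fun s hs => hblk s (by omega))
  change (t ∉ blk ∧ (γ t + 1) * (gr γ blk t + 1) ≤ t + 1) ↔
    (t ∉ blk' ∧ (γ' t + 1) * (gr γ' blk' t + 1) ≤ t + 1)
  rw [h1, hγ t ht, hblk t ht]

/-- if the rate tends to zero then so does the density of the selected set -/
lemma densZero_sel {γ : ℕ → ℕ} (hγ : Tendsto γ atTop atTop) (blk : Set ℕ) :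
    DensZero (sel γ blk) := by
  unfold DensZero
  rw [Metric.tendsto_nhds]
  intro ε hε
  obtain ⟨A, hA⟩ := exists_nat_gt (2 / ε)
  have hA0 : (0 : ℝ) < A := lt_trans (by positivity) hA
  obtain ⟨t0, ht0⟩ := eventually_atTop.mp (hγ.eventually_ge_atTop A)
  have hclaim : ∀ T, A * cnt (sel γ blk) T ≤ A * t0 + T := by
    intro T
    by_cases hT : T ≤ t0
    · have := cnt_le (sel γ blk) T
      nlinarith
    · push Not at hT
      have : ∀ T, t0 ≤ T → A * cnt (sel γ blk) T ≤ A * t0 + T := by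
        intro T hT
        induction T, hT using Nat.le_induction with
        | base =>
          have := cnt_le (sel γ blk) t0
          nlinarith
        | succ T hT ih =>
          by_cases h : T ∈ sel γ blk
          · rw [cnt_succ_mem h]
            have h1 := h.2
            rw [gr_eq_cnt] at h1
            have h2 := ht0 T hT
            have h3 : A * (cnt (sel γ blk) T + 1) ≤ (γ T + 1) * (cnt (sel γ blk) T + 1) :=
              Nat.mul_le_mul_right _ (by omega)
            omega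
          · rw [cnt_succ_notMem h]
            omega
      exact this T hT.le
  obtain ⟨T1, hT1⟩ := exists_nat_gt (2 * t0 / ε)
  filter_upwards [eventually_ge_atTop T1, eventually_gt_atTop 0] with T h1 h2
  have hT0 : (0 : ℝ) < T := by exact_mod_cast h2
  rw [dist_zero_right, Real.norm_eq_abs, abs_of_nonneg (by positivity), div_lt_iff₀ hT0]
  have h3 : (A : ℝ) * cnt (sel γ blk) T ≤ A * t0 + T := by exact_mod_cast hclaim T
  have h4 : 2 * (t0 : ℝ) / ε < T := lt_of_lt_of_le hT1 (by exact_mod_cast h1)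
  rw [div_lt_iff₀ hε] at h4
  rw [div_lt_iff₀ hε] at hA
  -- A * cnt ≤ A t0 + T < A * (ε T / 2) + A * (ε/2) * T
  have h5 : (A : ℝ) * cnt (sel γ blk) T < A * (ε * T) := by
    calc (A : ℝ) * cnt (sel γ blk) T ≤ A * t0 + T := h3
      _ < A * (T * ε / 2) + (A * ε / 2) * T := by
          apply add_lt_add
          · apply mul_lt_mul_of_pos_left _ hA0
            linarith
          · have : 1 < (A : ℝ) * ε / 2 := by linarith
            nlinarith
      _ = A * (ε * T) := by ring
  exact lt_of_mul_lt_mul_left h5 hA0.le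

/-- if the rate is frequently bounded below on dyadic stages, the selected set has positive upper
density -/
lemma freq_sel {γ : ℕ → ℕ} {blk : Set ℕ} (hblk : DensZero blk) {g : ℕ}
    (hγ : ∃ᶠ k : ℕ in atTop, ∀ t, 2 ^ k ≤ t → t < 2 ^ (k + 1) → γ t ≤ g) :
    ∃ᶠ T : ℕ in atTop, (1 / (4 * ((g : ℝ) + 1))) * (T : ℝ) ≤ cnt (sel γ blk) T := by
  have hclaim : ∀ k : ℕ, (∀ t, 2 ^ k ≤ t → t < 2 ^ (k + 1) → γ t ≤ g) →
      ∀ s, 2 ^ k ≤ s → s ≤ 2 ^ (k + 1) →
        s + 1 ≤ (g + 1) * (cnt (sel γ blk) s + 1) + cnt blk s + 2 ^ k := by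
    intro k hk s hs
    induction s, hs using Nat.le_induction with
    | base => intro _; nlinarith
    | succ s hs ih =>
      intro hs2
      have ih' := ih (by omega)
      by_cases h1 : s ∈ blk
      · rw [cnt_succ_mem h1]
        have h2 : s ∉ sel γ blk := fun h => h.1 h1
        rw [cnt_succ_notMem h2]
        omega
      · rw [cnt_succ_notMem h1]
        by_cases h2 : s ∈ sel γ blk
        · rw [cnt_succ_mem h2]
          nlinarith
        · rw [cnt_succ_notMem h2]
          have h3 : ¬ ((γ s + 1) * (cnt (sel γ blk) s + 1) ≤ s + 1) := by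
            intro h4
            apply h2
            refine ⟨h1, ?_⟩
            rw [gr_eq_cnt]
            exact h4
          have h4 := hk s hs (by omega)
          have h5 : (γ s + 1) * (cnt (sel γ blk) s + 1) ≤ (g + 1) * (cnt (sel γ blk) s + 1) :=
            Nat.mul_le_mul_right _ (by omega)
          omega
  have hb : ∀ᶠ T : ℕ in atTop, (cnt blk T : ℝ) / T < 1 / 8 :=
    hblk.eventually_lt_const (by norm_num)
  have htwo : Tendsto (fun k : ℕ => 2 ^ (k + 1)) atTop atTop :=
    (tendsto_add_atTop_iff_nat 1).mpr (tendsto_pow_atTop_atTop_of_one_lt (r := 2) (by norm_num))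
  have hev : ∀ᶠ k : ℕ in atTop, (cnt blk (2 ^ (k + 1)) : ℝ) / ((2 ^ (k + 1) : ℕ) : ℝ) < 1 / 8 ∧
      8 * (g + 1) ≤ 2 ^ (k + 1) :=
    (htwo.eventually hb).and (htwo.eventually_ge_atTop _)
  apply htwo.frequently
  refine (hγ.and_eventually hev).mono ?_
  rintro k ⟨h1, h2, h3⟩
  have h4 := hclaim k h1 (2 ^ (k + 1)) (Nat.pow_le_pow_right (by norm_num) (by omega)) le_rfl
  set T : ℕ := 2 ^ (k + 1) with hT
  have hT2 : 2 * 2 ^ k = T := by rw [hT, pow_succ]; ring
  have hT0 : (0 : ℝ) < T := by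
    have : 0 < T := by positivity
    exact_mod_cast this
  rw [div_lt_iff₀ hT0] at h2
  have h5 : (T : ℝ) + 1 ≤ ((g : ℝ) + 1) * (cnt (sel γ blk) T + 1) + cnt blk T + (T : ℝ) / 2 := by
    have h6 : ((2 ^ k : ℕ) : ℝ) = (T : ℝ) / 2 := by
      have : 2 * ((2 ^ k : ℕ) : ℝ) = T := by exact_mod_cast hT2
      linarith
    rw [← h6]
    exact_mod_cast h4
  have h7 : 8 * ((g : ℝ) + 1) ≤ T := by exact_mod_cast h3
  have hg : (0 : ℝ) < (g : ℝ) + 1 := by positivity
  rw [one_div, inv_mul_le_iff₀ (by positivity)]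
  nlinarith

end Pool.Agent.Lib_helper50.NN
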