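import Mathlib

/-!
# Definitions: normal polynomials, the class `D₂(Π⁰₃)`
-/

set_option autoImplicit false

open Filter Topology

namespace Pool.Agent.Lib_helper50.NN

/-- A real sequence `(x_n)` is uniformly distributed modulo one: for all `0 ≤ u < v ≤ 1` the
proportion of `n < N` with fractional part of `x_n` in `[u, v)` tends to `v - u`. -/
def IsUD (x : ℕ → ℝ) : Prop :=
  ∀ u v : ℝ, 0 ≤ u → u < v → v ≤ 1 →
    Tendsto (fun N : ℕ => (((Finset.range N).filter
      (fun n => u ≤ Int.fract (x n) ∧ Int.fract (x n) < v)).card : ℝ) / N) atTop (𝓝 (v - u))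

/-- Multiplicative independence: `a ^ m ≠ b ^ n` for all positive integers `m`, `n`. -/
def MulIndep (a b : ℕ) : Prop := ∀ m n : ℕ, 0 < m → 0 < n → a ^ m ≠ b ^ n

/-- The space `Ξ_k` of real polynomials of degree at most `k`, identified with their coefficient
vectors, with the Euclidean topology. -/
abbrev Xi (k : ℕ) : Type := EuclideanSpace ℝ (Fin (k + 1))

/-- The value at `n` of the polynomial with coefficient vector `g` (`g i` is the coefficient of
the `i`-th power). -/
noncomputable def polyVal {k : ℕ} (g : Xi k) (n : ℕ) : ℝ := ∑ i : Fin (k + 1), g i * (n : ℝ) ^ (i : ℕ)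

/-- The set `𝒩_{a,k}` of all polynomials `g` of degree at most `k` such that the sequence
`(g(n) a^n)` is uniformly distributed modulo one. -/
def normalSet (a k : ℕ) : Set (Xi k) := {g | IsUD (fun n => polyVal g n * (a : ℝ) ^ n)}

section Borel

variable {X : Type*} [TopologicalSpace X]

/-- `Σ⁰₂` sets: countable unions of closed sets. -/
def IsSigma02 (A : Set X) : Prop := ∃ F : ℕ → Set X, (∀ n, IsClosed (F n)) ∧ A = ⋃ n, F n

/-- `Π⁰₃` sets: countable intersections of `Σ⁰₂` sets. -/
def IsPi03 (A : Set X) : Prop := ∃ S : ℕ → Set X, (∀ n, IsSigma02 (S n)) ∧ A = ⋂ n, S n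

/-- The class `D₂(Π⁰₃)`: differences of two `Π⁰₃` sets. -/
def IsD2Pi03 (D : Set X) : Prop := ∃ A B : Set X, IsPi03 A ∧ IsPi03 B ∧ D = A \ B

/-- `D` is `D₂(Π⁰₃)`-complete: it is in `D₂(Π⁰₃)`, and its complement is not. -/
def IsD2Pi03Complete (D : Set X) : Prop := IsD2Pi03 D ∧ ¬ IsD2Pi03 Dᶜ

end Borel

end Pool.Agent.Lib_helper50.NN
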