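import Mathlib
import Pool.Agent.Lib_helper50.NN.Defs

/-!
# Weyl's criterion for uniform distribution modulo one
-/

set_option autoImplicit false

open Filter Topology MeasureTheory

namespace Pool.Agent.Lib_helper50.NN

/-- `e x = exp (2 π i x)` -/
noncomputable def e (x : ℝ) : ℂ := Complex.exp (((2 * Real.pi * x : ℝ) : ℂ) * Complex.I)

lemma norm_e (x : ℝ) : ‖e x‖ = 1 := Complex.norm_exp_ofReal_mul_I _

lemma e_zero : e 0 = 1 := by simp [e]

lemma e_add (x y : ℝ) : e (x + y) = e x * e y := by
  unfold e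
  rw [← Complex.exp_add]
  congr 1
  push_cast
  ring

lemma e_int (n : ℤ) : e n = 1 := by
  unfold e
  rw [Complex.exp_eq_one_iff]
  exact ⟨n, by push_cast; ring⟩

lemma e_nat (n : ℕ) : e n = 1 := by
  simpa using e_int n

lemma e_add_int (x : ℝ) (n : ℤ) : e (x + n) = e x := by
  rw [e_add, e_int, mul_one]

lemma e_neg (x : ℝ) : e (-x) = (starRingEnd ℂ) (e x) := by
  unfold e
  rw [← Complex.exp_conj]
  congr 1
  rw [map_mul, Complex.conj_ofReal, Complex.conj_I]
  push_cast
  ring

lemma e_sub (x y : ℝ) : e (x - y) = e x * (starRingEnd ℂ) (e y) := by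
  rw [sub_eq_add_neg, e_add, e_neg]

lemma norm_e_sub_one_le (x : ℝ) : ‖e x - 1‖ ≤ 2 * Real.pi * |x| := by
  have h := Real.norm_exp_I_mul_ofReal_sub_one_le (x := 2 * Real.pi * x)
  rw [mul_comm Complex.I] at h
  unfold e
  refine h.trans (le_of_eq ?_)
  rw [Real.norm_eq_abs, abs_mul, abs_of_pos (by positivity)]

lemma norm_e_sub_e_le (x y : ℝ) : ‖e x - e y‖ ≤ 2 * Real.pi * |x - y| := by
  have h : e x - e y = e y * (e (x - y) - 1) := by
    rw [mul_sub, ← e_add]
    simp
  rw [h, norm_mul, norm_e, one_mul]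
  exact norm_e_sub_one_le _

lemma e_eq_fourier (h : ℤ) (x : ℝ) : e (h * x) = fourier h (x : UnitAddCircle) := by
  rw [fourier_coe_apply]
  unfold e
  congr 1
  push_cast
  ring

lemma e_periodic_fract (h : ℤ) (x : ℝ) : e (h * x) = e (h * Int.fract x) := by
  have : (h : ℝ) * x = h * Int.fract x + ((h * ⌊x⌋ : ℤ) : ℝ) := by
    conv_lhs => rw [← Int.fract_add_floor x]
    push_cast
    ring
  rw [this, e_add_int]

/-- Averaging principle: convergence of averages of all nontrivial characters implies convergence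
of the averages of every continuous function. -/
theorem avg_tendsto {ι : Type*} (l : Filter ι) (N : ι → ℕ) (y : ι → ℕ → UnitAddCircle)
    (hN : ∀ᶠ i in l, N i ≠ 0)
    (h : ∀ k : ℤ, k ≠ 0 →
      Tendsto (fun i => (∑ n ∈ Finset.range (N i), fourier k (y i n)) / (N i : ℂ)) l (𝓝 0))
    (f : C(UnitAddCircle, ℂ)) :
    Tendsto (fun i => (∑ n ∈ Finset.range (N i), f (y i n)) / (N i : ℂ)) l
      (𝓝 (∫ t, f t ∂AddCircle.haarAddCircle)) := by
  -- the submodule of good functions
  let S : Submodule ℂ C(UnitAddCircle, ℂ) :=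
    { carrier := {f | Tendsto (fun i => (∑ n ∈ Finset.range (N i), f (y i n)) / (N i : ℂ)) l
        (𝓝 (∫ t, f t ∂AddCircle.haarAddCircle))}
      zero_mem' := by simpa using tendsto_const_nhds
      add_mem' := by
        intro f g hf hg
        have := hf.add hg
        have e1 : ∫ t, (f + g) t ∂AddCircle.haarAddCircle =
            ∫ t, f t ∂AddCircle.haarAddCircle + ∫ t, g t ∂AddCircle.haarAddCircle := by
          simp only [ContinuousMap.add_apply]
          exact integral_add (f.continuous.integrable_of_hasCompactSupport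
            (HasCompactSupport.of_compactSpace _)) (g.continuous.integrable_of_hasCompactSupport
            (HasCompactSupport.of_compactSpace _))
        change Tendsto _ _ _
        rw [e1]
        refine this.congr (fun i => ?_)
        simp only [ContinuousMap.add_apply, Finset.sum_add_distrib, add_div]
      smul_mem' := by
        intro c f hf
        have := hf.const_mul c
        have e1 : ∫ t, (c • f) t ∂AddCircle.haarAddCircle =
            c * ∫ t, f t ∂AddCircle.haarAddCircle := by
          simp only [ContinuousMap.smul_apply, smul_eq_mul]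
          exact integral_const_mul c _
        change Tendsto _ _ _
        rw [e1]
        refine this.congr (fun i => ?_)
        simp only [ContinuousMap.smul_apply, smul_eq_mul, ← Finset.mul_sum, mul_div_assoc] }
  have hspan : Submodule.span ℂ (Set.range (@fourier (1 : ℝ))) ≤ S := by
    rw [Submodule.span_le]
    rintro _ ⟨k, rfl⟩
    change Tendsto _ _ _
    by_cases hk : k = 0
    · subst hk
      have e1 : ∫ t : UnitAddCircle, (fourier 0 : C(UnitAddCircle, ℂ)) t ∂AddCircle.haarAddCircle
          = 1 := by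
        simp only [fourier_zero, integral_const, probReal_univ, one_smul]
      rw [e1]
      refine (tendsto_const_nhds (x := (1 : ℂ))).congr' ?_
      filter_upwards [hN] with i hi
      simp only [fourier_zero, Finset.sum_const, Finset.card_range, nsmul_eq_mul, mul_one]
      rw [div_self]
      exact_mod_cast hi
    · have e1 : ∫ t : UnitAddCircle, (fourier k : C(UnitAddCircle, ℂ)) t ∂AddCircle.haarAddCircle
          = 0 :=
        integral_eq_zero_of_add_right_eq_neg (fourier_add_half_inv_index hk one_pos)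
      rw [e1]
      exact h k hk
  have hclosed : IsClosed (S : Set C(UnitAddCircle, ℂ)) := by
    rw [← closure_subset_iff_isClosed]
    intro f hf
    change Tendsto _ _ _
    rw [Metric.tendsto_nhds]
    intro ε hε
    obtain ⟨g, hg, hfg⟩ := Metric.mem_closure_iff.mp hf (ε / 4) (by positivity)
    have hg' : Tendsto (fun i => (∑ n ∈ Finset.range (N i), g (y i n)) / (N i : ℂ)) l
        (𝓝 (∫ t, g t ∂AddCircle.haarAddCircle)) := hg
    have hpt : ∀ t, ‖f t - g t‖ ≤ ε / 4 := by
      intro t
      have := ContinuousMap.norm_coe_le_norm (f - g) t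
      rw [dist_eq_norm] at hfg
      simpa using this.trans hfg.le
    filter_upwards [hN, Metric.tendsto_nhds.mp hg' (ε / 4) (by positivity)] with i hi hgi
    rw [dist_eq_norm] at hgi ⊢
    have hNpos : (0 : ℝ) < N i := by
      have := Nat.pos_of_ne_zero hi
      exact_mod_cast this
    have h1 : ‖(∑ n ∈ Finset.range (N i), f (y i n)) / (N i : ℂ) -
        (∑ n ∈ Finset.range (N i), g (y i n)) / (N i : ℂ)‖ ≤ ε / 4 := by
      rw [← sub_div, ← Finset.sum_sub_distrib, norm_div]
      rw [div_le_iff₀ (by simpa using hNpos)]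
      calc ‖∑ n ∈ Finset.range (N i), (f (y i n) - g (y i n))‖
          ≤ ∑ n ∈ Finset.range (N i), ‖f (y i n) - g (y i n)‖ := norm_sum_le _ _
        _ ≤ ∑ n ∈ Finset.range (N i), ε / 4 := Finset.sum_le_sum fun n _ => hpt _
        _ = ε / 4 * ‖(N i : ℂ)‖ := by
            simp [mul_comm]
    have h2 : ‖∫ t, f t ∂AddCircle.haarAddCircle - ∫ t, g t ∂(AddCircle.haarAddCircle (T := (1 : ℝ)))‖
        ≤ ε / 4 := by
      rw [← integral_sub (f.continuous.integrable_of_hasCompactSupport
            (HasCompactSupport.of_compactSpace _)) (g.continuous.integrable_of_hasCompactSupport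
            (HasCompactSupport.of_compactSpace _))]
      have := norm_integral_le_of_norm_le_const (μ := AddCircle.haarAddCircle (T := (1 : ℝ)))
        (f := fun t => f t - g t) (C := ε / 4) (Eventually.of_forall hpt)
      simpa using this
    calc ‖(∑ n ∈ Finset.range (N i), f (y i n)) / (N i : ℂ) -
          ∫ t, f t ∂AddCircle.haarAddCircle‖
        = ‖((∑ n ∈ Finset.range (N i), f (y i n)) / (N i : ℂ) -
            (∑ n ∈ Finset.range (N i), g (y i n)) / (N i : ℂ)) +
          ((∑ n ∈ Finset.range (N i), g (y i n)) / (N i : ℂ) -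
            ∫ t, g t ∂AddCircle.haarAddCircle) -
          (∫ t, f t ∂AddCircle.haarAddCircle - ∫ t, g t ∂AddCircle.haarAddCircle)‖ := by
          congr 1; ring
      _ ≤ ‖((∑ n ∈ Finset.range (N i), f (y i n)) / (N i : ℂ) -
            (∑ n ∈ Finset.range (N i), g (y i n)) / (N i : ℂ))‖ +
          ‖((∑ n ∈ Finset.range (N i), g (y i n)) / (N i : ℂ) -
            ∫ t, g t ∂AddCircle.haarAddCircle)‖ +
          ‖(∫ t, f t ∂AddCircle.haarAddCircle - ∫ t, g t ∂AddCircle.haarAddCircle)‖ := by
          refine (norm_sub_le _ _).trans ?_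
          gcongr
          exact norm_add_le _ _
      _ < ε := by linarith
  have htop : (⊤ : Submodule ℂ C(UnitAddCircle, ℂ)) ≤ S := by
    rw [← span_fourier_closure_eq_top (T := (1 : ℝ))]
    exact Submodule.topologicalClosure_minimal _ hspan hclosed
  exact htop (Submodule.mem_top (x := f))

lemma e_eq_one_iff (x : ℝ) : e x = 1 ↔ ∃ n : ℤ, x = n := by
  unfold e
  rw [Complex.exp_eq_one_iff]
  constructor
  · rintro ⟨n, hn⟩
    refine ⟨n, ?_⟩
    have h1 : ((2 * Real.pi * x : ℝ) : ℂ) * Complex.I = ((2 * Real.pi * n : ℝ) : ℂ) * Complex.I := by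
      rw [hn]; push_cast; ring
    have h2 := mul_right_cancel₀ Complex.I_ne_zero h1
    have h3 : 2 * Real.pi * x = 2 * Real.pi * n := by exact_mod_cast h2
    have h4 : (2 * Real.pi) ≠ 0 := by positivity
    exact mul_left_cancel₀ h4 h3
  · rintro ⟨n, rfl⟩
    exact ⟨n, by push_cast; ring⟩

lemma e_mul_nat (x : ℝ) (n : ℕ) : e (n * x) = e x ^ n := by
  induction n with
  | zero => simp [e_zero]
  | succ n ih =>
    rw [pow_succ, ← ih, ← e_add]
    congr 1
    push_cast
    ring

/-- All Weyl sums of the sequence are `o(N)`. -/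
def Weyl (x : ℕ → ℝ) : Prop :=
  ∀ h : ℤ, h ≠ 0 → Tendsto (fun N : ℕ => (∑ n ∈ Finset.range N, e (h * x n)) / (N : ℂ)) atTop (𝓝 0)

lemma haar_closedBall_le (c : UnitAddCircle) {r : ℝ} (hr : 0 ≤ r) :
    (AddCircle.haarAddCircle (T := (1 : ℝ))).real (Metric.closedBall c r) ≤ 2 * r := by
  have h1 : (AddCircle.haarAddCircle (T := (1 : ℝ))) = volume := by
    rw [AddCircle.volume_eq_smul_haarAddCircle]
    simp
  rw [h1, measureReal_def, AddCircle.volume_closedBall]
  rw [ENNReal.toReal_ofReal (le_min zero_le_one (by linarith))]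
  exact min_le_right _ _

lemma ud_upper {x : ℕ → ℝ} (hx : Weyl x) {u v : ℝ} (huv : u ≤ v) {ε : ℝ}
    (hε : 0 < ε) : ∀ᶠ N : ℕ in atTop, (((Finset.range N).filter
      (fun n => u ≤ Int.fract (x n) ∧ Int.fract (x n) < v)).card : ℝ) / N ≤ v - u + ε := by
  set r : ℝ := (v - u) / 2 with hr
  set δ : ℝ := ε / 4 with hδ
  have hδ0 : 0 < δ := by positivity
  have hr0 : 0 ≤ r := by rw [hr]; linarith
  set c : UnitAddCircle := (((u + v) / 2 : ℝ) : UnitAddCircle) with hc
  let g : UnitAddCircle → ℝ := fun t => min 1 (max 0 ((r + δ - ‖t - c‖) / δ))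
  have hgc : Continuous g := by
    unfold g
    fun_prop
  have hg0 : ∀ t, 0 ≤ g t := fun t => le_min zero_le_one (le_max_left _ _)
  have hg1 : ∀ t, g t ≤ 1 := fun t => min_le_left _ _
  have hgone : ∀ t, ‖t - c‖ ≤ r → g t = 1 := by
    intro t ht
    apply min_eq_left
    apply le_max_of_le_right
    rw [le_div_iff₀ hδ0]
    linarith
  have hgzero : ∀ t, t ∉ Metric.closedBall c (r + δ) → g t = 0 := by
    intro t ht
    rw [Metric.mem_closedBall, dist_eq_norm, not_le] at ht
    unfold g
    rw [max_eq_left]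
    · simp
    · apply div_nonpos_of_nonpos_of_nonneg _ hδ0.le
      linarith
  have hint : ∫ t, g t ∂(AddCircle.haarAddCircle (T := (1 : ℝ))) ≤ v - u + 2 * δ := by
    calc ∫ t, g t ∂(AddCircle.haarAddCircle (T := (1 : ℝ)))
        ≤ ∫ t, (Metric.closedBall c (r + δ)).indicator (fun _ => (1 : ℝ)) t
            ∂(AddCircle.haarAddCircle (T := (1 : ℝ))) := by
          apply integral_mono
          · exact hgc.integrable_of_hasCompactSupport (HasCompactSupport.of_compactSpace _)
          · exact (integrable_const (1 : ℝ)).indicator Metric.isClosed_closedBall.measurableSet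
          · intro t
            by_cases ht : t ∈ Metric.closedBall c (r + δ)
            · rw [Set.indicator_of_mem ht]
              exact hg1 t
            · rw [Set.indicator_of_notMem ht, hgzero t ht]
      _ = (AddCircle.haarAddCircle (T := (1 : ℝ))).real (Metric.closedBall c (r + δ)) := by
          rw [integral_indicator_const _ Metric.isClosed_closedBall.measurableSet]
          simp
      _ ≤ 2 * (r + δ) := haar_closedBall_le c (by linarith)
      _ = v - u + 2 * δ := by rw [hr]; ring
  let G : C(UnitAddCircle, ℂ) := ⟨fun t => (g t : ℂ), Complex.continuous_ofReal.comp hgc⟩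
  have hlim := avg_tendsto atTop (fun N : ℕ => N) (fun _ n => ((x n : ℝ) : UnitAddCircle))
    (eventually_ne_atTop 0) (by
      intro k hk
      have := hx k hk
      simpa only [e_eq_fourier] using this) G
  have hGint : ∫ t, G t ∂(AddCircle.haarAddCircle (T := (1 : ℝ))) =
      ((∫ t, g t ∂(AddCircle.haarAddCircle (T := (1 : ℝ))) : ℝ) : ℂ) := by
    change ∫ t, (g t : ℂ) ∂(AddCircle.haarAddCircle (T := (1 : ℝ))) = _
    exact integral_ofReal
  rw [hGint] at hlim
  have hlim2 := (Complex.continuous_re.tendsto _).comp hlim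
  rw [Complex.ofReal_re] at hlim2
  have hev : ∀ᶠ N : ℕ in atTop, (∑ n ∈ Finset.range N, g (x n : UnitAddCircle)) / N <
      v - u + ε := by
    have : ∫ t, g t ∂(AddCircle.haarAddCircle (T := (1 : ℝ))) < v - u + ε := by
      linarith
    filter_upwards [hlim2.eventually_lt_const this] with N hN
    refine lt_of_eq_of_lt ?_ hN
    simp only [Function.comp_apply, G, ContinuousMap.coe_mk]
    rw [← Complex.ofReal_sum, ← Complex.ofReal_natCast, ← Complex.ofReal_div, Complex.ofReal_re]
  filter_upwards [hev, eventually_gt_atTop 0] with N hN hN0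
  refine le_trans ?_ hN.le
  have hNpos : (0 : ℝ) < N := by exact_mod_cast hN0
  apply div_le_div_of_nonneg_right _ hNpos.le
  rw [Finset.card_filter]
  push_cast
  apply Finset.sum_le_sum
  intro n _
  split_ifs with h
  · rw [hgone]
    have h1 : ((x n : ℝ) : UnitAddCircle) - c =
        ((Int.fract (x n) - (u + v) / 2 : ℝ) : UnitAddCircle) := by
      rw [hc, AddCircle.coe_sub]
      congr 1
      rw [← sub_eq_zero, ← AddCircle.coe_sub, AddCircle.coe_eq_zero_iff]
      exact ⟨⌊x n⌋, by simp [Int.self_sub_fract]⟩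
    rw [h1]
    refine (QuotientAddGroup.norm_mk_le_norm).trans ?_
    rw [Real.norm_eq_abs, abs_le]
    constructor <;> linarith [h.1, h.2]
  · exact hg0 _

theorem isUD_of_weyl {x : ℕ → ℝ} (hx : Weyl x) : IsUD x := by
  intro u v hu huv hv
  rw [Metric.tendsto_nhds]
  intro ε hε
  filter_upwards [ud_upper hx (u := 0) (v := u) hu (ε := ε / 4) (by positivity),
    ud_upper hx (u := u) (v := v) huv.le (ε := ε / 4) (by positivity),
    ud_upper hx (u := v) (v := 1) hv (ε := ε / 4) (by positivity), eventually_gt_atTop 0]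
    with N h1 h2 h3 hN0
  have hNpos : (0 : ℝ) < N := by exact_mod_cast hN0
  have hsum : (((Finset.range N).filter
      (fun n => 0 ≤ Int.fract (x n) ∧ Int.fract (x n) < u)).card : ℝ) +
      ((Finset.range N).filter (fun n => u ≤ Int.fract (x n) ∧ Int.fract (x n) < v)).card +
      ((Finset.range N).filter (fun n => v ≤ Int.fract (x n) ∧ Int.fract (x n) < 1)).card = N := by
    rw [Finset.card_filter, Finset.card_filter, Finset.card_filter]
    push_cast
    rw [← Finset.sum_add_distrib, ← Finset.sum_add_distrib]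
    have : ∀ n ∈ Finset.range N, ((if 0 ≤ Int.fract (x n) ∧ Int.fract (x n) < u then (1 : ℝ) else 0) +
        (if u ≤ Int.fract (x n) ∧ Int.fract (x n) < v then (1 : ℝ) else 0) +
        (if v ≤ Int.fract (x n) ∧ Int.fract (x n) < 1 then (1 : ℝ) else 0)) = 1 := by
      intro n _
      have hf0 := Int.fract_nonneg (x n)
      have hf1 := Int.fract_lt_one (x n)
      by_cases c1 : Int.fract (x n) < u
      · rw [if_pos ⟨hf0, c1⟩, if_neg (by intro h; linarith [h.1]),
          if_neg (by intro h; linarith [h.1])]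
        ring
      · by_cases c2 : Int.fract (x n) < v
        · rw [if_neg (by intro h; exact c1 h.2), if_pos ⟨not_lt.mp c1, c2⟩,
            if_neg (by intro h; linarith [h.1])]
          ring
        · rw [if_neg (by intro h; exact c1 h.2), if_neg (by intro h; exact c2 h.2),
            if_pos ⟨not_lt.mp c2, hf1⟩]
          ring
    rw [Finset.sum_congr rfl this]
    simp
  rw [Real.dist_eq, abs_lt]
  have e1 : (((Finset.range N).filter
      (fun n => 0 ≤ Int.fract (x n) ∧ Int.fract (x n) < u)).card : ℝ) / N +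
      ((Finset.range N).filter (fun n => u ≤ Int.fract (x n) ∧ Int.fract (x n) < v)).card / N +
      ((Finset.range N).filter (fun n => v ≤ Int.fract (x n) ∧ Int.fract (x n) < 1)).card / N
      = 1 := by
    rw [← add_div, ← add_div, hsum, div_self hNpos.ne']
  constructor <;> linarith

theorem weyl_of_isUD {x : ℕ → ℝ} (hx : IsUD x) : Weyl x := by
  intro h hh
  rw [Metric.tendsto_nhds]
  intro ε hε
  -- choose the mesh
  obtain ⟨M, hM1, hM2⟩ : ∃ M : ℕ, |h| < M ∧ 2 * Real.pi * |(h : ℝ)| / M < ε / 2 := by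
    obtain ⟨M1, hM1⟩ := exists_nat_gt (2 * Real.pi * |(h : ℝ)| / (ε / 2))
    refine ⟨max (h.natAbs + 1) (M1 + 1), ?_, ?_⟩
    · have : |h| < ((h.natAbs + 1 : ℕ) : ℤ) := by
        rw [Int.abs_eq_natAbs]; push_cast; omega
      refine lt_of_lt_of_le this ?_
      exact_mod_cast le_max_left _ _
    · have h1 : (M1 : ℝ) < (max (h.natAbs + 1) (M1 + 1) : ℕ) := by
        exact_mod_cast lt_of_lt_of_le (Nat.lt_succ_self M1) (le_max_right _ _)
      have h2 : (0 : ℝ) < (max (h.natAbs + 1) (M1 + 1) : ℕ) := by
        exact_mod_cast lt_of_lt_of_le (Nat.succ_pos M1) (le_max_right _ _)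
      rw [div_lt_iff₀ h2]
      rw [div_lt_iff₀ (by positivity)] at hM1
      nlinarith
  have hM0 : 0 < M := by
    have := abs_nonneg h
    have h3 : (0 : ℤ) < M := lt_of_le_of_lt this hM1
    exact_mod_cast h3
  have hMr : (0 : ℝ) < M := by exact_mod_cast hM0
  -- the step approximations
  let j : ℕ → ℕ := fun n => ⌊(M : ℝ) * Int.fract (x n)⌋₊
  have hjlt : ∀ n, j n < M := by
    intro n
    have h1 : (M : ℝ) * Int.fract (x n) < M := by
      have := Int.fract_lt_one (x n)
      nlinarith
    exact (Nat.floor_lt (mul_nonneg hMr.le (Int.fract_nonneg _))).mpr h1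
  have hjiff : ∀ n i, j n = i ↔ ((i : ℝ) / M ≤ Int.fract (x n) ∧
      Int.fract (x n) < ((i : ℝ) + 1) / M) := by
    intro n i
    rw [Nat.floor_eq_iff (mul_nonneg hMr.le (Int.fract_nonneg _)), div_le_iff₀ hMr,
      lt_div_iff₀ hMr, mul_comm]
  have hlim : Tendsto (fun N : ℕ => ∑ i ∈ Finset.range M, ((((Finset.range N).filter
      (fun n => (i : ℝ) / M ≤ Int.fract (x n) ∧
        Int.fract (x n) < ((i : ℝ) + 1) / M)).card : ℝ) / N : ℝ) * e (h * (i / M))) atTop
      (𝓝 (∑ i ∈ Finset.range M, ((((i : ℝ) + 1) / M - i / M : ℝ) : ℂ) * e (h * (i / M)))) := by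
    apply tendsto_finsetSum
    intro i hi
    apply Tendsto.mul_const
    apply (Complex.continuous_ofReal.tendsto _).comp
    apply hx
    · positivity
    · apply div_lt_div_of_pos_right _ hMr
      linarith
    · rw [div_le_one hMr]
      have := Finset.mem_range.mp hi
      exact_mod_cast this
  have hzero : (∑ i ∈ Finset.range M, ((((i : ℝ) + 1) / M - i / M : ℝ) : ℂ) * e (h * (i / M)))
      = 0 := by
    have h1 : ∀ i ∈ Finset.range M, ((((i : ℝ) + 1) / M - i / M : ℝ) : ℂ) * e (h * (i / M)) =
        ((1 / M : ℝ) : ℂ) * (e ((h : ℝ) / M)) ^ i := by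
      intro i _
      rw [← e_mul_nat]
      congr 2
      · ring
      · ring
    rw [Finset.sum_congr rfl h1, ← Finset.mul_sum]
    have hw : e ((h : ℝ) / M) ≠ 1 := by
      rw [Ne, e_eq_one_iff]
      rintro ⟨n, hn⟩
      rw [div_eq_iff hMr.ne'] at hn
      have hn' : h = n * M := by exact_mod_cast hn
      have h2 : n ≠ 0 := by
        rintro rfl
        simp at hn'
        exact hh hn'
      have h3 : (1 : ℤ) ≤ |n| := Int.one_le_abs h2
      have h4 : |h| = |n| * M := by
        rw [hn', abs_mul]
        simp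
      have h5 : (0 : ℤ) < M := by exact_mod_cast hM0
      nlinarith
    rw [geom_sum_eq hw, ← e_mul_nat]
    have : (M : ℝ) * ((h : ℝ) / M) = h := by field_simp
    rw [this, e_int]
    simp
  rw [hzero] at hlim
  filter_upwards [(Metric.tendsto_nhds.mp hlim) (ε / 2) (by positivity), eventually_gt_atTop 0]
    with N hN hN0
  have hNpos : (0 : ℝ) < N := by exact_mod_cast hN0
  rw [dist_zero_right] at hN ⊢
  have hfib : ∑ n ∈ Finset.range N, e (h * (j n / M)) = ∑ i ∈ Finset.range M,
      (((Finset.range N).filter (fun n => (i : ℝ) / M ≤ Int.fract (x n) ∧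
        Int.fract (x n) < ((i : ℝ) + 1) / M)).card : ℂ) * e (h * (i / M)) := by
    rw [← Finset.sum_fiberwise_of_maps_to (s := Finset.range N) (t := Finset.range M) (g := j)
      (fun n _ => Finset.mem_range.mpr (hjlt n))]
    apply Finset.sum_congr rfl
    intro i _
    have : ∀ n ∈ (Finset.range N).filter (fun n => j n = i), e (h * (j n / M)) =
        e (h * (i / M)) := by
      intro n hn
      rw [(Finset.mem_filter.mp hn).2]
    rw [Finset.sum_congr rfl this, Finset.sum_const, nsmul_eq_mul]
    congr 3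
    apply Finset.filter_congr
    intro n _
    exact hjiff n i
  have hclose : ‖(∑ n ∈ Finset.range N, e (h * x n)) - ∑ n ∈ Finset.range N, e (h * (j n / M))‖
      ≤ N * (2 * Real.pi * |(h : ℝ)| / M) := by
    rw [← Finset.sum_sub_distrib]
    calc ‖∑ n ∈ Finset.range N, (e (h * x n) - e (h * (j n / M)))‖
        ≤ ∑ n ∈ Finset.range N, ‖e (h * x n) - e (h * (j n / M))‖ := norm_sum_le _ _
      _ ≤ ∑ n ∈ Finset.range N, 2 * Real.pi * |(h : ℝ)| / M := by
          apply Finset.sum_le_sum
          intro n _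
          rw [e_periodic_fract]
          refine (norm_e_sub_e_le _ _).trans ?_
          rw [← mul_sub, abs_mul]
          have h1 : |Int.fract (x n) - j n / M| ≤ 1 / M := by
            have h2 := (hjiff n (j n)).mp rfl
            rw [abs_le]
            rw [add_div] at h2
            constructor
            · have : (0 : ℝ) < 1 / M := by positivity
              linarith [h2.1]
            · linarith [h2.2]
          calc 2 * Real.pi * (|(h : ℝ)| * |Int.fract (x n) - j n / M|)
              ≤ 2 * Real.pi * (|(h : ℝ)| * (1 / M)) := by gcongr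
            _ = 2 * Real.pi * |(h : ℝ)| / M := by ring
      _ = N * (2 * Real.pi * |(h : ℝ)| / M) := by simp
  have hN' : ‖(∑ n ∈ Finset.range N, e (h * (j n / M))) / (N : ℂ)‖ < ε / 2 := by
    rw [hfib, Finset.sum_div]
    refine lt_of_eq_of_lt ?_ hN
    congr 1
    apply Finset.sum_congr rfl
    intro i _
    push_cast
    ring
  calc ‖(∑ n ∈ Finset.range N, e (h * x n)) / (N : ℂ)‖
      = ‖((∑ n ∈ Finset.range N, e (h * x n)) - ∑ n ∈ Finset.range N, e (h * (j n / M))) / (N : ℂ) +
        (∑ n ∈ Finset.range N, e (h * (j n / M))) / (N : ℂ)‖ := by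
        congr 1; ring
    _ ≤ ‖((∑ n ∈ Finset.range N, e (h * x n)) - ∑ n ∈ Finset.range N, e (h * (j n / M))) / (N : ℂ)‖
        + ‖(∑ n ∈ Finset.range N, e (h * (j n / M))) / (N : ℂ)‖ := norm_add_le _ _
    _ < ε / 2 + ε / 2 := by
        apply add_lt_add _ hN'
        rw [norm_div, Complex.norm_natCast, div_lt_iff₀ hNpos]
        refine lt_of_le_of_lt hclose ?_
        nlinarith
    _ = ε := by ring

theorem isUD_iff_weyl (x : ℕ → ℝ) : IsUD x ↔ Weyl x := ⟨weyl_of_isUD, isUD_of_weyl⟩

end Pool.Agent.Lib_helper50.NN
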