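import Mathlib
import Pool.Agent.Lib_helper50.NN.Weyl

/-!
# Uniform averaged decay of products along geometric progressions
-/

set_option autoImplicit false

open Filter Topology MeasureTheory

namespace Pool.Agent.Lib_helper50.NN

/-- the one-digit factor bound -/
noncomputable def rho (b : ℕ) (y : ℝ) : ℝ := 1 - (2 / b) * (1 - |Real.cos (Real.pi * y)|)

lemma rho_nonneg {b : ℕ} (hb : 2 ≤ b) (y : ℝ) : 0 ≤ rho b y := by
  unfold rho
  have h1 : (2 : ℝ) ≤ b := by exact_mod_cast hb
  have h2 : (2 : ℝ) / b ≤ 1 := by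
    rw [div_le_one (by linarith)]; exact h1
  have h3 := abs_nonneg (Real.cos (Real.pi * y))
  have h5 : (0 : ℝ) ≤ 2 / b := by positivity
  nlinarith [Real.abs_cos_le_one (Real.pi * y)]

lemma rho_le_one {b : ℕ} (y : ℝ) : rho b y ≤ 1 := by
  unfold rho
  have h4 := Real.abs_cos_le_one (Real.pi * y)
  have h5 : (0 : ℝ) ≤ 2 / b := by positivity
  nlinarith

lemma continuous_rho (b : ℕ) : Continuous (rho b) := by
  unfold rho
  fun_prop

lemma rho_neg (b : ℕ) (y : ℝ) : rho b (-y) = rho b y := by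
  unfold rho
  rw [mul_neg, Real.cos_neg]

lemma rho_abs (b : ℕ) (y : ℝ) : rho b |y| = rho b y := by
  rcases abs_choice y with h | h
  · rw [h]
  · rw [h, rho_neg]

lemma abs_cos_le (y : ℝ) : |Real.cos (Real.pi * y)| ≤ 1 - 2 * (y - round y) ^ 2 := by
  have h1 : Real.pi * y = Real.pi * (y - round y) + (round y : ℤ) * Real.pi := by ring
  have h2 : |y - round y| ≤ 1 / 2 := abs_sub_round y
  have hpi := Real.pi_pos
  rw [h1, Real.cos_add_int_mul_pi, abs_mul, abs_zpow, abs_neg, abs_one, one_zpow, one_mul]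
  have h3 : |Real.pi * (y - round y)| ≤ Real.pi / 2 := by
    rw [abs_mul, abs_of_pos hpi]
    nlinarith
  rw [abs_of_nonneg (Real.cos_nonneg_of_mem_Icc (abs_le.mp h3))]
  refine (Real.cos_le_one_sub_mul_cos_sq (h3.trans (by linarith))).trans (le_of_eq ?_)
  field_simp

lemma rho_le {b : ℕ} (y : ℝ) : rho b y ≤ 1 - 4 / b * (y - round y) ^ 2 := by
  unfold rho
  have h1 := abs_cos_le y
  have h5 : (0 : ℝ) ≤ 2 / b := by positivity
  have : 4 / (b : ℝ) * (y - round y) ^ 2 = 2 / b * (2 * (y - round y) ^ 2) := by ring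
  rw [this]
  nlinarith

/-- If no `y B^j` is an integer then the product of the factors tends to zero. -/
lemma prod_rho_tendsto {b B : ℕ} (hb : 2 ≤ b) (hB : 2 ≤ B) (y : ℝ)
    (hy : ∀ (j : ℕ) (n : ℤ), y * (B : ℝ) ^ j ≠ n) :
    Tendsto (fun m => ∏ i ∈ Finset.range m, rho b (y * (B : ℝ) ^ i)) atTop (𝓝 0) := by
  set P : ℕ → ℝ := fun m => ∏ i ∈ Finset.range m, rho b (y * (B : ℝ) ^ i) with hP
  have hP0 : ∀ m, 0 ≤ P m := fun m => Finset.prod_nonneg fun i _ => rho_nonneg hb _
  have hanti : Antitone P := by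
    apply antitone_nat_of_succ_le
    intro m
    simp only [hP, Finset.prod_range_succ]
    exact mul_le_of_le_one_right (hP0 m) (rho_le_one _)
  have hlim := tendsto_atTop_ciInf hanti ⟨0, by rintro _ ⟨m, rfl⟩; exact hP0 m⟩
  set ℓ : ℝ := ⨅ m, P m with hℓ
  have hℓ0 : 0 ≤ ℓ := le_ciInf hP0
  rcases hℓ0.eq_or_lt with h0 | hpos
  · rw [h0]; exact hlim
  exfalso
  have hPl : ∀ m, ℓ ≤ P m := fun m => ciInf_le ⟨0, by rintro _ ⟨m, rfl⟩; exact hP0 m⟩ m
  -- the distance to the nearest integer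
  set s : ℕ → ℝ := fun m => y * (B : ℝ) ^ m - round (y * (B : ℝ) ^ m) with hs
  have hratio : Tendsto (fun m => rho b (y * (B : ℝ) ^ m)) atTop (𝓝 1) := by
    have h1 : Tendsto (fun m => P (m + 1) / P m) atTop (𝓝 (ℓ / ℓ)) :=
      (hlim.comp (tendsto_add_atTop_nat 1)).div hlim hpos.ne'
    rw [div_self hpos.ne'] at h1
    refine h1.congr (fun m => ?_)
    have : P m ≠ 0 := (lt_of_lt_of_le hpos (hPl m)).ne'
    simp only [hP, Finset.prod_range_succ] at this ⊢
    rw [mul_div_assoc, mul_comm]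
    field_simp
  have hbpos : (0 : ℝ) < b := by
    have : 0 < b := by omega
    exact_mod_cast this
  have hs2 : Tendsto (fun m => (s m) ^ 2) atTop (𝓝 0) := by
    have h2 : Tendsto (fun m => (b : ℝ) / 4 * (1 - rho b (y * (B : ℝ) ^ m))) atTop (𝓝 0) := by
      have := (tendsto_const_nhds (x := (1 : ℝ))).sub hratio
      have := this.const_mul ((b : ℝ) / 4)
      simpa using this
    refine squeeze_zero (fun m => sq_nonneg _) (fun m => ?_) h2
    have := rho_le (b := b) (y * (B : ℝ) ^ m)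
    have h3 : 4 / (b : ℝ) * (s m) ^ 2 ≤ 1 - rho b (y * (B : ℝ) ^ m) := by
      simp only [hs]; linarith
    calc (s m) ^ 2 = (b : ℝ) / 4 * (4 / (b : ℝ) * (s m) ^ 2) := by field_simp
      _ ≤ (b : ℝ) / 4 * (1 - rho b (y * (B : ℝ) ^ m)) := by gcongr
  have hsabs : Tendsto (fun m => |s m|) atTop (𝓝 0) := by
    have := hs2.sqrt
    simpa [Real.sqrt_sq_eq_abs] using this
  have hBpos : (0 : ℝ) < B := by
    have : 0 < B := by omega
    exact_mod_cast this
  have hB2 : (2 : ℝ) ≤ B := by exact_mod_cast hB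
  obtain ⟨m0, hm0⟩ := eventually_atTop.mp
    (hsabs.eventually_lt_const (show (0 : ℝ) < 1 / (2 * B) by positivity))
  have hstep : ∀ m ≥ m0, |s m| ≤ |s (m + 1)| := by
    intro m hm
    have h1 := hm0 m hm
    have h2 : y * (B : ℝ) ^ (m + 1) = B * s m + ((B * round (y * (B : ℝ) ^ m) : ℤ) : ℝ) := by
      simp only [hs]
      push_cast
      ring
    have h3 : |(B : ℝ) * s m| < 1 / 2 := by
      rw [abs_mul, abs_of_pos hBpos]
      rw [lt_div_iff₀ (by positivity)] at h1
      linarith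
    have h4 : round ((B : ℝ) * s m) = 0 := by
      rw [round_eq_zero_iff]
      rw [abs_lt] at h3
      exact ⟨h3.1.le, h3.2⟩
    have h5 : s (m + 1) = B * s m := by
      simp only [hs] at h2 h4 ⊢
      rw [h2, round_add_intCast, h4]
      push_cast
      ring
    rw [h5, abs_mul, abs_of_pos hBpos]
    nlinarith [abs_nonneg (s m)]
  have hmono : ∀ m ≥ m0, |s m0| ≤ |s m| := by
    intro m hm
    induction m, hm using Nat.le_induction with
    | base => exact le_rfl
    | succ m hm ih => exact ih.trans (hstep m hm)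
  have hs0 : 0 < |s m0| := by
    rw [abs_pos]
    intro h
    apply hy m0 (round (y * (B : ℝ) ^ m0))
    simp only [hs] at h
    linarith
  have := ge_of_tendsto hsabs (eventually_atTop.mpr ⟨m0, hmono⟩)
  linarith

/-- product of `m` consecutive factors, as a function of the logarithm -/
noncomputable def G (b B m : ℕ) (τ : ℝ) : ℝ := ∏ i ∈ Finset.range m, rho b ((B : ℝ) ^ (τ + i))

lemma G_nonneg {b B : ℕ} (hb : 2 ≤ b) (m : ℕ) (τ : ℝ) : 0 ≤ G b B m τ :=
  Finset.prod_nonneg fun _ _ => rho_nonneg hb _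

lemma G_le_one {b B : ℕ} (hb : 2 ≤ b) (m : ℕ) (τ : ℝ) : G b B m τ ≤ 1 :=
  Finset.prod_le_one (fun _ _ => rho_nonneg hb _) (fun _ _ => rho_le_one _)

lemma continuous_G {b B : ℕ} (hB : 2 ≤ B) (m : ℕ) : Continuous (G b B m) := by
  unfold G
  apply continuous_finsetProd
  intro i _
  apply (continuous_rho b).comp
  apply Continuous.rpow continuous_const (by fun_prop)
  intro x
  left
  have : (B : ℝ) ≠ 0 := by
    have : B ≠ 0 := by omega
    exact_mod_cast this
  exact this

/-- interpolated majorant -/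
noncomputable def Fm (b B m : ℕ) (τ : ℝ) : ℝ :=
  (1 - τ) * G b B m τ + τ * G b B m (τ - 1)

lemma Fm_nonneg {b B : ℕ} (hb : 2 ≤ b) (m : ℕ) {τ : ℝ} (h0 : 0 ≤ τ) (h1 : τ ≤ 1) :
    0 ≤ Fm b B m τ := by
  unfold Fm
  have := G_nonneg (B := B) hb m τ
  have := G_nonneg (B := B) hb m (τ - 1)
  have : 0 ≤ 1 - τ := by linarith
  positivity

lemma Fm_le_one {b B : ℕ} (hb : 2 ≤ b) (m : ℕ) {τ : ℝ} (h0 : 0 ≤ τ) (h1 : τ ≤ 1) :
    Fm b B m τ ≤ 1 := by
  unfold Fm
  have := G_le_one (B := B) hb m τ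
  have := G_le_one (B := B) hb m (τ - 1)
  nlinarith

/-- the continuous function on the circle -/
noncomputable def FC (b B m : ℕ) (hB : 2 ≤ B) : C(UnitAddCircle, ℂ) where
  toFun := AddCircle.liftIco 1 0 (fun τ => ((Fm b B m τ : ℝ) : ℂ))
  continuous_toFun := by
    apply AddCircle.liftIco_zero_continuous
    · simp [Fm]
    · apply Continuous.continuousOn
      apply Complex.continuous_ofReal.comp
      unfold Fm
      have := continuous_G (b := b) hB m
      fun_prop

lemma FC_coe (b B m : ℕ) (hB : 2 ≤ B) (x : ℝ) :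
    FC b B m hB (x : UnitAddCircle) = ((Fm b B m (Int.fract x) : ℝ) : ℂ) := by
  have h1 : (x : UnitAddCircle) = (Int.fract x : ℝ) := by
    rw [← sub_eq_zero, ← AddCircle.coe_sub, AddCircle.coe_eq_zero_iff]
    exact ⟨⌊x⌋, by simp [Int.self_sub_fract]⟩
  rw [h1]
  exact AddCircle.liftIco_zero_coe_apply (p := (1 : ℝ))
    (f := fun τ : ℝ => ((Fm b B m τ : ℝ) : ℂ)) ⟨Int.fract_nonneg x, Int.fract_lt_one x⟩

lemma integral_FC (b B m : ℕ) (hB : 2 ≤ B) :
    ∫ t, FC b B m hB t ∂(AddCircle.haarAddCircle (T := (1 : ℝ))) =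
      ((∫ a in Set.Ioc (0 : ℝ) 1, Fm b B m (Int.fract a) : ℝ) : ℂ) := by
  have h1 : (AddCircle.haarAddCircle (T := (1 : ℝ))) = volume := by
    rw [AddCircle.volume_eq_smul_haarAddCircle]
    simp
  rw [h1, ← UnitAddCircle.integral_preimage 0]
  simp only [FC_coe, zero_add]
  exact integral_ofReal

lemma measurable_Fm_fract (b B m : ℕ) (hB : 2 ≤ B) :
    Measurable (fun a : ℝ => Fm b B m (Int.fract a)) := by
  have h : Continuous (Fm b B m) := by
    unfold Fm
    have := continuous_G (b := b) hB m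
    fun_prop
  exact h.measurable.comp measurable_fract

lemma tendsto_integral_Fm {b B : ℕ} (hb : 2 ≤ b) (hB : 2 ≤ B) :
    Tendsto (fun m => ∫ a in Set.Ioc (0 : ℝ) 1, Fm b B m (Int.fract a)) atTop (𝓝 0) := by
  have hBpos : (0 : ℝ) < B := by
    have : 0 < B := by omega
    exact_mod_cast this
  have hB1 : (1 : ℝ) < B := by
    have : 1 < B := by omega
    exact_mod_cast this
  have key : Tendsto (fun m => ∫ a in Set.Ioc (0 : ℝ) 1, Fm b B m (Int.fract a)) atTop
      (𝓝 (∫ a in Set.Ioc (0 : ℝ) 1, (0 : ℝ))) := by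
    apply tendsto_integral_of_dominated_convergence (fun _ => (1 : ℝ))
    · intro m
      exact (measurable_Fm_fract b B m hB).aestronglyMeasurable
    · simp
    · intro m
      filter_upwards with a
      rw [Real.norm_eq_abs, abs_of_nonneg (Fm_nonneg hb m (Int.fract_nonneg a)
        (Int.fract_lt_one a).le)]
      exact Fm_le_one hb m (Int.fract_nonneg a) (Int.fract_lt_one a).le
    · -- almost everywhere convergence
      set E : Set ℝ := Set.range (fun p : ℤ × ℤ => Real.logb B (p.1 * (B : ℝ) ^ p.2)) with hE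
      have hcount : E.Countable := Set.countable_range _
      have hae : ∀ᵐ a ∂(volume.restrict (Set.Ioc (0 : ℝ) 1)), a ∉ E :=
        ae_restrict_of_ae (hcount.ae_notMem _)
      filter_upwards [hae] with a ha
      have hirr : ∀ (k n : ℤ), (B : ℝ) ^ (Int.fract a) * (B : ℝ) ^ k ≠ n := by
        intro k n hn
        apply ha
        refine ⟨(n, ⌊a⌋ - k), ?_⟩
        have h1 : (n : ℝ) * (B : ℝ) ^ (⌊a⌋ - k) = (B : ℝ) ^ a := by
          rw [← hn, zpow_sub₀ hBpos.ne']
          have h2 : (B : ℝ) ^ (Int.fract a) * (B : ℝ) ^ ⌊a⌋ = (B : ℝ) ^ a := by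
            rw [← Real.rpow_intCast, ← Real.rpow_add hBpos, Int.fract_add_floor]
          rw [← h2]
          have h3 : (B : ℝ) ^ k ≠ 0 := zpow_ne_zero _ hBpos.ne'
          field_simp
        simp only [h1]
        exact Real.logb_rpow hBpos hB1.ne'
      have hG1 : Tendsto (fun m => G b B m (Int.fract a)) atTop (𝓝 0) := by
        have := prod_rho_tendsto hb hB ((B : ℝ) ^ (Int.fract a)) (by
          intro j n
          have := hirr j n
          rwa [zpow_natCast] at this)
        refine this.congr (fun m => ?_)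
        unfold G
        apply Finset.prod_congr rfl
        intro i _
        rw [Real.rpow_add hBpos, Real.rpow_natCast]
      have hG2 : Tendsto (fun m => G b B m (Int.fract a - 1)) atTop (𝓝 0) := by
        have := prod_rho_tendsto hb hB ((B : ℝ) ^ (Int.fract a - 1)) (by
          intro j n
          have := hirr ((j : ℤ) - 1) n
          rw [zpow_sub₀ hBpos.ne', zpow_natCast, zpow_one] at this
          rw [Real.rpow_sub hBpos, Real.rpow_one]
          intro h
          apply this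
          rw [← h]
          ring)
        refine this.congr (fun m => ?_)
        unfold G
        apply Finset.prod_congr rfl
        intro i _
        rw [Real.rpow_add hBpos, Real.rpow_natCast]
      have := (hG1.const_mul (1 - Int.fract a)).add (hG2.const_mul (Int.fract a))
      simpa [Fm] using this
  simpa using key

/-- Uniform equidistribution of an irrational rotation. -/
lemma rotation_uniform (ω : ℝ) (hω : ∀ k n : ℤ, k ≠ 0 → (k : ℝ) * ω ≠ n)
    (f : C(UnitAddCircle, ℂ)) {δ : ℝ} (hδ : 0 < δ) :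
    ∃ N0 : ℕ, ∀ N ≥ N0, ∀ t : ℝ,
      ‖(∑ n ∈ Finset.range N, f ((t + n * ω : ℝ) : UnitAddCircle)) / (N : ℂ) -
        ∫ t, f t ∂(AddCircle.haarAddCircle (T := (1 : ℝ)))‖ < δ := by
  have hlim := avg_tendsto (ι := ℕ × ℝ) (Filter.comap Prod.fst atTop) (fun p => p.1)
    (fun p n => ((p.2 + n * ω : ℝ) : UnitAddCircle))
    (Filter.tendsto_comap.eventually (eventually_ne_atTop 0)) (by
      intro k hk
      have hw : e (k * ω) ≠ 1 := by
        rw [Ne, e_eq_one_iff]
        rintro ⟨n, hn⟩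
        exact hω k n hk hn
      have hw' : 0 < ‖e (k * ω) - 1‖ := norm_pos_iff.mpr (sub_ne_zero.mpr hw)
      have hb : ∀ p : ℕ × ℝ, ‖(∑ n ∈ Finset.range p.1,
          (fourier k : C(UnitAddCircle, ℂ)) ((p.2 + n * ω : ℝ) : UnitAddCircle)) / (p.1 : ℂ)‖ ≤
          (2 / ‖e (k * ω) - 1‖) / p.1 := by
        intro p
        rw [norm_div, Complex.norm_natCast]
        apply div_le_div_of_nonneg_right _ (Nat.cast_nonneg _)
        have h1 : ∀ n ∈ Finset.range p.1,
            (fourier k : C(UnitAddCircle, ℂ)) ((p.2 + n * ω : ℝ) : UnitAddCircle) =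
            e (k * p.2) * (e (k * ω)) ^ n := by
          intro n _
          rw [← e_eq_fourier, ← e_mul_nat, ← e_add]
          congr 1
          ring
        rw [Finset.sum_congr rfl h1, ← Finset.mul_sum, norm_mul, norm_e, one_mul,
          geom_sum_eq hw, norm_div, ← e_mul_nat]
        apply div_le_div_of_nonneg_right _ hw'.le
        refine (norm_sub_le _ _).trans ?_
        rw [norm_e, norm_one]
        norm_num
      apply squeeze_zero_norm hb
      exact (tendsto_const_nhds.div_atTop tendsto_natCast_atTop_atTop).comp tendsto_comap) f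
  have h1 := Metric.tendsto_nhds.mp hlim δ hδ
  rw [Filter.eventually_comap] at h1
  obtain ⟨N0, hN0⟩ := eventually_atTop.mp h1
  refine ⟨N0, fun N hN t => ?_⟩
  have := hN0 N hN (N, t) rfl
  rw [dist_eq_norm] at this
  exact this

/-- The key uniform bound. -/
theorem lemma_U {b B : ℕ} (hb : 2 ≤ b) (hB : 2 ≤ B) (ω : ℝ)
    (hω : ∀ k n : ℤ, k ≠ 0 → (k : ℝ) * ω ≠ n) {δ : ℝ} (hδ : 0 < δ) :
    ∃ m C : ℕ, ∀ (t : ℝ) (N : ℕ),
      ∑ s ∈ Finset.range N, Fm b B m (Int.fract (t + s * ω)) ≤ δ * N + C := by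
  obtain ⟨m, hm⟩ := ((tendsto_integral_Fm hb hB).eventually_lt_const
    (show (0 : ℝ) < δ / 2 by positivity)).exists
  obtain ⟨N0, hN0⟩ := rotation_uniform ω hω (FC b B m hB) (show (0 : ℝ) < δ / 2 by positivity)
  refine ⟨m, N0, fun t N => ?_⟩
  by_cases hN : N0 ≤ N ∧ 0 < N
  · have h1 := hN0 N hN.1 t
    rw [integral_FC] at h1
    simp only [FC_coe] at h1
    have hNpos : (0 : ℝ) < N := by exact_mod_cast hN.2
    have h2 : |(∑ s ∈ Finset.range N, Fm b B m (Int.fract (t + s * ω))) / N -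
        ∫ a in Set.Ioc (0 : ℝ) 1, Fm b B m (Int.fract a)| < δ / 2 := by
      rw [← Real.norm_eq_abs, ← Complex.norm_real]
      push_cast
      exact h1
    have h3 := (abs_lt.mp h2).2
    have h4 : (∑ s ∈ Finset.range N, Fm b B m (Int.fract (t + s * ω))) / N < δ := by linarith
    rw [div_lt_iff₀ hNpos] at h4
    have : (0 : ℝ) ≤ N0 := Nat.cast_nonneg _
    linarith
  · have h5 : N ≤ N0 := by
      by_contra h
      push Not at h hN
      have := hN h.le
      omega
    calc ∑ s ∈ Finset.range N, Fm b B m (Int.fract (t + s * ω))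
        ≤ ∑ s ∈ Finset.range N, (1 : ℝ) := Finset.sum_le_sum fun s _ =>
          Fm_le_one hb m (Int.fract_nonneg _) (Int.fract_lt_one _).le
      _ = N := by simp
      _ ≤ N0 := by exact_mod_cast h5
      _ ≤ δ * N + N0 := by
          have : 0 ≤ δ * N := by positivity
          linarith

end Pool.Agent.Lib_helper50.NN
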