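import Mathlib
import Pool.Agent.Lib_helper50.NN.Decay

/-!
# The averaged decay along windows
-/

set_option autoImplicit false

open Filter Topology

namespace Pool.Agent.Lib_helper50.NN

/-- least `n` with `b ^ P ≤ a ^ n` -/
def nA (a b P : ℕ) : ℕ := Nat.clog a (b ^ P)

lemma prod_le_prod_image {J m : ℕ} (x : ℕ → ℝ) (h0 : ∀ j, 0 ≤ x j) (h1 : ∀ j, x j ≤ 1)
    (φ : ℕ → ℕ) (hφ : ∀ i < m, φ i < J) (hinj : ∀ i < m, ∀ i' < m, φ i = φ i' → i = i') :
    ∏ j ∈ Finset.range J, x j ≤ ∏ i ∈ Finset.range m, x (φ i) := by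
  classical
  have hsub : (Finset.range m).image φ ⊆ Finset.range J := by
    intro j hj
    obtain ⟨i, hi, rfl⟩ := Finset.mem_image.mp hj
    exact Finset.mem_range.mpr (hφ i (Finset.mem_range.mp hi))
  rw [← Finset.prod_sdiff hsub, Finset.prod_image (by
    intro i hi i' hi' h
    exact hinj i (Finset.mem_range.mp hi) i' (Finset.mem_range.mp hi') h)]
  apply mul_le_of_le_one_left
  · exact Finset.prod_nonneg fun _ _ => h0 _
  · exact Finset.prod_le_one (fun _ _ => h0 _) (fun _ _ => h1 _)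

lemma log_irrational {a b q : ℕ} (ha : 2 ≤ a) (hb : 2 ≤ b) (hq : 1 ≤ q) (hab : MulIndep a b) :
    ∀ k n : ℤ, k ≠ 0 → (k : ℝ) * Real.logb ((b ^ q : ℕ) : ℝ) a ≠ n := by
  -- positive case
  have key : ∀ (k : ℕ) (n : ℤ), 0 < k → (k : ℝ) * Real.logb ((b ^ q : ℕ) : ℝ) a ≠ n := by
    intro k n hk h
    have hb1 : (1 : ℝ) < b := by exact_mod_cast (by omega : 1 < b)
    have ha1 : (1 : ℝ) < a := by exact_mod_cast (by omega : 1 < a)
    have hB1 : (1 : ℝ) < ((b ^ q : ℕ) : ℝ) := by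
      push_cast
      exact one_lt_pow₀ hb1 (by omega)
    have hlog : 0 < Real.logb ((b ^ q : ℕ) : ℝ) a := Real.logb_pos hB1 ha1
    have hk' : (0 : ℝ) < k := by exact_mod_cast hk
    have hn : 0 < n := by
      have : (0 : ℝ) < n := by rw [← h]; positivity
      exact_mod_cast this
    obtain ⟨n', rfl⟩ := Int.eq_ofNat_of_zero_le hn.le
    have hn' : 0 < n' := by exact_mod_cast hn
    have h2 : (a : ℝ) ^ k = ((b ^ q : ℕ) : ℝ) ^ n' := by
      have h3 : ((b ^ q : ℕ) : ℝ) ^ (Real.logb ((b ^ q : ℕ) : ℝ) a) = a :=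
        Real.rpow_logb (by linarith) hB1.ne' (by linarith)
      calc (a : ℝ) ^ k = (((b ^ q : ℕ) : ℝ) ^ (Real.logb ((b ^ q : ℕ) : ℝ) a)) ^ k := by rw [h3]
        _ = ((b ^ q : ℕ) : ℝ) ^ ((k : ℝ) * Real.logb ((b ^ q : ℕ) : ℝ) a) := by
            rw [mul_comm, Real.rpow_mul (by linarith), Real.rpow_natCast]
        _ = ((b ^ q : ℕ) : ℝ) ^ n' := by
            rw [h]
            simp only [Int.ofNat_eq_natCast, Int.cast_natCast, Real.rpow_natCast]
    have h4 : a ^ k = b ^ (q * n') := by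
      rw [pow_mul]
      exact_mod_cast h2
    exact hab k (q * n') hk (by positivity) h4
  intro k n hk h
  rcases lt_or_gt_of_ne hk with hneg | hpos
  · obtain ⟨k', hk'⟩ := Int.eq_ofNat_of_zero_le (show 0 ≤ -k by omega)
    apply key k' (-n) (by omega)
    rw [Int.cast_neg]
    have : (k : ℝ) = -(k' : ℝ) := by
      have : k = -(k' : ℤ) := by
        have := hk'
        omega
      rw [this]; push_cast; ring
    rw [this] at h
    linarith
  · obtain ⟨k', hk'⟩ := Int.eq_ofNat_of_zero_le hpos.le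
    apply key k' n (by
      have := hk'
      omega)
    have : (k : ℝ) = (k' : ℝ) := by
      rw [hk', Int.cast_natCast]
    rw [this] at h
    exact h

/-- **Lemma S.** -/
theorem lemma_S {a b q h : ℕ} (ha : 2 ≤ a) (hb : 2 ≤ b) (hq : 1 ≤ q) (hh : 1 ≤ h)
    (hab : MulIndep a b) {δ : ℝ} (hδ : 0 < δ) :
    ∃ C : ℝ, 0 ≤ C ∧ ∀ P L r M : ℕ, 1 ≤ r → nA a b P + M + r ≤ nA a b (P + L) →
      ∑ s ∈ Finset.range M, ∏ j ∈ Finset.range (L / q),
        rho b ((h : ℝ) * ((a : ℝ) ^ (nA a b P + s + r) - (a : ℝ) ^ (nA a b P + s)) /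
          ((b : ℝ) ^ P * ((b : ℝ) ^ q) ^ (j + 1))) ≤ δ * M + C := by
  have hb1 : (1 : ℝ) < b := by exact_mod_cast (by omega : 1 < b)
  have ha1 : (1 : ℝ) < a := by exact_mod_cast (by omega : 1 < a)
  have hB1 : (1 : ℝ) < ((b ^ q : ℕ) : ℝ) := by
    push_cast
    exact one_lt_pow₀ hb1 (by omega)
  have hB2 : 2 ≤ b ^ q := by
    have : (1 : ℝ) < ((b ^ q : ℕ) : ℝ) := hB1
    have : 1 < b ^ q := by exact_mod_cast this
    omega
  set ω : ℝ := Real.logb ((b ^ q : ℕ) : ℝ) a with hω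
  have hωpos : 0 < ω := Real.logb_pos hB1 ha1
  obtain ⟨m, C0, hC0⟩ := lemma_U (b := b) hb hB2 ω (log_irrational ha hb hq hab) hδ
  set s1 : ℕ := ⌈((m : ℝ) + 1) / ω⌉₊ with hs1
  set s3 : ℕ := ⌈(Real.logb ((b ^ q : ℕ) : ℝ) h + 2) / ω⌉₊ with hs3
  refine ⟨C0 + s1 + s3, by positivity, ?_⟩
  intro P L r M hr hM
  have hh' : (1 : ℝ) ≤ h := by exact_mod_cast hh
  have har : (1 : ℝ) ≤ (a : ℝ) ^ r - 1 := by
    have h1 : (a : ℝ) ≤ (a : ℝ) ^ r := by
      calc (a : ℝ) = (a : ℝ) ^ 1 := (pow_one _).symm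
        _ ≤ (a : ℝ) ^ r := pow_le_pow_right₀ ha1.le hr
    have : (2 : ℝ) ≤ a := by exact_mod_cast ha
    linarith
  have hbP : (0 : ℝ) < (b : ℝ) ^ P := by positivity
  have hclog : (b : ℝ) ^ P ≤ (a : ℝ) ^ (nA a b P) := by
    have := Nat.le_pow_clog (show 1 < a by omega) (b ^ P)
    exact_mod_cast this
  set ξ : ℝ := (h : ℝ) * ((a : ℝ) ^ r - 1) * (a : ℝ) ^ (nA a b P) / (b : ℝ) ^ P with hξ
  have hξ1 : 1 ≤ ξ := by
    rw [hξ, le_div_iff₀ hbP, one_mul]
    calc (b : ℝ) ^ P ≤ (a : ℝ) ^ (nA a b P) := hclog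
      _ = 1 * 1 * (a : ℝ) ^ (nA a b P) := by ring
      _ ≤ (h : ℝ) * ((a : ℝ) ^ r - 1) * (a : ℝ) ^ (nA a b P) := by gcongr
  have hξpos : 0 < ξ := by linarith
  set t0 : ℝ := Real.logb ((b ^ q : ℕ) : ℝ) ξ with ht0
  have ht0nn : 0 ≤ t0 := Real.logb_nonneg hB1 hξ1
  -- the terms
  have hterm : ∀ s j : ℕ, (h : ℝ) * ((a : ℝ) ^ (nA a b P + s + r) - (a : ℝ) ^ (nA a b P + s)) /
          ((b : ℝ) ^ P * ((b : ℝ) ^ q) ^ (j + 1)) =
          ((b ^ q : ℕ) : ℝ) ^ (t0 + s * ω - (j + 1 : ℕ)) := by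
    intro s j
    have hBpos : (0 : ℝ) < ((b ^ q : ℕ) : ℝ) := by linarith
    rw [Real.rpow_sub hBpos, Real.rpow_add hBpos, ht0, Real.rpow_logb hBpos hB1.ne' hξpos,
      Real.rpow_natCast, mul_comm (s : ℝ) ω, Real.rpow_mul hBpos.le, hω,
      Real.rpow_logb hBpos hB1.ne' (by linarith), Real.rpow_natCast, hξ]
    push_cast
    have h1 : (b : ℝ) ^ P ≠ 0 := hbP.ne'
    have h2 : ((b : ℝ) ^ q) ^ (j + 1) ≠ 0 := by positivity
    field_simp
    ring
  have hlast : ∀ s, s < M → t0 + s * ω < Real.logb ((b ^ q : ℕ) : ℝ) h + (L : ℝ) / q := by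
    intro s hs
    have hBpos : (0 : ℝ) < ((b ^ q : ℕ) : ℝ) := by linarith
    have hlogB : Real.logb ((b ^ q : ℕ) : ℝ) ((b : ℝ) ^ L) = (L : ℝ) / q := by
      have hq' : (q : ℝ) ≠ 0 := by
        have : q ≠ 0 := by omega
        exact_mod_cast this
      rw [Real.logb_eq_iff_rpow_eq hBpos hB1.ne' (by positivity)]
      push_cast
      rw [← Real.rpow_natCast, ← Real.rpow_mul (by linarith), mul_div_cancel₀ _ hq',
        Real.rpow_natCast]
    have h1 : t0 + s * ω = Real.logb ((b ^ q : ℕ) : ℝ) (ξ * (a : ℝ) ^ s) := by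
      rw [Real.logb_mul hξpos.ne' (by positivity), Real.logb_pow]
    rw [h1, ← hlogB, ← Real.logb_mul (by linarith) (by positivity)]
    apply Real.logb_lt_logb hB1 (by positivity)
    rw [hξ, div_mul_eq_mul_div, div_lt_iff₀ hbP]
    have h3 : (a : ℝ) ^ (nA a b P + s + r) < (b : ℝ) ^ (P + L) := by
      have hcl : 0 < nA a b (P + L) := by omega
      have h5 : a ^ (Nat.clog a (b ^ (P + L))).pred < b ^ (P + L) := by
        apply Nat.pow_pred_clog_lt_self (by omega)
        by_contra hcon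
        push Not at hcon
        have : nA a b (P + L) = 0 := Nat.clog_of_right_le_one hcon a
        omega
      have h6 : nA a b P + s + r ≤ (Nat.clog a (b ^ (P + L))).pred := by
        change nA a b P + s + r ≤ (nA a b (P + L)).pred
        rw [Nat.pred_eq_sub_one]
        omega
      have h7 : a ^ (nA a b P + s + r) < b ^ (P + L) :=
        lt_of_le_of_lt (Nat.pow_le_pow_right (by omega) h6) h5
      exact_mod_cast h7
    have h8 : ((a : ℝ) ^ r - 1) * (a : ℝ) ^ (nA a b P) * (a : ℝ) ^ s <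
        (a : ℝ) ^ (nA a b P + s + r) := by
      rw [pow_add, pow_add]
      have : 0 < (a : ℝ) ^ (nA a b P) * (a : ℝ) ^ s := by positivity
      nlinarith
    calc (h : ℝ) * ((a : ℝ) ^ r - 1) * (a : ℝ) ^ (nA a b P) * (a : ℝ) ^ s
        = (h : ℝ) * (((a : ℝ) ^ r - 1) * (a : ℝ) ^ (nA a b P) * (a : ℝ) ^ s) := by ring
      _ < (h : ℝ) * (b : ℝ) ^ (P + L) := by
          apply mul_lt_mul_of_pos_left (h8.trans h3) (by linarith)
      _ = (h : ℝ) * (b : ℝ) ^ L * (b : ℝ) ^ P := by rw [pow_add]; ring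
  -- the pointwise bound
  have hpt : ∀ s ∈ Finset.range M, ∏ j ∈ Finset.range (L / q),
        rho b ((h : ℝ) * ((a : ℝ) ^ (nA a b P + s + r) - (a : ℝ) ^ (nA a b P + s)) /
          ((b : ℝ) ^ P * ((b : ℝ) ^ q) ^ (j + 1))) ≤
        Fm b (b ^ q) m (Int.fract (t0 + s * ω)) + (if s < s1 then 1 else 0) +
          (if M ≤ s + s3 then 1 else 0) := by
    intro s hs
    have hsM := Finset.mem_range.mp hs
    have hF0 := Fm_nonneg (B := b ^ q) hb m (Int.fract_nonneg (t0 + s * ω))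
      (Int.fract_lt_one (t0 + s * ω)).le
    have hprod1 : ∏ j ∈ Finset.range (L / q),
        rho b ((h : ℝ) * ((a : ℝ) ^ (nA a b P + s + r) - (a : ℝ) ^ (nA a b P + s)) /
          ((b : ℝ) ^ P * ((b : ℝ) ^ q) ^ (j + 1))) ≤ 1 :=
      Finset.prod_le_one (fun _ _ => rho_nonneg hb _) (fun _ _ => rho_le_one _)
    by_cases c1 : s < s1
    · rw [if_pos c1]
      split_ifs <;> linarith
    by_cases c2 : M ≤ s + s3
    · rw [if_pos c2, if_neg c1]
      linarith
    rw [if_neg c1, if_neg c2, add_zero, add_zero]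
    push Not at c1 c2
    -- `t` is large and not too large
    set t : ℝ := t0 + s * ω with ht
    have hlow : (m : ℝ) + 1 ≤ t := by
      have h1 : ((m : ℝ) + 1) / ω ≤ s := (Nat.le_ceil _).trans (by rw [← hs1]; exact_mod_cast c1)
      rw [div_le_iff₀ hωpos] at h1
      linarith
    have hq' : (0 : ℝ) < q := by exact_mod_cast (by omega : 0 < q)
    have hup : t < ((L / q : ℕ) : ℝ) - 1 := by
      have h1 := hlast (s + s3) c2
      push_cast at h1
      have h2 : (Real.logb ((b ^ q : ℕ) : ℝ) h + 2) / ω ≤ s3 := Nat.le_ceil _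
      rw [div_le_iff₀ hωpos] at h2
      have h3 : (L : ℝ) / q < ((L / q : ℕ) : ℝ) + 1 := by
        rw [div_lt_iff₀ hq']
        have : L < (L / q + 1) * q := by
          have := Nat.div_add_mod L q
          have h5 := Nat.mod_lt L (show q > 0 by omega)
          nlinarith
        exact_mod_cast this
      rw [ht]
      push_cast at h2
      nlinarith
    set k : ℕ := ⌊t⌋₊ with hk
    have htnn : 0 ≤ t := by
      have : (0 : ℝ) ≤ m := Nat.cast_nonneg m
      linarith
    have hk1 : m + 1 ≤ k := by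
      apply Nat.le_floor
      push_cast
      exact hlow
    have hk2 : k + 1 < L / q := by
      have h1 : (k : ℝ) ≤ t := Nat.floor_le htnn
      have h2 : (k : ℝ) + 1 < ((L / q : ℕ) : ℝ) := by linarith
      exact_mod_cast h2
    have hfr : t - k = Int.fract t := by
      rw [Int.fract, ← natCast_floor_eq_intCast_floor htnn]
    have hx0 : ∀ j : ℕ, 0 ≤ rho b ((h : ℝ) * ((a : ℝ) ^ (nA a b P + s + r) -
        (a : ℝ) ^ (nA a b P + s)) / ((b : ℝ) ^ P * ((b : ℝ) ^ q) ^ (j + 1))) :=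
      fun j => rho_nonneg hb _
    have hx1 : ∀ j : ℕ, rho b ((h : ℝ) * ((a : ℝ) ^ (nA a b P + s + r) -
        (a : ℝ) ^ (nA a b P + s)) / ((b : ℝ) ^ P * ((b : ℝ) ^ q) ^ (j + 1))) ≤ 1 :=
      fun j => rho_le_one _
    have hA : ∏ j ∈ Finset.range (L / q),
        rho b ((h : ℝ) * ((a : ℝ) ^ (nA a b P + s + r) - (a : ℝ) ^ (nA a b P + s)) /
          ((b : ℝ) ^ P * ((b : ℝ) ^ q) ^ (j + 1))) ≤ G b (b ^ q) m (Int.fract t) := by
      refine (prod_le_prod_image (m := m) _ hx0 hx1 (fun i => k - 1 - i) ?_ ?_).trans (le_of_eq ?_)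
      · intro i hi; omega
      · intro i hi i' hi' h; omega
      · unfold G
        apply Finset.prod_congr rfl
        intro i hi
        have hi' := Finset.mem_range.mp hi
        rw [hterm]
        congr 2
        rw [← hfr]
        have : ((k - 1 - i + 1 : ℕ) : ℝ) = k - i := by
          have : k - 1 - i + 1 = k - i := by omega
          rw [this, Nat.cast_sub (by omega)]
        rw [this]
        ring
    have hB : ∏ j ∈ Finset.range (L / q),
        rho b ((h : ℝ) * ((a : ℝ) ^ (nA a b P + s + r) - (a : ℝ) ^ (nA a b P + s)) /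
          ((b : ℝ) ^ P * ((b : ℝ) ^ q) ^ (j + 1))) ≤ G b (b ^ q) m (Int.fract t - 1) := by
      refine (prod_le_prod_image (m := m) _ hx0 hx1 (fun i => k - i) ?_ ?_).trans (le_of_eq ?_)
      · intro i hi; omega
      · intro i hi i' hi' h; omega
      · unfold G
        apply Finset.prod_congr rfl
        intro i hi
        have hi' := Finset.mem_range.mp hi
        rw [hterm]
        congr 2
        rw [← hfr]
        have : ((k - i + 1 : ℕ) : ℝ) = k - i + 1 := by
          rw [Nat.cast_add, Nat.cast_sub (by omega)]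
          simp
        rw [this]
        ring
    unfold Fm
    have h0 := Int.fract_nonneg t
    have h1 := (Int.fract_lt_one t).le
    calc ∏ j ∈ Finset.range (L / q),
        rho b ((h : ℝ) * ((a : ℝ) ^ (nA a b P + s + r) - (a : ℝ) ^ (nA a b P + s)) /
          ((b : ℝ) ^ P * ((b : ℝ) ^ q) ^ (j + 1)))
        = (1 - Int.fract t) * ∏ j ∈ Finset.range (L / q),
        rho b ((h : ℝ) * ((a : ℝ) ^ (nA a b P + s + r) - (a : ℝ) ^ (nA a b P + s)) /
          ((b : ℝ) ^ P * ((b : ℝ) ^ q) ^ (j + 1))) +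
          Int.fract t * ∏ j ∈ Finset.range (L / q),
        rho b ((h : ℝ) * ((a : ℝ) ^ (nA a b P + s + r) - (a : ℝ) ^ (nA a b P + s)) /
          ((b : ℝ) ^ P * ((b : ℝ) ^ q) ^ (j + 1))) := by ring
      _ ≤ (1 - Int.fract t) * G b (b ^ q) m (Int.fract t) +
          Int.fract t * G b (b ^ q) m (Int.fract t - 1) := by
          have : 0 ≤ 1 - Int.fract t := by linarith
          gcongr
  refine (Finset.sum_le_sum hpt).trans ?_
  rw [Finset.sum_add_distrib, Finset.sum_add_distrib]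
  have h1 := hC0 t0 M
  have h2 : ∑ s ∈ Finset.range M, (if s < s1 then (1 : ℝ) else 0) ≤ s1 := by
    rw [← Finset.sum_filter, Finset.sum_const, nsmul_eq_mul, mul_one]
    have : ((Finset.range M).filter (fun s => s < s1)).card ≤ s1 := by
      calc ((Finset.range M).filter (fun s => s < s1)).card ≤ (Finset.range s1).card := by
            apply Finset.card_le_card
            intro s hs
            exact Finset.mem_range.mpr (Finset.mem_filter.mp hs).2
        _ = s1 := Finset.card_range _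
    exact_mod_cast this
  have h3 : ∑ s ∈ Finset.range M, (if M ≤ s + s3 then (1 : ℝ) else 0) ≤ s3 := by
    rw [← Finset.sum_filter, Finset.sum_const, nsmul_eq_mul, mul_one]
    have : ((Finset.range M).filter (fun s => M ≤ s + s3)).card ≤ s3 := by
      calc ((Finset.range M).filter (fun s => M ≤ s + s3)).card ≤
            (Finset.Ico (M - s3) M).card := by
            apply Finset.card_le_card
            intro s hs
            have h4 := Finset.mem_filter.mp hs
            have h5 := Finset.mem_range.mp h4.1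
            exact Finset.mem_Ico.mpr ⟨by omega, h5⟩
        _ = M - (M - s3) := Nat.card_Ico _ _
        _ ≤ s3 := by omega
    exact_mod_cast this
  linarith

end Pool.Agent.Lib_helper50.NN
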