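import Mathlib
import Pool.Agent.Lib_helper50.NN.LemmaS

/-!
# Second moments of exponential sums over digit choices
-/

set_option autoImplicit false

open Filter Topology

namespace Pool.Agent.Lib_helper50.NN

/-- digit choices -/
def Dg (J c : ℕ) : Finset (Fin J → ℕ) := Fintype.piFinset (fun _ => Finset.range c)

lemma card_Dg (J c : ℕ) : (Dg J c).card = c ^ J := by
  simp [Dg]

lemma sum_e_prod (J c : ℕ) (w : Fin J → ℝ) :
    ∑ d ∈ Dg J c, e (∑ j, (d j : ℝ) * w j) = ∏ j, ∑ v ∈ Finset.range c, e ((v : ℝ) * w j) := by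
  rw [Finset.prod_univ_sum]
  apply Finset.sum_congr rfl
  intro d _
  have : ∀ s : Finset (Fin J), e (∑ j ∈ s, (d j : ℝ) * w j) = ∏ j ∈ s, e ((d j : ℝ) * w j) := by
    classical
    intro s
    induction s using Finset.induction_on with
    | empty => simp [e_zero]
    | insert a s ha ih => rw [Finset.sum_insert ha, Finset.prod_insert ha, e_add, ih]
  exact this Finset.univ

lemma norm_one_add_e (y : ℝ) : ‖1 + e y‖ = 2 * |Real.cos (Real.pi * y)| := by
  have h1 : 1 + e y = e (y / 2) * (2 * (Real.cos (Real.pi * y) : ℂ)) := by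
    have h2 : (2 : ℂ) * (Real.cos (Real.pi * y) : ℂ) = e (y / 2) + e (-(y / 2)) := by
      rw [Complex.ofReal_cos, Complex.cos, e, e]
      push_cast
      rw [mul_div_cancel₀ _ two_ne_zero]
      congr 2
      · ring
      · ring
    rw [h2, mul_add, ← e_add, ← e_add]
    have h3 : y / 2 + y / 2 = y := by ring
    have h4 : y / 2 + -(y / 2) = 0 := by ring
    rw [h3, h4, e_zero, add_comm]
  rw [h1, norm_mul, norm_e, one_mul, norm_mul, Complex.norm_real, Real.norm_eq_abs]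
  norm_num

lemma norm_digit_sum_le {b c : ℕ} (hc : 2 ≤ c) (hcb : c ≤ b) (y : ℝ) :
    ‖∑ v ∈ Finset.range c, e ((v : ℝ) * y)‖ ≤ c * rho b y := by
  obtain ⟨c', rfl⟩ := Nat.exists_eq_add_of_le' hc
  have h1 : ∑ v ∈ Finset.range (c' + 2), e ((v : ℝ) * y) =
      ∑ v ∈ Finset.range c', e (((v + 2 : ℕ) : ℝ) * y) + (1 + e y) := by
    rw [Finset.sum_range_succ', Finset.sum_range_succ']
    simp only [Nat.cast_zero, zero_mul, zero_add, Nat.cast_one, one_mul, e_zero]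
    rw [add_assoc, add_comm (e y) 1]
  rw [h1]
  have h2 : ‖∑ v ∈ Finset.range c', e (((v + 2 : ℕ) : ℝ) * y)‖ ≤ c' := by
    refine (norm_sum_le _ _).trans ?_
    simp [norm_e]
  refine (norm_add_le _ _).trans ?_
  rw [norm_one_add_e]
  unfold rho
  have hcr : (2 : ℝ) ≤ ((c' + 2 : ℕ) : ℝ) := by exact_mod_cast hc
  have hbr : ((c' + 2 : ℕ) : ℝ) ≤ b := by exact_mod_cast hcb
  have hb0 : (0 : ℝ) < b := by linarith
  have h3 := Real.abs_cos_le_one (Real.pi * y)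
  have h4 : ((c' + 2 : ℕ) : ℝ) * (2 / b * (1 - |Real.cos (Real.pi * y)|)) ≤
      2 * (1 - |Real.cos (Real.pi * y)|) := by
    have h5 : ((c' + 2 : ℕ) : ℝ) * (2 / b) ≤ 2 := by
      rw [← mul_div_assoc, div_le_iff₀ hb0]
      nlinarith
    calc ((c' + 2 : ℕ) : ℝ) * (2 / b * (1 - |Real.cos (Real.pi * y)|))
        = ((c' + 2 : ℕ) : ℝ) * (2 / b) * (1 - |Real.cos (Real.pi * y)|) := by ring
      _ ≤ 2 * (1 - |Real.cos (Real.pi * y)|) := by
          apply mul_le_mul_of_nonneg_right h5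
          linarith
  push_cast at h2 h4 ⊢
  linarith

/-- the point with digits `d` appended at the positions `P + q (j+1)` -/
noncomputable def xd (b q P : ℕ) (Y : ℝ) {J : ℕ} (d : Fin J → ℕ) : ℝ :=
  Y + ∑ j : Fin J, (d j : ℝ) / ((b : ℝ) ^ P * ((b : ℝ) ^ q) ^ ((j : ℕ) + 1))

lemma norm_sum_e_xd_le {b c q : ℕ} (hc : 2 ≤ c) (hcb : c ≤ b) (P J : ℕ) (Y θ : ℝ) :
    ‖∑ d ∈ Dg J c, e (θ * xd b q P Y d)‖ ≤ (c : ℝ) ^ J * ∏ j ∈ Finset.range J,
      rho b (θ / ((b : ℝ) ^ P * ((b : ℝ) ^ q) ^ (j + 1))) := by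
  have h1 : ∀ d ∈ Dg J c, e (θ * xd b q P Y d) =
      e (θ * Y) * e (∑ j, (d j : ℝ) * (θ / ((b : ℝ) ^ P * ((b : ℝ) ^ q) ^ ((j : ℕ) + 1)))) := by
    intro d _
    rw [← e_add]
    congr 1
    unfold xd
    rw [mul_add, Finset.mul_sum]
    congr 1
    apply Finset.sum_congr rfl
    intro j _
    ring
  rw [Finset.sum_congr rfl h1, ← Finset.mul_sum, norm_mul, norm_e, one_mul, sum_e_prod, norm_prod]
  calc ∏ j : Fin J, ‖∑ v ∈ Finset.range c, e ((v : ℝ) *
          (θ / ((b : ℝ) ^ P * ((b : ℝ) ^ q) ^ ((j : ℕ) + 1))))‖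
      ≤ ∏ j : Fin J, ((c : ℝ) * rho b (θ / ((b : ℝ) ^ P * ((b : ℝ) ^ q) ^ ((j : ℕ) + 1)))) := by
        apply Finset.prod_le_prod
        · intro j _; exact norm_nonneg _
        · intro j _; exact norm_digit_sum_le hc hcb _
    _ = (c : ℝ) ^ J * ∏ j ∈ Finset.range J,
      rho b (θ / ((b : ℝ) ^ P * ((b : ℝ) ^ q) ^ (j + 1))) := by
        rw [Finset.prod_mul_distrib, Finset.prod_const, Finset.card_univ, Fintype.card_fin,
          ← Finset.prod_range (fun j => rho b (θ / ((b : ℝ) ^ P * ((b : ℝ) ^ q) ^ (j + 1))))]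

/-- expansion of the second moment -/
lemma second_moment_le {ι : Type*} (D : Finset ι) (N : ℕ) (u : ι → ℕ → ℂ) :
    ∑ d ∈ D, ‖∑ s ∈ Finset.range N, u d s‖ ^ 2 ≤
      ∑ s ∈ Finset.range N, ∑ s' ∈ Finset.range N,
        ‖∑ d ∈ D, u d s * (starRingEnd ℂ) (u d s')‖ := by
  have h1 : ∀ d ∈ D, ((‖∑ s ∈ Finset.range N, u d s‖ ^ 2 : ℝ) : ℂ) =
      ∑ s ∈ Finset.range N, ∑ s' ∈ Finset.range N, u d s * (starRingEnd ℂ) (u d s') := by
    intro d _
    rw [← Complex.normSq_eq_norm_sq, ← Complex.mul_conj, map_sum, Finset.sum_mul_sum]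
  have h2 : ((∑ d ∈ D, ‖∑ s ∈ Finset.range N, u d s‖ ^ 2 : ℝ) : ℂ) =
      ∑ s ∈ Finset.range N, ∑ s' ∈ Finset.range N,
        ∑ d ∈ D, u d s * (starRingEnd ℂ) (u d s') := by
    rw [Complex.ofReal_sum, Finset.sum_congr rfl h1, Finset.sum_comm]
    apply Finset.sum_congr rfl
    intro s _
    rw [Finset.sum_comm]
  have h3 : (∑ d ∈ D, ‖∑ s ∈ Finset.range N, u d s‖ ^ 2) =
      ‖((∑ d ∈ D, ‖∑ s ∈ Finset.range N, u d s‖ ^ 2 : ℝ) : ℂ)‖ := by
    rw [Complex.norm_real, Real.norm_eq_abs, abs_of_nonneg]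
    exact Finset.sum_nonneg fun _ _ => by positivity
  rw [h3, h2]
  refine (norm_sum_le _ _).trans (Finset.sum_le_sum fun s _ => norm_sum_le _ _)

/-- split of a symmetric double sum -/
lemma double_sum_le (N : ℕ) (T : ℕ → ℕ → ℝ)
    (hsymm : ∀ s s', T s s' = T s' s) :
    ∑ s ∈ Finset.range N, ∑ s' ∈ Finset.range N, T s s' ≤
      ∑ s ∈ Finset.range N, T s s +
        2 * ∑ r ∈ Finset.Ico 1 N, ∑ s ∈ Finset.range (N - r), T (s + r) s := by
  have hlt : ∑ s ∈ Finset.range N, ∑ s' ∈ Finset.range N, (if s' < s then T s s' else 0) ≤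
      ∑ r ∈ Finset.Ico 1 N, ∑ s ∈ Finset.range (N - r), T (s + r) s := by
    rw [← Finset.sum_product', Finset.sum_sigma' (Finset.Ico 1 N)
      (fun r => Finset.range (N - r)) (fun r s => T (s + r) s), ← Finset.sum_filter]
    apply le_of_eq
    apply Finset.sum_nbij' (i := fun p => (⟨p.1 - p.2, p.2⟩ : (_ : ℕ) × ℕ))
      (j := fun p => ((p.2 + p.1, p.2) : ℕ × ℕ))
    · rintro ⟨s, s'⟩ hp
      simp only [Finset.mem_filter, Finset.mem_product, Finset.mem_range] at hp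
      simp only [Finset.mem_sigma, Finset.mem_Ico, Finset.mem_range]
      omega
    · rintro ⟨r, s⟩ hp
      simp only [Finset.mem_sigma, Finset.mem_Ico, Finset.mem_range] at hp
      simp only [Finset.mem_filter, Finset.mem_product, Finset.mem_range]
      omega
    · rintro ⟨s, s'⟩ hp
      simp only [Finset.mem_filter, Finset.mem_product, Finset.mem_range] at hp
      simp only [Prod.mk.injEq, and_true]
      omega
    · rintro ⟨r, s⟩ hp
      simp
    · rintro ⟨s, s'⟩ hp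
      simp only [Finset.mem_filter, Finset.mem_product, Finset.mem_range] at hp
      have : s' + (s - s') = s := by omega
      simp only [this]
  have hgt : ∑ s ∈ Finset.range N, ∑ s' ∈ Finset.range N, (if s < s' then T s s' else 0) =
      ∑ s ∈ Finset.range N, ∑ s' ∈ Finset.range N, (if s' < s then T s s' else 0) := by
    rw [Finset.sum_comm]
    apply Finset.sum_congr rfl
    intro s _
    apply Finset.sum_congr rfl
    intro s' _
    rw [hsymm]
  have hsplit : ∑ s ∈ Finset.range N, ∑ s' ∈ Finset.range N, T s s' =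
      ∑ s ∈ Finset.range N, T s s +
      ∑ s ∈ Finset.range N, ∑ s' ∈ Finset.range N, (if s' < s then T s s' else 0) +
      ∑ s ∈ Finset.range N, ∑ s' ∈ Finset.range N, (if s < s' then T s s' else 0) := by
    rw [← Finset.sum_add_distrib, ← Finset.sum_add_distrib]
    apply Finset.sum_congr rfl
    intro s hs
    have h1 : T s s = ∑ s' ∈ Finset.range N, (if s = s' then T s s' else 0) := by
      rw [Finset.sum_ite_eq, if_pos hs]
    rw [h1, ← Finset.sum_add_distrib, ← Finset.sum_add_distrib]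
    apply Finset.sum_congr rfl
    intro s' _
    rcases lt_trichotomy s s' with h | h | h
    · rw [if_neg (by omega), if_neg (by omega), if_pos h]; ring
    · rw [if_pos h, if_neg (by omega), if_neg (by omega)]; ring
    · rw [if_neg (by omega), if_pos h, if_neg (by omega)]; ring
  rw [hsplit, hgt]
  linarith

lemma nA_mono {a b : ℕ} (hb : 2 ≤ b) {P Q : ℕ} (h : P ≤ Q) :
    nA a b P ≤ nA a b Q :=
  Nat.clog_mono_right a (Nat.pow_le_pow_right (by omega) h)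

lemma pow_nA_le {a b : ℕ} (ha : 2 ≤ a) (hb : 2 ≤ b) (P : ℕ) : a ^ (nA a b P) ≤ a * b ^ P := by
  by_cases h : nA a b P = 0
  · rw [h, pow_zero]
    have : 1 ≤ b ^ P := Nat.one_le_pow _ _ (by omega)
    nlinarith
  · have h1 : a ^ (Nat.clog a (b ^ P)).pred < b ^ P := by
      apply Nat.pow_pred_clog_lt_self (by omega)
      by_contra hcon
      push Not at hcon
      exact h (Nat.clog_of_right_le_one hcon a)
    have h2 : nA a b P = (Nat.clog a (b ^ P)).pred + 1 := by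
      change Nat.clog a (b ^ P) = _
      change ¬ Nat.clog a (b ^ P) = 0 at h
      rw [Nat.pred_eq_sub_one]
      omega
    rw [h2, pow_succ, mul_comm]
    exact Nat.mul_le_mul_left _ h1.le

lemma le_pow_nA {a b : ℕ} (ha : 2 ≤ a) (P : ℕ) : b ^ P ≤ a ^ (nA a b P) :=
  Nat.le_pow_clog (by omega) _

/-- window length, upper bound -/
lemma nA_window_le {a b : ℕ} (ha : 2 ≤ a) (hb : 2 ≤ b) (P L : ℕ) :
    nA a b (P + L) - nA a b P ≤ 1 + b * L := by
  have h1 : a ^ (nA a b (P + L)) ≤ a * b ^ (P + L) := pow_nA_le ha hb _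
  have h2 : b ^ P ≤ a ^ (nA a b P) := le_pow_nA ha _
  have h3 : nA a b P ≤ nA a b (P + L) := nA_mono hb (by omega)
  have h4 : b ≤ a ^ b := by
    calc b ≤ 2 ^ b := Nat.lt_two_pow_self.le
      _ ≤ a ^ b := Nat.pow_le_pow_left ha _
  have h5 : a ^ (nA a b P) * a ^ (nA a b (P + L) - nA a b P) ≤ a ^ (nA a b P) * a ^ (1 + b * L) := by
    rw [← pow_add, Nat.add_sub_cancel' h3]
    calc a ^ (nA a b (P + L)) ≤ a * b ^ (P + L) := h1
      _ = a * b ^ L * b ^ P := by rw [pow_add]; ring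
      _ ≤ a * (a ^ b) ^ L * a ^ (nA a b P) := by gcongr
      _ = a ^ (nA a b P) * a ^ (1 + b * L) := by rw [pow_add, pow_one, pow_mul]; ring
  have h6 : a ^ (nA a b (P + L) - nA a b P) ≤ a ^ (1 + b * L) :=
    Nat.le_of_mul_le_mul_left h5 (by positivity)
  exact (Nat.pow_le_pow_iff_right (by omega)).mp h6

/-- window length, lower bound -/
lemma nA_window_ge {a b : ℕ} (ha : 2 ≤ a) (hb : 2 ≤ b) (P L : ℕ) :
    L ≤ a * (nA a b (P + L) - nA a b P + 1) := by
  have h1 : a ^ (nA a b P) ≤ a * b ^ P := pow_nA_le ha hb _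
  have h2 : b ^ (P + L) ≤ a ^ (nA a b (P + L)) := le_pow_nA ha _
  have h3 : nA a b P ≤ nA a b (P + L) := nA_mono hb (by omega)
  have h4 : a ≤ b ^ a := by
    calc a ≤ 2 ^ a := Nat.lt_two_pow_self.le
      _ ≤ b ^ a := Nat.pow_le_pow_left hb _
  have h5 : b ^ P * b ^ L ≤ b ^ P * b ^ (a * (nA a b (P + L) - nA a b P + 1)) := by
    calc b ^ P * b ^ L = b ^ (P + L) := by rw [pow_add]
      _ ≤ a ^ (nA a b (P + L)) := h2
      _ = a ^ (nA a b P) * a ^ (nA a b (P + L) - nA a b P) := by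
          rw [← pow_add, Nat.add_sub_cancel' h3]
      _ ≤ a * b ^ P * a ^ (nA a b (P + L) - nA a b P) := by gcongr
      _ = b ^ P * a ^ (nA a b (P + L) - nA a b P + 1) := by rw [pow_succ]; ring
      _ ≤ b ^ P * (b ^ a) ^ (nA a b (P + L) - nA a b P + 1) := by gcongr
      _ = b ^ P * b ^ (a * (nA a b (P + L) - nA a b P + 1)) := by rw [pow_mul]
  have h6 : b ^ L ≤ b ^ (a * (nA a b (P + L) - nA a b P + 1)) :=
    Nat.le_of_mul_le_mul_left h5 (by positivity)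
  exact (Nat.pow_le_pow_iff_right (by omega)).mp h6

/-- **Second moment bound, base `a`.** -/
theorem moment_a {a b c q h : ℕ} (ha : 2 ≤ a) (hb : 2 ≤ b) (hc : 2 ≤ c) (hcb : c ≤ b)
    (hq : 1 ≤ q) (hh : 1 ≤ h) (hab : MulIndep a b) {δ : ℝ} (hδ : 0 < δ) :
    ∃ L0 : ℕ, ∀ L ≥ L0, ∀ (P : ℕ) (Y : ℝ),
      ∑ d ∈ Dg (L / q) c, ‖∑ n ∈ Finset.Ico (nA a b P) (nA a b (P + L)),
        e ((h : ℝ) * (a : ℝ) ^ n * xd b q P Y d)‖ ^ 2 ≤ (c : ℝ) ^ (L / q) * (δ * (L : ℝ) ^ 2) := by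
  set κ : ℝ := 1 + b with hκ
  have hκpos : 0 < κ := by positivity
  obtain ⟨C, hC0, hC⟩ := lemma_S ha hb hq hh hab (δ := δ / (4 * κ ^ 2)) (by positivity)
  obtain ⟨L1, hL1⟩ := exists_nat_ge (κ * (1 + 2 * C) / (δ / 2))
  refine ⟨max 1 L1, fun L hL P Y => ?_⟩
  have hL1' : 1 ≤ L := le_trans (le_max_left _ _) hL
  have hL2 : κ * (1 + 2 * C) ≤ δ / 2 * L := by
    have h1 : κ * (1 + 2 * C) / (δ / 2) ≤ L :=
      hL1.trans (by exact_mod_cast le_trans (le_max_right _ _) hL)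
    rw [div_le_iff₀ (by positivity)] at h1
    linarith
  set N : ℕ := nA a b (P + L) - nA a b P with hN
  have hmono : nA a b P ≤ nA a b (P + L) := nA_mono hb (by omega)
  have hNle : (N : ℝ) ≤ κ * L := by
    have h1 : N ≤ 1 + b * L := nA_window_le ha hb P L
    have h2 : (N : ℝ) ≤ 1 + b * L := by exact_mod_cast h1
    have h3 : (1 : ℝ) ≤ L := by exact_mod_cast hL1'
    rw [hκ]
    nlinarith
  set T : ℕ → ℕ → ℝ := fun s s' => ‖∑ d ∈ Dg (L / q) c,
    e ((h : ℝ) * (a : ℝ) ^ (nA a b P + s) * xd b q P Y d) *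
      (starRingEnd ℂ) (e ((h : ℝ) * (a : ℝ) ^ (nA a b P + s') * xd b q P Y d))‖ with hT
  have hstep1 : ∑ d ∈ Dg (L / q) c, ‖∑ n ∈ Finset.Ico (nA a b P) (nA a b (P + L)),
        e ((h : ℝ) * (a : ℝ) ^ n * xd b q P Y d)‖ ^ 2 ≤
        ∑ s ∈ Finset.range N, ∑ s' ∈ Finset.range N, T s s' := by
    have : ∀ d ∈ Dg (L / q) c, ‖∑ n ∈ Finset.Ico (nA a b P) (nA a b (P + L)),
        e ((h : ℝ) * (a : ℝ) ^ n * xd b q P Y d)‖ ^ 2 = ‖∑ s ∈ Finset.range N,
        e ((h : ℝ) * (a : ℝ) ^ (nA a b P + s) * xd b q P Y d)‖ ^ 2 := by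
      intro d _
      rw [Finset.sum_Ico_eq_sum_range]
    rw [Finset.sum_congr rfl this]
    exact second_moment_le _ _ _
  have hTsymm : ∀ s s', T s s' = T s' s := by
    intro s s'
    simp only [hT]
    rw [← Complex.norm_conj (∑ d ∈ Dg (L / q) c,
      e ((h : ℝ) * (a : ℝ) ^ (nA a b P + s) * xd b q P Y d) *
      (starRingEnd ℂ) (e ((h : ℝ) * (a : ℝ) ^ (nA a b P + s') * xd b q P Y d))), map_sum]
    congr 1
    apply Finset.sum_congr rfl
    intro d _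
    rw [map_mul, Complex.conj_conj, mul_comm]
  have hTdiag : ∀ s, T s s = (c : ℝ) ^ (L / q) := by
    intro s
    simp only [hT]
    have : ∀ d ∈ Dg (L / q) c, e ((h : ℝ) * (a : ℝ) ^ (nA a b P + s) * xd b q P Y d) *
      (starRingEnd ℂ) (e ((h : ℝ) * (a : ℝ) ^ (nA a b P + s) * xd b q P Y d)) = 1 := by
      intro d _
      rw [← e_sub, sub_self, e_zero]
    rw [Finset.sum_congr rfl this, Finset.sum_const, card_Dg]
    simp
  have hToff : ∀ s r : ℕ, T (s + r) s ≤ (c : ℝ) ^ (L / q) * ∏ j ∈ Finset.range (L / q),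
        rho b ((h : ℝ) * ((a : ℝ) ^ (nA a b P + s + r) - (a : ℝ) ^ (nA a b P + s)) /
          ((b : ℝ) ^ P * ((b : ℝ) ^ q) ^ (j + 1))) := by
    intro s r
    simp only [hT]
    have : ∀ d ∈ Dg (L / q) c, e ((h : ℝ) * (a : ℝ) ^ (nA a b P + (s + r)) * xd b q P Y d) *
      (starRingEnd ℂ) (e ((h : ℝ) * (a : ℝ) ^ (nA a b P + s) * xd b q P Y d)) =
      e (((h : ℝ) * ((a : ℝ) ^ (nA a b P + s + r) - (a : ℝ) ^ (nA a b P + s))) *
        xd b q P Y d) := by
      intro d _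
      rw [← e_sub, ← add_assoc]
      congr 1
      ring
    rw [Finset.sum_congr rfl this]
    exact norm_sum_e_xd_le hc hcb P (L / q) Y _
  have hcpos : (0 : ℝ) < (c : ℝ) ^ (L / q) := by
    have : (0 : ℝ) < c := by exact_mod_cast (by omega : 0 < c)
    positivity
  have hN0 : (0 : ℝ) ≤ N := Nat.cast_nonneg _
  have hrow : ∀ r ∈ Finset.Ico 1 N, ∑ s ∈ Finset.range (N - r), T (s + r) s ≤
      (c : ℝ) ^ (L / q) * (δ / (4 * κ ^ 2) * N + C) := by
    intro r hr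
    obtain ⟨hr1, hr2⟩ := Finset.mem_Ico.mp hr
    calc ∑ s ∈ Finset.range (N - r), T (s + r) s
        ≤ ∑ s ∈ Finset.range (N - r), (c : ℝ) ^ (L / q) * ∏ j ∈ Finset.range (L / q),
        rho b ((h : ℝ) * ((a : ℝ) ^ (nA a b P + s + r) - (a : ℝ) ^ (nA a b P + s)) /
          ((b : ℝ) ^ P * ((b : ℝ) ^ q) ^ (j + 1))) := Finset.sum_le_sum fun s _ => hToff s r
      _ = (c : ℝ) ^ (L / q) * ∑ s ∈ Finset.range (N - r), ∏ j ∈ Finset.range (L / q),
        rho b ((h : ℝ) * ((a : ℝ) ^ (nA a b P + s + r) - (a : ℝ) ^ (nA a b P + s)) /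
          ((b : ℝ) ^ P * ((b : ℝ) ^ q) ^ (j + 1))) := by rw [Finset.mul_sum]
      _ ≤ (c : ℝ) ^ (L / q) * (δ / (4 * κ ^ 2) * ((N - r : ℕ) : ℝ) + C) := by
          apply mul_le_mul_of_nonneg_left _ hcpos.le
          exact hC P L r (N - r) hr1 (by omega)
      _ ≤ (c : ℝ) ^ (L / q) * (δ / (4 * κ ^ 2) * N + C) := by
          apply mul_le_mul_of_nonneg_left _ hcpos.le
          have : ((N - r : ℕ) : ℝ) ≤ N := by exact_mod_cast Nat.sub_le N r
          have h2 : 0 ≤ δ / (4 * κ ^ 2) := by positivity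
          nlinarith
  calc ∑ d ∈ Dg (L / q) c, ‖∑ n ∈ Finset.Ico (nA a b P) (nA a b (P + L)),
        e ((h : ℝ) * (a : ℝ) ^ n * xd b q P Y d)‖ ^ 2
      ≤ ∑ s ∈ Finset.range N, ∑ s' ∈ Finset.range N, T s s' := hstep1
    _ ≤ ∑ s ∈ Finset.range N, T s s +
        2 * ∑ r ∈ Finset.Ico 1 N, ∑ s ∈ Finset.range (N - r), T (s + r) s :=
        double_sum_le N T hTsymm
    _ ≤ (N : ℝ) * (c : ℝ) ^ (L / q) +
        2 * (N * ((c : ℝ) ^ (L / q) * (δ / (4 * κ ^ 2) * N + C))) := by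
        gcongr
        · rw [Finset.sum_congr rfl (fun s _ => hTdiag s)]
          simp
        · calc ∑ r ∈ Finset.Ico 1 N, ∑ s ∈ Finset.range (N - r), T (s + r) s
              ≤ ∑ r ∈ Finset.Ico 1 N, (c : ℝ) ^ (L / q) * (δ / (4 * κ ^ 2) * N + C) :=
                Finset.sum_le_sum hrow
            _ = ((N - 1 : ℕ) : ℝ) * ((c : ℝ) ^ (L / q) * (δ / (4 * κ ^ 2) * N + C)) := by
                rw [Finset.sum_const, Nat.card_Ico, nsmul_eq_mul]
            _ ≤ N * ((c : ℝ) ^ (L / q) * (δ / (4 * κ ^ 2) * N + C)) := by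
                apply mul_le_mul_of_nonneg_right
                · exact_mod_cast Nat.sub_le N 1
                · positivity
    _ = (c : ℝ) ^ (L / q) * (N * (1 + 2 * C) + δ / (2 * κ ^ 2) * N ^ 2) := by
        field_simp
        ring
    _ ≤ (c : ℝ) ^ (L / q) * (δ * (L : ℝ) ^ 2) := by
        apply mul_le_mul_of_nonneg_left _ hcpos.le
        have hLr : (0 : ℝ) ≤ L := Nat.cast_nonneg _
        have e1 : (N : ℝ) * (1 + 2 * C) ≤ δ / 2 * (L : ℝ) ^ 2 := by
          calc (N : ℝ) * (1 + 2 * C) ≤ κ * L * (1 + 2 * C) := by gcongr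
            _ = (κ * (1 + 2 * C)) * L := by ring
            _ ≤ (δ / 2 * L) * L := by gcongr
            _ = δ / 2 * (L : ℝ) ^ 2 := by ring
        have e2 : δ / (2 * κ ^ 2) * (N : ℝ) ^ 2 ≤ δ / 2 * (L : ℝ) ^ 2 := by
          calc δ / (2 * κ ^ 2) * (N : ℝ) ^ 2 ≤ δ / (2 * κ ^ 2) * (κ * L) ^ 2 := by gcongr
            _ = δ / 2 * (L : ℝ) ^ 2 := by field_simp
        linarith

/-- **Second moment bound, base `b`.** -/
theorem moment_b {b h : ℕ} (hb : 2 ≤ b) (hh : ¬ b ∣ h) (L P : ℕ) (Y : ℝ) :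
      ∑ d ∈ Dg L b, ‖∑ n ∈ Finset.Ico P (P + L),
        e ((h : ℝ) * (b : ℝ) ^ n * xd b 1 P Y d)‖ ^ 2 ≤ (b : ℝ) ^ L * L := by
  have hbr : (0 : ℝ) < b := by exact_mod_cast (by omega : 0 < b)
  have hstep1 : ∑ d ∈ Dg L b, ‖∑ n ∈ Finset.Ico P (P + L),
        e ((h : ℝ) * (b : ℝ) ^ n * xd b 1 P Y d)‖ ^ 2 ≤
      ∑ s ∈ Finset.range L, ∑ s' ∈ Finset.range L, ‖∑ d ∈ Dg L b,
        e ((h : ℝ) * (b : ℝ) ^ (P + s) * xd b 1 P Y d) *
        (starRingEnd ℂ) (e ((h : ℝ) * (b : ℝ) ^ (P + s') * xd b 1 P Y d))‖ := by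
    have : ∀ d ∈ Dg L b, ‖∑ n ∈ Finset.Ico P (P + L),
        e ((h : ℝ) * (b : ℝ) ^ n * xd b 1 P Y d)‖ ^ 2 = ‖∑ s ∈ Finset.range L,
        e ((h : ℝ) * (b : ℝ) ^ (P + s) * xd b 1 P Y d)‖ ^ 2 := by
      intro d _
      rw [Finset.sum_Ico_eq_sum_range]
      simp
    rw [Finset.sum_congr rfl this]
    exact second_moment_le _ _ _
  have hzero : ∀ s s' : ℕ, s' < s → s < L → ∑ d ∈ Dg L b,
        e ((h : ℝ) * ((b : ℝ) ^ (P + s) - (b : ℝ) ^ (P + s')) * xd b 1 P Y d) = 0 := by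
    intro s s' hs' hs
    set θ : ℝ := (h : ℝ) * ((b : ℝ) ^ (P + s) - (b : ℝ) ^ (P + s')) with hθ
    have h1 : ∀ d ∈ Dg L b, e (θ * xd b 1 P Y d) =
        e (θ * Y) * e (∑ j, (d j : ℝ) * (θ / ((b : ℝ) ^ P * ((b : ℝ) ^ 1) ^ ((j : ℕ) + 1)))) := by
      intro d _
      rw [← e_add]
      congr 1
      unfold xd
      rw [mul_add, Finset.mul_sum]
      congr 1
      apply Finset.sum_congr rfl
      intro j _
      ring
    rw [Finset.sum_congr rfl h1, ← Finset.mul_sum, sum_e_prod]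
    apply mul_eq_zero_of_right
    apply Finset.prod_eq_zero (i := (⟨s', by omega⟩ : Fin L)) (Finset.mem_univ _)
    -- the factor at `j = s'`
    have h2 : θ / ((b : ℝ) ^ P * ((b : ℝ) ^ 1) ^ (s' + 1)) =
        ((h * b ^ (s - s' - 1) : ℕ) : ℝ) - (h : ℝ) / b := by
      obtain ⟨r, rfl⟩ : ∃ r, s = s' + 1 + r := ⟨s - s' - 1, by omega⟩
      have : s' + 1 + r - s' - 1 = r := by omega
      rw [this, hθ]
      push_cast
      rw [show P + (s' + 1 + r) = P + s' + 1 + r by ring, pow_add _ _ r, pow_add _ _ 1,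
        pow_add _ _ s', pow_add _ s' 1]
      field_simp
    have h3 : ∀ v ∈ Finset.range b, e ((v : ℝ) * (θ / ((b : ℝ) ^ P * ((b : ℝ) ^ 1) ^ (s' + 1)))) =
        (e (-((h : ℝ) / b))) ^ v := by
      intro v _
      rw [h2, ← e_mul_nat]
      have : (v : ℝ) * (((h * b ^ (s - s' - 1) : ℕ) : ℝ) - (h : ℝ) / b) =
          (v : ℝ) * (-((h : ℝ) / b)) + ((v * (h * b ^ (s - s' - 1)) : ℕ) : ℤ) := by
        push_cast; ring
      rw [this, e_add_int]
    have hw : e (-((h : ℝ) / b)) ≠ 1 := by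
      rw [Ne, e_eq_one_iff]
      rintro ⟨n, hn⟩
      have h4 : (h : ℝ) = -n * b := by
        field_simp at hn
        linarith
      have h5 : (h : ℤ) = -n * b := by exact_mod_cast h4
      apply hh
      rw [← Int.natCast_dvd_natCast]
      exact ⟨-n, by rw [h5]; ring⟩
    rw [Finset.sum_congr rfl h3, geom_sum_eq hw, ← e_mul_nat]
    have : (b : ℝ) * (-((h : ℝ) / b)) = ((-(h : ℤ) : ℤ) : ℝ) := by
      push_cast; field_simp
    rw [this, e_int]
    simp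
  refine hstep1.trans ?_
  have hT : ∀ s ∈ Finset.range L, ∀ s' ∈ Finset.range L, ‖∑ d ∈ Dg L b,
        e ((h : ℝ) * (b : ℝ) ^ (P + s) * xd b 1 P Y d) *
        (starRingEnd ℂ) (e ((h : ℝ) * (b : ℝ) ^ (P + s') * xd b 1 P Y d))‖ =
        if s = s' then (b : ℝ) ^ L else 0 := by
    intro s hs s' hs'
    have hs := Finset.mem_range.mp hs
    have hs' := Finset.mem_range.mp hs'
    rcases lt_trichotomy s s' with h1 | h1 | h1
    · rw [if_neg (by omega), ← Complex.norm_conj, map_sum, norm_eq_zero,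
        ← hzero s' s h1 hs']
      apply Finset.sum_congr rfl
      intro d _
      rw [map_mul, Complex.conj_conj, mul_comm, ← e_sub]
      congr 1
      ring
    · subst h1
      rw [if_pos rfl]
      have : ∀ d ∈ Dg L b, e ((h : ℝ) * (b : ℝ) ^ (P + s) * xd b 1 P Y d) *
        (starRingEnd ℂ) (e ((h : ℝ) * (b : ℝ) ^ (P + s) * xd b 1 P Y d)) = 1 := by
        intro d _
        rw [← e_sub, sub_self, e_zero]
      rw [Finset.sum_congr rfl this, Finset.sum_const, card_Dg]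
      simp
    · rw [if_neg (by omega), norm_eq_zero, ← hzero s s' h1 hs]
      apply Finset.sum_congr rfl
      intro d _
      rw [← e_sub]
      congr 1
      ring
  rw [Finset.sum_congr rfl (fun s hs => Finset.sum_congr rfl (fun s' hs' => hT s hs s' hs'))]
  apply le_of_eq
  have : ∀ s ∈ Finset.range L, ∑ s' ∈ Finset.range L, (if s = s' then (b : ℝ) ^ L else 0) =
      (b : ℝ) ^ L := by
    intro s hs
    rw [Finset.sum_ite_eq, if_pos hs]
  rw [Finset.sum_congr rfl this]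
  simp [mul_comm]

end Pool.Agent.Lib_helper50.NN
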