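import Mathlib
import Pool.Agent.Lib_helper50.NN.Moments

/-!
# Selection of blocks of digits
-/

set_option autoImplicit false

open Filter Topology

namespace Pool.Agent.Lib_helper50.NN

/-- left endpoint of the interval obtained from `y / b ^ P` by appending the block `m` of length
`L` -/
noncomputable def Xp (b P L y m : ℕ) : ℝ := ((b ^ L * y + m : ℕ) : ℝ) / (b : ℝ) ^ (P + L)

/-- base `a` sums are small on the whole interval -/
def GoodA (a b P L H : ℕ) (ε : ℝ) (y m : ℕ) : Prop :=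
  ∀ x : ℝ, Xp b P L y m ≤ x → x ≤ Xp b P L y m + 1 / (b : ℝ) ^ (P + L) →
    ∀ h : ℕ, 1 ≤ h → h ≤ H →
      ‖∑ n ∈ Finset.Ico (nA a b P) (nA a b (P + L)), e ((h : ℝ) * ((a : ℝ) ^ n * x))‖ ≤ ε * L

/-- base `b` sums are small on the whole interval -/
def GoodB (b P L H : ℕ) (ε : ℝ) (y m : ℕ) : Prop :=
  ∀ x : ℝ, Xp b P L y m ≤ x → x ≤ Xp b P L y m + 1 / (b : ℝ) ^ (P + L) →
    ∀ h : ℕ, 1 ≤ h → h ≤ H → ¬ b ∣ h →
      ‖∑ n ∈ Finset.Ico P (P + L), e ((h : ℝ) * ((b : ℝ) ^ n * x))‖ ≤ ε * L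

/-- the base `a` sum with `h = 1` is large on the whole interval -/
def BadA (a b P L y m : ℕ) : Prop :=
  ∀ x : ℝ, Xp b P L y m ≤ x → x ≤ Xp b P L y m + 1 / (b : ℝ) ^ (P + L) →
    ((nA a b (P + L) - nA a b P : ℕ) : ℝ) - (2 + 2 * Real.pi * a) ≤
      (∑ n ∈ Finset.Ico (nA a b P) (nA a b (P + L)), e ((a : ℝ) ^ n * x)).re

/-- the base `b` sum with `h = 1` is large on the whole interval -/
def BadB (b P L y m : ℕ) : Prop :=
  ∀ x : ℝ, Xp b P L y m ≤ x → x ≤ Xp b P L y m + 1 / (b : ℝ) ^ (P + L) →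
    (L : ℝ) / 2 - 7 ≤ (∑ n ∈ Finset.Ico P (P + L), e ((b : ℝ) ^ n * x)).re

lemma sum_pow_le {a : ℕ} (ha : 2 ≤ a) (lo hi : ℕ) :
    ∑ n ∈ Finset.Ico lo hi, (a : ℝ) ^ n ≤ (a : ℝ) ^ hi := by
  have h1 : ∀ hi, ∑ n ∈ Finset.range hi, (a : ℝ) ^ n ≤ (a : ℝ) ^ hi := by
    intro hi
    induction hi with
    | zero => simp
    | succ k ih =>
      rw [Finset.sum_range_succ, pow_succ]
      have : (2 : ℝ) ≤ a := by exact_mod_cast ha
      have h2 : (0 : ℝ) < (a : ℝ) ^ k := by positivity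
      nlinarith
  refine le_trans ?_ (h1 hi)
  apply Finset.sum_le_sum_of_subset_of_nonneg
  · intro n hn
    exact Finset.mem_range.mpr (Finset.mem_Ico.mp hn).2
  · intro n _ _
    positivity

/-- moving the point inside the interval changes the sums by a bounded amount -/
lemma shift_bound {c : ℕ} (hc : 2 ≤ c) (lo hi : ℕ) {K W : ℝ} (hW : 0 < W)
    (hK : (c : ℝ) ^ hi ≤ K * W) (h : ℕ) {x x' : ℝ} (hx : |x - x'| ≤ 1 / W) :
    ‖∑ n ∈ Finset.Ico lo hi, e ((h : ℝ) * ((c : ℝ) ^ n * x)) -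
      ∑ n ∈ Finset.Ico lo hi, e ((h : ℝ) * ((c : ℝ) ^ n * x'))‖ ≤ 2 * Real.pi * h * K := by
  rw [← Finset.sum_sub_distrib]
  calc ‖∑ n ∈ Finset.Ico lo hi, (e ((h : ℝ) * ((c : ℝ) ^ n * x)) -
        e ((h : ℝ) * ((c : ℝ) ^ n * x')))‖
      ≤ ∑ n ∈ Finset.Ico lo hi, ‖e ((h : ℝ) * ((c : ℝ) ^ n * x)) -
        e ((h : ℝ) * ((c : ℝ) ^ n * x'))‖ := norm_sum_le _ _
    _ ≤ ∑ n ∈ Finset.Ico lo hi, 2 * Real.pi * h * (1 / W) * (c : ℝ) ^ n := by
        apply Finset.sum_le_sum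
        intro n _
        refine (norm_e_sub_e_le _ _).trans ?_
        have : (h : ℝ) * ((c : ℝ) ^ n * x) - (h : ℝ) * ((c : ℝ) ^ n * x') =
            (h : ℝ) * (c : ℝ) ^ n * (x - x') := by ring
        rw [this, abs_mul, abs_of_nonneg (by positivity : (0 : ℝ) ≤ (h : ℝ) * (c : ℝ) ^ n)]
        calc 2 * Real.pi * ((h : ℝ) * (c : ℝ) ^ n * |x - x'|)
            ≤ 2 * Real.pi * ((h : ℝ) * (c : ℝ) ^ n * (1 / W)) := by gcongr
          _ = 2 * Real.pi * h * (1 / W) * (c : ℝ) ^ n := by ring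
    _ = 2 * Real.pi * h * (1 / W) * ∑ n ∈ Finset.Ico lo hi, (c : ℝ) ^ n := by
        rw [Finset.mul_sum]
    _ ≤ 2 * Real.pi * h * (1 / W) * (K * W) := by
        apply mul_le_mul_of_nonneg_left ((sum_pow_le hc lo hi).trans hK)
        positivity
    _ = 2 * Real.pi * h * K := by field_simp

lemma digit_tail_le {b q : ℕ} (hb : 2 ≤ b) (hq : 1 ≤ q) (J : ℕ) :
    ∑ j ∈ Finset.range J, ((b : ℝ) - 1) / ((b : ℝ) ^ q) ^ (j + 1) ≤ 1 - 1 / ((b : ℝ) ^ q) ^ J := by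
  have hb' : (2 : ℝ) ≤ b := by exact_mod_cast hb
  have hB : (b : ℝ) ≤ (b : ℝ) ^ q := by
    calc (b : ℝ) = (b : ℝ) ^ 1 := (pow_one _).symm
      _ ≤ (b : ℝ) ^ q := pow_le_pow_right₀ (by linarith) hq
  have hB0 : (0 : ℝ) < (b : ℝ) ^ q := by positivity
  induction J with
  | zero => simp
  | succ J ih =>
    rw [Finset.sum_range_succ]
    have h1 : ((b : ℝ) - 1) / ((b : ℝ) ^ q) ^ (J + 1) ≤
        ((b : ℝ) ^ q - 1) / ((b : ℝ) ^ q) ^ (J + 1) := by gcongr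
    have h2 : ((b : ℝ) ^ q - 1) / ((b : ℝ) ^ q) ^ (J + 1) = 1 / ((b : ℝ) ^ q) ^ J -
        1 / ((b : ℝ) ^ q) ^ (J + 1) := by
      rw [pow_succ]
      field_simp
    linarith

/-- a digit choice gives a block -/
lemma exists_block {b c q J : ℕ} (hb : 2 ≤ b) (hcb : c ≤ b) (hq : 1 ≤ q) (P L y : ℕ)
    (hJ : q * J ≤ L) (d : Fin J → ℕ) (hd : d ∈ Dg J c) :
    ∃ m : ℕ, m < b ^ L ∧ Xp b P L y m = xd b q P ((y : ℝ) / (b : ℝ) ^ P) d := by
  have hb0 : (0 : ℝ) < b := by exact_mod_cast (by omega : 0 < b)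
  have hqL : ∀ j : Fin J, q * ((j : ℕ) + 1) ≤ L := by
    intro j
    have h1 : (j : ℕ) + 1 ≤ J := j.2
    exact (Nat.mul_le_mul_left _ h1).trans hJ
  set m : ℕ := ∑ j : Fin J, d j * b ^ (L - q * ((j : ℕ) + 1)) with hm
  have hX : Xp b P L y m = xd b q P ((y : ℝ) / (b : ℝ) ^ P) d := by
    unfold Xp xd
    rw [hm]
    push_cast
    rw [add_div, Finset.sum_div]
    congr 1
    · rw [pow_add]; field_simp
    · apply Finset.sum_congr rfl
      intro j _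
      have h1 : (b : ℝ) ^ L = (b : ℝ) ^ (L - q * ((j : ℕ) + 1)) * ((b : ℝ) ^ q) ^ ((j : ℕ) + 1) := by
        rw [← pow_mul, ← pow_add, Nat.sub_add_cancel (hqL j)]
      rw [pow_add, h1]
      field_simp
  refine ⟨m, ?_, hX⟩
  -- size of the block
  have h1 : xd b q P ((y : ℝ) / (b : ℝ) ^ P) d < (y : ℝ) / (b : ℝ) ^ P + 1 / (b : ℝ) ^ P := by
    unfold xd
    apply add_lt_add_of_le_of_lt le_rfl
    have h2 : ∑ j : Fin J, (d j : ℝ) / ((b : ℝ) ^ P * ((b : ℝ) ^ q) ^ ((j : ℕ) + 1)) ≤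
        (1 / (b : ℝ) ^ P) * ∑ j ∈ Finset.range J, ((b : ℝ) - 1) / ((b : ℝ) ^ q) ^ (j + 1) := by
      rw [Finset.mul_sum, Finset.sum_range]
      apply Finset.sum_le_sum
      intro j _
      have h3 : (d j : ℝ) ≤ (b : ℝ) - 1 := by
        have h4 : d j < c := by
          have := Fintype.mem_piFinset.mp hd j
          exact Finset.mem_range.mp this
        have h5 : d j + 1 ≤ b := by omega
        have h6 : (d j : ℝ) + 1 ≤ b := by exact_mod_cast h5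
        linarith
      rw [div_mul_div_comm, one_mul]
      gcongr
    have h3 := digit_tail_le hb hq J
    have h4 : (0 : ℝ) < 1 / ((b : ℝ) ^ q) ^ J := by positivity
    have h5 : (0 : ℝ) < 1 / (b : ℝ) ^ P := by positivity
    calc ∑ j : Fin J, (d j : ℝ) / ((b : ℝ) ^ P * ((b : ℝ) ^ q) ^ ((j : ℕ) + 1))
        ≤ (1 / (b : ℝ) ^ P) * ∑ j ∈ Finset.range J,
            ((b : ℝ) - 1) / ((b : ℝ) ^ q) ^ (j + 1) := h2
      _ < (1 / (b : ℝ) ^ P) * 1 := by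
          apply mul_lt_mul_of_pos_left _ h5
          linarith
      _ = 1 / (b : ℝ) ^ P := mul_one _
  rw [← hX] at h1
  unfold Xp at h1
  rw [div_lt_iff₀ (by positivity)] at h1
  have h2 : ((b ^ L * y + m : ℕ) : ℝ) < ((b ^ L * y + b ^ L : ℕ) : ℝ) := by
    refine lt_of_lt_of_eq h1 ?_
    push_cast
    rw [pow_add]
    field_simp
  have h3 : b ^ L * y + m < b ^ L * y + b ^ L := by exact_mod_cast h2
  omega

/-- from the left endpoint to the whole interval, base `a` -/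
lemma goodA_of_left {a b P L H : ℕ} (ha : 2 ≤ a) (hb : 2 ≤ b) {ε : ℝ} {y m : ℕ}
    (hL : 2 * Real.pi * H * a ≤ ε / 2 * L)
    (h : ∀ h : ℕ, 1 ≤ h → h ≤ H → ‖∑ n ∈ Finset.Ico (nA a b P) (nA a b (P + L)),
      e ((h : ℝ) * ((a : ℝ) ^ n * Xp b P L y m))‖ ≤ ε / 2 * L) :
    GoodA a b P L H ε y m := by
  intro x hx1 hx2 k hk1 hk2
  have hbpos : (0 : ℝ) < (b : ℝ) ^ (P + L) := by
    have : (0 : ℝ) < b := by exact_mod_cast (by omega : 0 < b)
    positivity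
  have h1 := shift_bound ha (nA a b P) (nA a b (P + L)) (K := a) hbpos (by
    exact_mod_cast pow_nA_le ha hb (P + L)) k (x := x) (x' := Xp b P L y m) (by
    rw [abs_le]; constructor
    · have : (0 : ℝ) < 1 / (b : ℝ) ^ (P + L) := by positivity
      linarith
    · linarith)
  have h2 := h k hk1 hk2
  have h3 : 2 * Real.pi * k * a ≤ 2 * Real.pi * H * a := by
    have : (k : ℝ) ≤ H := by exact_mod_cast hk2
    gcongr
  calc ‖∑ n ∈ Finset.Ico (nA a b P) (nA a b (P + L)), e ((k : ℝ) * ((a : ℝ) ^ n * x))‖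
      = ‖(∑ n ∈ Finset.Ico (nA a b P) (nA a b (P + L)), e ((k : ℝ) * ((a : ℝ) ^ n * x)) -
        ∑ n ∈ Finset.Ico (nA a b P) (nA a b (P + L)), e ((k : ℝ) * ((a : ℝ) ^ n * Xp b P L y m))) +
        ∑ n ∈ Finset.Ico (nA a b P) (nA a b (P + L)),
          e ((k : ℝ) * ((a : ℝ) ^ n * Xp b P L y m))‖ := by
        congr 1; ring
    _ ≤ _ := norm_add_le _ _
    _ ≤ 2 * Real.pi * k * a + ε / 2 * L := add_le_add h1 h2
    _ ≤ ε * L := by linarith

/-- from the left endpoint to the whole interval, base `b` -/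
lemma goodB_of_left {b P L H : ℕ} (hb : 2 ≤ b) {ε : ℝ} {y m : ℕ}
    (hL : 2 * Real.pi * H ≤ ε / 2 * L)
    (h : ∀ h : ℕ, 1 ≤ h → h ≤ H → ¬ b ∣ h → ‖∑ n ∈ Finset.Ico P (P + L),
      e ((h : ℝ) * ((b : ℝ) ^ n * Xp b P L y m))‖ ≤ ε / 2 * L) :
    GoodB b P L H ε y m := by
  intro x hx1 hx2 k hk1 hk2 hk3
  have hbpos : (0 : ℝ) < (b : ℝ) ^ (P + L) := by
    have : (0 : ℝ) < b := by exact_mod_cast (by omega : 0 < b)
    positivity
  have h1 := shift_bound hb P (P + L) (K := 1) hbpos (by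
    rw [one_mul]) k (x := x) (x' := Xp b P L y m) (by
    rw [abs_le]; constructor
    · have : (0 : ℝ) < 1 / (b : ℝ) ^ (P + L) := by positivity
      linarith
    · linarith)
  have h2 := h k hk1 hk2 hk3
  have h3 : 2 * Real.pi * k ≤ 2 * Real.pi * H := by
    have : (k : ℝ) ≤ H := by exact_mod_cast hk2
    gcongr
  calc ‖∑ n ∈ Finset.Ico P (P + L), e ((k : ℝ) * ((b : ℝ) ^ n * x))‖
      = ‖(∑ n ∈ Finset.Ico P (P + L), e ((k : ℝ) * ((b : ℝ) ^ n * x)) -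
        ∑ n ∈ Finset.Ico P (P + L), e ((k : ℝ) * ((b : ℝ) ^ n * Xp b P L y m))) +
        ∑ n ∈ Finset.Ico P (P + L),
          e ((k : ℝ) * ((b : ℝ) ^ n * Xp b P L y m))‖ := by
        congr 1; ring
    _ ≤ _ := norm_add_le _ _
    _ ≤ 2 * Real.pi * k * 1 + ε / 2 * L := add_le_add h1 h2
    _ ≤ ε * L := by linarith

lemma le_of_sq_sum_le {s : Finset ℕ} {f : ℕ → ℝ} {t : ℝ} (ht : 0 ≤ t)
    (h : ∑ k ∈ s, (f k) ^ 2 ≤ t ^ 2) {k : ℕ} (hk : k ∈ s) : f k ≤ t := by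
  have h1 : (f k) ^ 2 ≤ t ^ 2 :=
    (Finset.single_le_sum (f := fun k => (f k) ^ 2) (fun i _ => sq_nonneg (f i)) hk).trans h
  by_contra hlt
  push Not at hlt
  nlinarith

/-- the moment bounds for all frequencies up to `H` at once, base `a` -/
lemma moment_a_all {a b c q : ℕ} (ha : 2 ≤ a) (hb : 2 ≤ b) (hc : 2 ≤ c) (hcb : c ≤ b)
    (hq : 1 ≤ q) (hab : MulIndep a b) (H : ℕ) {δ : ℝ} (hδ : 0 < δ) :
    ∃ L0 : ℕ, ∀ L ≥ L0, ∀ (P : ℕ) (Y : ℝ), ∀ h ∈ Finset.Icc 1 H,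
      ∑ d ∈ Dg (L / q) c, ‖∑ n ∈ Finset.Ico (nA a b P) (nA a b (P + L)),
        e ((h : ℝ) * ((a : ℝ) ^ n * xd b q P Y d))‖ ^ 2 ≤ (c : ℝ) ^ (L / q) * (δ * (L : ℝ) ^ 2) := by
  induction H with
  | zero => exact ⟨0, fun L _ P Y h hh => by simp at hh⟩
  | succ H ih =>
    obtain ⟨L1, hL1⟩ := ih
    obtain ⟨L2, hL2⟩ := moment_a (h := H + 1) ha hb hc hcb hq (by omega) hab hδ
    refine ⟨max L1 L2, fun L hL P Y h hh => ?_⟩
    obtain ⟨h1, h2⟩ := Finset.mem_Icc.mp hh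
    by_cases h3 : h ≤ H
    · exact hL1 L (le_trans (le_max_left _ _) hL) P Y h (Finset.mem_Icc.mpr ⟨h1, h3⟩)
    · have h4 : h = H + 1 := by omega
      subst h4
      have := hL2 L (le_trans (le_max_right _ _) hL) P Y
      simpa only [mul_assoc] using this

/-- **Selection of good blocks.** -/
theorem select_good {a b : ℕ} (ha : 2 ≤ a) (hb : 2 ≤ b) (hab : MulIndep a b) (H : ℕ) {ε : ℝ}
    (hε : 0 < ε) :
    ∃ L0 : ℕ, ∀ L ≥ L0, ∀ P y : ℕ, ∃ m : ℕ, m < b ^ L ∧ GoodA a b P L H ε y m ∧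
      GoodB b P L H ε y m := by
  obtain ⟨L1, hL1⟩ := moment_a_all ha hb hb le_rfl le_rfl hab H
    (δ := (ε / 2) ^ 2 / (2 * (H + 1))) (by positivity)
  obtain ⟨L2, hL2⟩ := exists_nat_ge (2 * Real.pi * H * a / (ε / 2))
  obtain ⟨L3, hL3⟩ := exists_nat_ge ((H : ℝ) / ((ε / 2) ^ 2 / 2))
  refine ⟨max L1 (max L2 L3), fun L hL P y => ?_⟩
  have hLL1 : L1 ≤ L := le_trans (le_max_left _ _) hL
  have hLL2 : L2 ≤ L := le_trans (le_trans (le_max_left _ _) (le_max_right _ _)) hL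
  have hLL3 : L3 ≤ L := le_trans (le_trans (le_max_right _ _) (le_max_right _ _)) hL
  have hc1 : 2 * Real.pi * H * a ≤ ε / 2 * L := by
    have h1 : 2 * Real.pi * H * a / (ε / 2) ≤ L := hL2.trans (by exact_mod_cast hLL2)
    rw [div_le_iff₀ (by positivity)] at h1
    linarith
  have hc2 : (H : ℝ) * L ≤ (ε / 2) ^ 2 / 2 * (L : ℝ) ^ 2 := by
    have h1 : (H : ℝ) / ((ε / 2) ^ 2 / 2) ≤ L := hL3.trans (by exact_mod_cast hLL3)
    rw [div_le_iff₀ (by positivity)] at h1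
    have h2 : (0 : ℝ) ≤ L := Nat.cast_nonneg _
    nlinarith
  set Y : ℝ := (y : ℝ) / (b : ℝ) ^ P with hY
  have hbpos : (0 : ℝ) < b := by exact_mod_cast (by omega : 0 < b)
  -- averaged defect
  have hsum : ∑ d ∈ Dg L b, (∑ h ∈ Finset.Icc 1 H,
        ‖∑ n ∈ Finset.Ico (nA a b P) (nA a b (P + L)),
          e ((h : ℝ) * ((a : ℝ) ^ n * xd b 1 P Y d))‖ ^ 2 +
      ∑ h ∈ (Finset.Icc 1 H).filter (fun h => ¬ b ∣ h), ‖∑ n ∈ Finset.Ico P (P + L),
          e ((h : ℝ) * ((b : ℝ) ^ n * xd b 1 P Y d))‖ ^ 2) ≤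
      ∑ d ∈ Dg L b, (ε / 2 * L) ^ 2 := by
    rw [Finset.sum_add_distrib, Finset.sum_comm, Finset.sum_comm (s := Dg L b)
      (t := (Finset.Icc 1 H).filter (fun h => ¬ b ∣ h))]
    have h1 : ∑ h ∈ Finset.Icc 1 H, ∑ d ∈ Dg L b,
        ‖∑ n ∈ Finset.Ico (nA a b P) (nA a b (P + L)),
          e ((h : ℝ) * ((a : ℝ) ^ n * xd b 1 P Y d))‖ ^ 2 ≤
        (H : ℝ) * ((b : ℝ) ^ L * ((ε / 2) ^ 2 / (2 * (H + 1)) * (L : ℝ) ^ 2)) := by
      have := hL1 L hLL1 P Y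
      rw [Nat.div_one] at this
      refine (Finset.sum_le_sum this).trans (le_of_eq ?_)
      simp
    have h2 : ∑ h ∈ (Finset.Icc 1 H).filter (fun h => ¬ b ∣ h), ∑ d ∈ Dg L b,
        ‖∑ n ∈ Finset.Ico P (P + L), e ((h : ℝ) * ((b : ℝ) ^ n * xd b 1 P Y d))‖ ^ 2 ≤
        (H : ℝ) * ((b : ℝ) ^ L * L) := by
      have h3 : ∀ h ∈ (Finset.Icc 1 H).filter (fun h => ¬ b ∣ h), ∑ d ∈ Dg L b,
        ‖∑ n ∈ Finset.Ico P (P + L), e ((h : ℝ) * ((b : ℝ) ^ n * xd b 1 P Y d))‖ ^ 2 ≤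
        (b : ℝ) ^ L * L := by
        intro h hh
        have := moment_b hb (Finset.mem_filter.mp hh).2 L P Y
        simpa only [mul_assoc] using this
      refine (Finset.sum_le_sum h3).trans ?_
      rw [Finset.sum_const, nsmul_eq_mul]
      apply mul_le_mul_of_nonneg_right
      · have : ((Finset.Icc 1 H).filter (fun h => ¬ b ∣ h)).card ≤ H := by
          refine (Finset.card_filter_le _ _).trans ?_
          simp
        exact_mod_cast this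
      · positivity
    refine (add_le_add h1 h2).trans ?_
    rw [Finset.sum_const, card_Dg, nsmul_eq_mul]
    push_cast
    have h4 : (H : ℝ) / (2 * (H + 1)) ≤ 1 / 2 := by
      rw [div_le_iff₀ (by positivity)]
      linarith
    have h5 : (0 : ℝ) < (b : ℝ) ^ L := by positivity
    calc (H : ℝ) * ((b : ℝ) ^ L * ((ε / 2) ^ 2 / (2 * (H + 1)) * (L : ℝ) ^ 2)) +
          (H : ℝ) * ((b : ℝ) ^ L * L)
        = (b : ℝ) ^ L * ((H : ℝ) / (2 * (H + 1)) * ((ε / 2) ^ 2 * (L : ℝ) ^ 2) + (H : ℝ) * L) := by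
          field_simp
      _ ≤ (b : ℝ) ^ L * (1 / 2 * ((ε / 2) ^ 2 * (L : ℝ) ^ 2) + (ε / 2) ^ 2 / 2 * (L : ℝ) ^ 2) := by
          gcongr
      _ = (b : ℝ) ^ L * (ε / 2 * L) ^ 2 := by ring
  have hne : (Dg L b).Nonempty := by
    rw [← Finset.card_pos, card_Dg]
    positivity
  obtain ⟨d, hd, hdle⟩ := Finset.exists_le_of_sum_le hne hsum
  obtain ⟨m, hm1, hX⟩ := exists_block (c := b) (q := 1) hb le_rfl le_rfl P L y
    (by omega) d hd
  have hLnn : 0 ≤ ε / 2 * L := by positivity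
  refine ⟨m, hm1, ?_, ?_⟩
  · apply goodA_of_left ha hb hc1
    intro h h1 h2
    rw [hX]
    refine le_of_sq_sum_le (s := Finset.Icc 1 H) (f := fun h => ‖∑ n ∈ Finset.Ico (nA a b P)
      (nA a b (P + L)), e ((h : ℝ) * ((a : ℝ) ^ n * xd b 1 P Y d))‖) hLnn ?_
      (Finset.mem_Icc.mpr ⟨h1, h2⟩)
    refine le_trans ?_ hdle
    have : 0 ≤ ∑ h ∈ (Finset.Icc 1 H).filter (fun h => ¬ b ∣ h), ‖∑ n ∈ Finset.Ico P (P + L),
          e ((h : ℝ) * ((b : ℝ) ^ n * xd b 1 P Y d))‖ ^ 2 :=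
      Finset.sum_nonneg fun _ _ => by positivity
    linarith
  · have hc3 : 2 * Real.pi * H ≤ ε / 2 * L := by
      have ha1 : (1 : ℝ) ≤ a := by exact_mod_cast (by omega : 1 ≤ a)
      have : 2 * Real.pi * H * 1 ≤ 2 * Real.pi * H * a := by gcongr
      linarith
    apply goodB_of_left hb hc3
    intro h h1 h2 h3
    rw [hX]
    refine le_of_sq_sum_le (s := (Finset.Icc 1 H).filter (fun h => ¬ b ∣ h))
      (f := fun h => ‖∑ n ∈ Finset.Ico P
      (P + L), e ((h : ℝ) * ((b : ℝ) ^ n * xd b 1 P Y d))‖) hLnn ?_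
      (Finset.mem_filter.mpr ⟨Finset.mem_Icc.mpr ⟨h1, h2⟩, h3⟩)
    refine le_trans ?_ hdle
    have : 0 ≤ ∑ h ∈ Finset.Icc 1 H, ‖∑ n ∈ Finset.Ico (nA a b P) (nA a b (P + L)),
          e ((h : ℝ) * ((a : ℝ) ^ n * xd b 1 P Y d))‖ ^ 2 :=
      Finset.sum_nonneg fun _ _ => by positivity
    linarith

/-- sparse blocks are bad in base `b` -/
lemma badB_of_sparse {b : ℕ} (hb : 2 ≤ b) (P L y m : ℕ) (d : Fin (L / 13) → ℕ)
    (hd : d ∈ Dg (L / 13) 2) (hX : Xp b P L y m = xd b 13 P ((y : ℝ) / (b : ℝ) ^ P) d) :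
    BadB b P L y m := by
  intro x hx1 hx2
  have hb0 : (0 : ℝ) < b := by exact_mod_cast (by omega : 0 < b)
  have hbpos : (0 : ℝ) < (b : ℝ) ^ (P + L) := by positivity
  -- fractional remainders
  set r : ℕ → ℝ := fun i => ∑ j ∈ (Finset.univ : Finset (Fin (L / 13))).filter
    (fun j : Fin (L / 13) => i < 13 * ((j : ℕ) + 1)), (b : ℝ) ^ i / ((b : ℝ) ^ 13) ^ ((j : ℕ) + 1) with hr
  have hdle : ∀ j, d j ≤ 1 := by
    intro j
    have := Finset.mem_range.mp (Fintype.mem_piFinset.mp hd j)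
    omega
  have hr0 : ∀ i, 0 ≤ r i := fun i => Finset.sum_nonneg fun _ _ => by positivity
  have hpt : ∀ i : ℕ, 1 - 2 * Real.pi * r i ≤
      (e ((b : ℝ) ^ (P + i) * Xp b P L y m)).re := by
    intro i
    -- integer part
    set I : ℕ := b ^ i * y + ∑ j ∈ (Finset.univ : Finset (Fin (L / 13))).filter
      (fun j : Fin (L / 13) => ¬ i < 13 * ((j : ℕ) + 1)), d j * b ^ (i - 13 * ((j : ℕ) + 1)) with hI
    set r' : ℝ := ∑ j ∈ (Finset.univ : Finset (Fin (L / 13))).filter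
      (fun j : Fin (L / 13) => i < 13 * ((j : ℕ) + 1)), (d j : ℝ) * ((b : ℝ) ^ i / ((b : ℝ) ^ 13) ^ ((j : ℕ) + 1))
      with hr'
    have h1 : (b : ℝ) ^ (P + i) * Xp b P L y m = r' + (I : ℤ) := by
      rw [hX]
      unfold xd
      rw [mul_add, Finset.mul_sum, ← Finset.sum_filter_add_sum_filter_not Finset.univ
        (fun j : Fin (L / 13) => i < 13 * ((j : ℕ) + 1))]
      have h2 : (b : ℝ) ^ (P + i) * ((y : ℝ) / (b : ℝ) ^ P) = (b : ℝ) ^ i * y := by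
        rw [pow_add]; field_simp
      have h3 : ∑ j ∈ (Finset.univ : Finset (Fin (L / 13))).filter
          (fun j : Fin (L / 13) => i < 13 * ((j : ℕ) + 1)), (b : ℝ) ^ (P + i) *
          ((d j : ℝ) / ((b : ℝ) ^ P * ((b : ℝ) ^ 13) ^ ((j : ℕ) + 1))) = r' := by
        rw [hr']
        apply Finset.sum_congr rfl
        intro j _
        rw [pow_add]; field_simp
      have h4 : ∑ j ∈ (Finset.univ : Finset (Fin (L / 13))).filter
          (fun j : Fin (L / 13) => ¬ i < 13 * ((j : ℕ) + 1)), (b : ℝ) ^ (P + i) *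
          ((d j : ℝ) / ((b : ℝ) ^ P * ((b : ℝ) ^ 13) ^ ((j : ℕ) + 1))) =
          ((∑ j ∈ (Finset.univ : Finset (Fin (L / 13))).filter
      (fun j : Fin (L / 13) => ¬ i < 13 * ((j : ℕ) + 1)), d j * b ^ (i - 13 * ((j : ℕ) + 1)) : ℕ) : ℝ) := by
        push_cast
        apply Finset.sum_congr rfl
        intro j hj
        have h5 := (Finset.mem_filter.mp hj).2
        push Not at h5
        have h6 : (b : ℝ) ^ i = (b : ℝ) ^ (i - 13 * ((j : ℕ) + 1)) *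
            ((b : ℝ) ^ 13) ^ ((j : ℕ) + 1) := by
          rw [← pow_mul, ← pow_add, Nat.sub_add_cancel h5]
        rw [pow_add, h6]
        field_simp
      rw [h2, h3, h4, hI]
      push_cast
      ring
    have h2 : r' ≤ r i := by
      rw [hr', hr]
      apply Finset.sum_le_sum
      intro j _
      have : (d j : ℝ) ≤ 1 := by exact_mod_cast hdle j
      have h3 : 0 ≤ (b : ℝ) ^ i / ((b : ℝ) ^ 13) ^ ((j : ℕ) + 1) := by positivity
      nlinarith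
    have h3 : 0 ≤ r' := Finset.sum_nonneg fun _ _ => by positivity
    rw [h1, e_add_int]
    have h4 := norm_e_sub_one_le r'
    rw [abs_of_nonneg h3] at h4
    have h5 : |(e r' - 1).re| ≤ ‖e r' - 1‖ := Complex.abs_re_le_norm _
    rw [Complex.sub_re, Complex.one_re] at h5
    have h6 := (abs_le.mp h5).1
    have h7 : 2 * Real.pi * r' ≤ 2 * Real.pi * r i := by
      have := Real.pi_pos
      gcongr
    linarith
  -- the sum of the remainders
  have hrsum : ∑ i ∈ Finset.range L, r i ≤ (L : ℝ) / 13 := by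
    rw [hr]
    calc ∑ i ∈ Finset.range L, ∑ j ∈ (Finset.univ : Finset (Fin (L / 13))).filter
          (fun j : Fin (L / 13) => i < 13 * ((j : ℕ) + 1)), (b : ℝ) ^ i / ((b : ℝ) ^ 13) ^ ((j : ℕ) + 1)
        = ∑ j : Fin (L / 13), ∑ i ∈ (Finset.range L).filter (fun i => i < 13 * ((j : ℕ) + 1)),
          (b : ℝ) ^ i / ((b : ℝ) ^ 13) ^ ((j : ℕ) + 1) := by
          simp only [Finset.sum_filter]
          rw [Finset.sum_comm]
      _ ≤ ∑ j : Fin (L / 13), (1 : ℝ) := by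
          apply Finset.sum_le_sum
          intro j _
          rw [← Finset.sum_div, div_le_one (by positivity), ← pow_mul]
          refine le_trans ?_ (sum_pow_le hb 0 (13 * ((j : ℕ) + 1)))
          apply Finset.sum_le_sum_of_subset_of_nonneg
          · intro i hi
            exact Finset.mem_Ico.mpr ⟨Nat.zero_le _, (Finset.mem_filter.mp hi).2⟩
          · intro _ _ _; positivity
      _ = ((L / 13 : ℕ) : ℝ) := by simp
      _ ≤ (L : ℝ) / 13 := by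
          have := @Nat.cast_div_le ℝ _ _ _ L 13
          simpa using this
  have hleft : (L : ℝ) - 2 * Real.pi * (L / 13) ≤
      (∑ n ∈ Finset.Ico P (P + L), e ((b : ℝ) ^ n * Xp b P L y m)).re := by
    rw [Finset.sum_Ico_eq_sum_range, Complex.re_sum, Nat.add_sub_cancel_left]
    calc (L : ℝ) - 2 * Real.pi * (L / 13) ≤ L - 2 * Real.pi * ∑ i ∈ Finset.range L, r i := by
          have := Real.pi_pos
          gcongr
      _ = ∑ i ∈ Finset.range L, (1 - 2 * Real.pi * r i) := by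
          rw [Finset.sum_sub_distrib, ← Finset.mul_sum]
          simp
      _ ≤ _ := Finset.sum_le_sum fun i _ => hpt i
  have hshift := shift_bound hb P (P + L) (K := 1) hbpos (by rw [one_mul]) 1 (x := x)
    (x' := Xp b P L y m) (by
      rw [abs_le]; constructor
      · have : (0 : ℝ) < 1 / (b : ℝ) ^ (P + L) := by positivity
        linarith
      · linarith)
  simp only [Nat.cast_one, one_mul, mul_one] at hshift
  have h1 := (abs_le.mp ((Complex.abs_re_le_norm _).trans hshift)).1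
  rw [Complex.sub_re] at h1
  have hpi := Real.pi_lt_d2
  have hLnn : (0 : ℝ) ≤ L := Nat.cast_nonneg _
  nlinarith

/-- **Selection of `b`-damaged blocks.** -/
theorem select_badB {a b : ℕ} (ha : 2 ≤ a) (hb : 2 ≤ b) (hab : MulIndep a b) (H : ℕ) {ε : ℝ}
    (hε : 0 < ε) :
    ∃ L0 : ℕ, ∀ L ≥ L0, ∀ P y : ℕ, ∃ m : ℕ, m < b ^ L ∧ GoodA a b P L H ε y m ∧
      BadB b P L y m := by
  obtain ⟨L1, hL1⟩ := moment_a_all (q := 13) ha hb le_rfl hb (by norm_num) hab H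
    (δ := (ε / 2) ^ 2 / (H + 1)) (by positivity)
  obtain ⟨L2, hL2⟩ := exists_nat_ge (2 * Real.pi * H * a / (ε / 2))
  refine ⟨max L1 L2, fun L hL P y => ?_⟩
  have hLL1 : L1 ≤ L := le_trans (le_max_left _ _) hL
  have hLL2 : L2 ≤ L := le_trans (le_max_right _ _) hL
  have hc1 : 2 * Real.pi * H * a ≤ ε / 2 * L := by
    have h1 : 2 * Real.pi * H * a / (ε / 2) ≤ L := hL2.trans (by exact_mod_cast hLL2)
    rw [div_le_iff₀ (by positivity)] at h1
    linarith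
  set Y : ℝ := (y : ℝ) / (b : ℝ) ^ P with hY
  have hsum : ∑ d ∈ Dg (L / 13) 2, (∑ h ∈ Finset.Icc 1 H,
        ‖∑ n ∈ Finset.Ico (nA a b P) (nA a b (P + L)),
          e ((h : ℝ) * ((a : ℝ) ^ n * xd b 13 P Y d))‖ ^ 2) ≤
      ∑ d ∈ Dg (L / 13) 2, (ε / 2 * L) ^ 2 := by
    rw [Finset.sum_comm]
    refine (Finset.sum_le_sum (hL1 L hLL1 P Y)).trans ?_
    rw [Finset.sum_const, Finset.sum_const, card_Dg, nsmul_eq_mul, nsmul_eq_mul]
    simp only [Nat.card_Icc, Nat.add_sub_cancel]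
    push_cast
    have h4 : (H : ℝ) / (H + 1) ≤ 1 := by
      rw [div_le_one (by positivity)]
      linarith
    calc (H : ℝ) * ((2 : ℝ) ^ (L / 13) * ((ε / 2) ^ 2 / (H + 1) * (L : ℝ) ^ 2))
        = (H : ℝ) / (H + 1) * ((2 : ℝ) ^ (L / 13) * ((ε / 2) ^ 2 * (L : ℝ) ^ 2)) := by
          field_simp
      _ ≤ 1 * ((2 : ℝ) ^ (L / 13) * ((ε / 2) ^ 2 * (L : ℝ) ^ 2)) := by gcongr
      _ = (2 : ℝ) ^ (L / 13) * (ε / 2 * L) ^ 2 := by ring
  have hne : (Dg (L / 13) 2).Nonempty := by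
    rw [← Finset.card_pos, card_Dg]
    positivity
  obtain ⟨d, hd, hdle⟩ := Finset.exists_le_of_sum_le hne hsum
  obtain ⟨m, hm1, hm2⟩ := exists_block (c := 2) (q := 13) hb hb (by norm_num) P L y
    (Nat.mul_div_le L 13) d hd
  have hLnn : 0 ≤ ε / 2 * L := by positivity
  refine ⟨m, hm1, ?_, badB_of_sparse hb P L y m d hd hm2⟩
  apply goodA_of_left ha hb hc1
  intro h h1 h2
  rw [hm2]
  exact le_of_sq_sum_le (s := Finset.Icc 1 H) (f := fun h => ‖∑ n ∈ Finset.Ico (nA a b P)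
      (nA a b (P + L)), e ((h : ℝ) * ((a : ℝ) ^ n * xd b 13 P Y d))‖) hLnn hdle
      (Finset.mem_Icc.mpr ⟨h1, h2⟩)

/-- **Selection of `a`-damaged blocks.** -/
theorem select_badA {a b : ℕ} (ha : 2 ≤ a) (hb : 2 ≤ b) (L P y : ℕ) :
    ∃ m : ℕ, m < b ^ L ∧ BadA a b P L y m := by
  have ha0 : (0 : ℝ) < a := by exact_mod_cast (by omega : 0 < a)
  have ha2 : (2 : ℝ) ≤ a := by exact_mod_cast ha
  have hb0 : (0 : ℝ) < b := by exact_mod_cast (by omega : 0 < b)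
  have hbP : (0 : ℝ) < (b : ℝ) ^ P := by positivity
  have hbPL : (0 : ℝ) < (b : ℝ) ^ (P + L) := by positivity
  set n1 : ℕ := nA a b P with hn1
  have han : (0 : ℝ) < (a : ℝ) ^ (n1 + 1) := by positivity
  set Y : ℝ := (y : ℝ) / (b : ℝ) ^ P with hY
  have hY0 : 0 ≤ Y := by positivity
  set k : ℕ := ⌈(a : ℝ) ^ (n1 + 1) * Y⌉₊ with hk
  set r : ℝ := (k : ℝ) / (a : ℝ) ^ (n1 + 1) with hr
  have hr1 : Y ≤ r := by
    rw [hr, le_div_iff₀ han, mul_comm]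
    exact Nat.le_ceil _
  have hr2 : r < Y + 1 / (b : ℝ) ^ P := by
    have h1 : (k : ℝ) < (a : ℝ) ^ (n1 + 1) * Y + 1 := Nat.ceil_lt_add_one (by positivity)
    have h2 : (b : ℝ) ^ P < (a : ℝ) ^ (n1 + 1) := by
      have h3 : (b : ℝ) ^ P ≤ (a : ℝ) ^ n1 := by exact_mod_cast le_pow_nA (b := b) ha P
      rw [pow_succ]
      have : (0 : ℝ) < (a : ℝ) ^ n1 := by positivity
      nlinarith
    rw [hr, div_lt_iff₀ han, add_mul]
    have h3 : 1 < 1 / (b : ℝ) ^ P * (a : ℝ) ^ (n1 + 1) := by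
      rw [one_div, inv_mul_eq_div, one_lt_div hbP]
      exact h2
    linarith
  have hr0 : 0 ≤ r := hY0.trans hr1
  set F : ℕ := ⌊(b : ℝ) ^ (P + L) * r⌋₊ with hF
  have hF1 : (F : ℝ) ≤ (b : ℝ) ^ (P + L) * r := Nat.floor_le (by positivity)
  have hF2 : (b : ℝ) ^ (P + L) * r < F + 1 := Nat.lt_floor_add_one _
  have hF3 : b ^ L * y ≤ F := by
    apply Nat.le_floor
    push_cast
    calc (b : ℝ) ^ L * y = (b : ℝ) ^ (P + L) * Y := by
          rw [hY, pow_add]; field_simp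
      _ ≤ (b : ℝ) ^ (P + L) * r := by gcongr
  have hF4 : F < b ^ L * y + b ^ L := by
    have : (F : ℝ) < ((b ^ L * y + b ^ L : ℕ) : ℝ) := by
      push_cast
      calc (F : ℝ) ≤ (b : ℝ) ^ (P + L) * r := hF1
        _ < (b : ℝ) ^ (P + L) * (Y + 1 / (b : ℝ) ^ P) := by gcongr
        _ = (b : ℝ) ^ L * y + (b : ℝ) ^ L := by
            rw [hY, pow_add]; field_simp
    exact_mod_cast this
  refine ⟨F - b ^ L * y, by omega, ?_⟩
  have hX : Xp b P L y (F - b ^ L * y) = (F : ℝ) / (b : ℝ) ^ (P + L) := by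
    unfold Xp
    rw [Nat.add_sub_cancel' hF3]
  intro x hx1 hx2
  rw [hX] at hx1 hx2
  have hxr : |x - r| ≤ 1 / (b : ℝ) ^ (P + L) := by
    have h1 : (F : ℝ) / (b : ℝ) ^ (P + L) ≤ r := by
      rw [div_le_iff₀ hbPL]; linarith
    have h2 : r ≤ (F : ℝ) / (b : ℝ) ^ (P + L) + 1 / (b : ℝ) ^ (P + L) := by
      rw [← add_div, le_div_iff₀ hbPL]; linarith
    rw [abs_le]
    constructor <;> linarith
  -- pointwise lower bound
  have hpt : ∀ n ∈ Finset.Ico n1 (nA a b (P + L)),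
      1 - 2 * Real.pi * (1 / (b : ℝ) ^ (P + L)) * (a : ℝ) ^ n - (if n = n1 then 2 else 0) ≤
        (e ((a : ℝ) ^ n * x)).re := by
    intro n hn
    have hn' := (Finset.mem_Ico.mp hn).1
    by_cases h : n = n1
    · rw [if_pos h]
      have h1 : -1 ≤ (e ((a : ℝ) ^ n * x)).re := by
        have := Complex.abs_re_le_norm (e ((a : ℝ) ^ n * x))
        rw [norm_e] at this
        exact (abs_le.mp this).1
      have h2 : 0 ≤ 2 * Real.pi * (1 / (b : ℝ) ^ (P + L)) * (a : ℝ) ^ n := by positivity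
      linarith
    · rw [if_neg h, sub_zero]
      have h1 : (a : ℝ) ^ n * x = (a : ℝ) ^ n * (x - r) + ((a ^ (n - (n1 + 1)) * k : ℕ) : ℤ) := by
        have h2 : (a : ℝ) ^ n = (a : ℝ) ^ (n - (n1 + 1)) * (a : ℝ) ^ (n1 + 1) := by
          rw [← pow_add, Nat.sub_add_cancel (by omega)]
        have h3 : (a : ℝ) ^ n * r = ((a ^ (n - (n1 + 1)) * k : ℕ) : ℝ) := by
          rw [hr, h2]
          push_cast
          field_simp
        have h4 : (((a ^ (n - (n1 + 1)) * k : ℕ) : ℤ) : ℝ) = ((a ^ (n - (n1 + 1)) * k : ℕ) : ℝ) := by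
          simp
        rw [h4, ← h3]
        ring
      rw [h1, e_add_int]
      have h4 := norm_e_sub_one_le ((a : ℝ) ^ n * (x - r))
      have h5 : |(e ((a : ℝ) ^ n * (x - r)) - 1).re| ≤ ‖e ((a : ℝ) ^ n * (x - r)) - 1‖ :=
        Complex.abs_re_le_norm _
      rw [Complex.sub_re, Complex.one_re] at h5
      have h6 := (abs_le.mp h5).1
      have h7 : 2 * Real.pi * |(a : ℝ) ^ n * (x - r)| ≤
          2 * Real.pi * (1 / (b : ℝ) ^ (P + L)) * (a : ℝ) ^ n := by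
        rw [abs_mul, abs_of_pos (by positivity : (0 : ℝ) < (a : ℝ) ^ n)]
        calc 2 * Real.pi * ((a : ℝ) ^ n * |x - r|)
            ≤ 2 * Real.pi * ((a : ℝ) ^ n * (1 / (b : ℝ) ^ (P + L))) := by gcongr
          _ = 2 * Real.pi * (1 / (b : ℝ) ^ (P + L)) * (a : ℝ) ^ n := by ring
      linarith
  rw [Complex.re_sum]
  refine le_trans ?_ (Finset.sum_le_sum hpt)
  rw [Finset.sum_sub_distrib, Finset.sum_sub_distrib, ← Finset.mul_sum, Finset.sum_ite_eq']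
  have h1 : ∑ n ∈ Finset.Ico n1 (nA a b (P + L)), (a : ℝ) ^ n ≤ a * (b : ℝ) ^ (P + L) :=
    (sum_pow_le ha _ _).trans (by exact_mod_cast pow_nA_le ha hb (P + L))
  have h2 : 2 * Real.pi * (1 / (b : ℝ) ^ (P + L)) *
      ∑ n ∈ Finset.Ico n1 (nA a b (P + L)), (a : ℝ) ^ n ≤ 2 * Real.pi * a := by
    calc 2 * Real.pi * (1 / (b : ℝ) ^ (P + L)) *
      ∑ n ∈ Finset.Ico n1 (nA a b (P + L)), (a : ℝ) ^ n
        ≤ 2 * Real.pi * (1 / (b : ℝ) ^ (P + L)) * (a * (b : ℝ) ^ (P + L)) := by gcongr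
      _ = 2 * Real.pi * a := by field_simp
  have h3 : (if n1 ∈ Finset.Ico n1 (nA a b (P + L)) then (2 : ℝ) else 0) ≤ 2 := by
    split_ifs <;> norm_num
  have h4 : ∑ n ∈ Finset.Ico n1 (nA a b (P + L)), (1 : ℝ) =
      ((nA a b (P + L) - n1 : ℕ) : ℝ) := by simp
  rw [h4]
  linarith

end Pool.Agent.Lib_helper50.NN
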