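import Mathlib
import Pool.Agent.Lib_helper50.NN.Select
import Pool.Agent.Lib_helper50.NN.Greedy

/-!
# The construction of the real number attached to a sequence of block types
-/

set_option autoImplicit false

open Filter Topology

namespace Pool.Agent.Lib_helper50.NN

/-- block boundaries -/
def Pt : ℕ → ℕ
  | 0 => 0
  | t + 1 => Pt t + (t + 1)

lemma two_mul_Pt (t : ℕ) : 2 * Pt t = t * (t + 1) := by
  induction t with
  | zero => rfl
  | succ t ih => rw [Pt]; nlinarith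

lemma le_Pt (t : ℕ) : t ≤ Pt t := by
  have := two_mul_Pt t
  nlinarith [Nat.zero_le t]

lemma GoodA_mono {a b P L H H' : ℕ} {ε ε' : ℝ} {y m : ℕ} (hH : H ≤ H') (hε : ε' ≤ ε)
    (h : GoodA a b P L H' ε' y m) : GoodA a b P L H ε y m := by
  intro x hx1 hx2 k hk1 hk2
  refine (h x hx1 hx2 k hk1 (hk2.trans hH)).trans ?_
  gcongr

lemma GoodB_mono {b P L H H' : ℕ} {ε ε' : ℝ} {y m : ℕ} (hH : H ≤ H') (hε : ε' ≤ ε)
    (h : GoodB b P L H' ε' y m) : GoodB b P L H ε y m := by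
  intro x hx1 hx2 k hk1 hk2 hk3
  refine (h x hx1 hx2 k hk1 (hk2.trans hH) hk3).trans ?_
  gcongr

/-- quality `k` is reachable at stage `t` -/
def Reach (a b k t : ℕ) : Prop :=
  (∀ y : ℕ, ∃ m : ℕ, m < b ^ (t + 1) ∧ GoodA a b (Pt t) (t + 1) k (1 / ((k : ℝ) + 1)) y m ∧
    GoodB b (Pt t) (t + 1) k (1 / ((k : ℝ) + 1)) y m) ∧
  (∀ y : ℕ, ∃ m : ℕ, m < b ^ (t + 1) ∧ GoodA a b (Pt t) (t + 1) k (1 / ((k : ℝ) + 1)) y m ∧
    BadB b (Pt t) (t + 1) y m)

lemma eventually_Reach {a b : ℕ} (ha : 2 ≤ a) (hb : 2 ≤ b) (hab : MulIndep a b) (k : ℕ) :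
    ∀ᶠ t in atTop, Reach a b k t := by
  obtain ⟨L1, hL1⟩ := select_good ha hb hab k (ε := 1 / ((k : ℝ) + 1)) (by positivity)
  obtain ⟨L2, hL2⟩ := select_badB ha hb hab k (ε := 1 / ((k : ℝ) + 1)) (by positivity)
  filter_upwards [eventually_ge_atTop L1, eventually_ge_atTop L2] with t h1 h2
  exact ⟨fun y => hL1 (t + 1) (by omega) (Pt t) y, fun y => hL2 (t + 1) (by omega) (Pt t) y⟩

/-- the choice function for blocks -/
lemma exists_choice {a b : ℕ} (ha : 2 ≤ a) (hb : 2 ≤ b) (hab : MulIndep a b) :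
    ∃ mch : Fin 3 → ℕ → ℕ → ℕ,
      (∀ ty t y, mch ty t y < b ^ (t + 1)) ∧
      (∀ t y, BadA a b (Pt t) (t + 1) y (mch 0 t y)) ∧
      (∀ k : ℕ, ∀ᶠ t in atTop, ∀ y,
        GoodA a b (Pt t) (t + 1) k (1 / ((k : ℝ) + 1)) y (mch 1 t y)) ∧
      (∀ᶠ t in atTop, ∀ y, BadB b (Pt t) (t + 1) y (mch 1 t y)) ∧
      (∀ k : ℕ, ∀ᶠ t in atTop, ∀ y,
        GoodA a b (Pt t) (t + 1) k (1 / ((k : ℝ) + 1)) y (mch 2 t y)) ∧
      (∀ k : ℕ, ∀ᶠ t in atTop, ∀ y,
        GoodB b (Pt t) (t + 1) k (1 / ((k : ℝ) + 1)) y (mch 2 t y)) := by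
  classical
  -- reachable quality
  let kq : ℕ → ℕ := fun t => Nat.findGreatest (fun k => Reach a b k t) t
  have hkq : ∀ k : ℕ, ∀ᶠ t in atTop, k ≤ kq t ∧ Reach a b (kq t) t := by
    intro k
    filter_upwards [eventually_Reach ha hb hab k, eventually_ge_atTop k] with t h1 h2
    exact ⟨Nat.le_findGreatest h2 h1, Nat.findGreatest_spec (P := fun k => Reach a b k t) h2 h1⟩
  have hbpos : ∀ t, 0 < b ^ (t + 1) := fun t => by positivity
  let m0 : ℕ → ℕ → ℕ := fun t y => (select_badA ha hb (t + 1) (Pt t) y).choose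
  let m1 : ℕ → ℕ → ℕ := fun t y => if h : Reach a b (kq t) t then (h.2 y).choose else 0
  let m2 : ℕ → ℕ → ℕ := fun t y => if h : Reach a b (kq t) t then (h.1 y).choose else 0
  refine ⟨fun ty => if ty = 0 then m0 else if ty = 1 then m1 else m2, ?_, ?_, ?_, ?_, ?_, ?_⟩
  · intro ty t y
    dsimp only
    split_ifs with h1 h2
    · exact (select_badA ha hb (t + 1) (Pt t) y).choose_spec.1
    · simp only [m1]
      split_ifs with h
      · exact (h.2 y).choose_spec.1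
      · exact hbpos t
    · simp only [m2]
      split_ifs with h
      · exact (h.1 y).choose_spec.1
      · exact hbpos t
  · intro t y
    exact (select_badA ha hb (t + 1) (Pt t) y).choose_spec.2
  · intro k
    filter_upwards [hkq k] with t ht y
    change GoodA a b (Pt t) (t + 1) k (1 / ((k : ℝ) + 1)) y (m1 t y)
    simp only [m1]
    rw [dif_pos ht.2]
    refine GoodA_mono ht.1 ?_ (ht.2.2 y).choose_spec.2.1
    have : (k : ℝ) ≤ kq t := by exact_mod_cast ht.1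
    gcongr
  · filter_upwards [hkq 0] with t ht y
    change BadB b (Pt t) (t + 1) y (m1 t y)
    simp only [m1]
    rw [dif_pos ht.2]
    exact (ht.2.2 y).choose_spec.2.2
  · intro k
    filter_upwards [hkq k] with t ht y
    change GoodA a b (Pt t) (t + 1) k (1 / ((k : ℝ) + 1)) y (m2 t y)
    simp only [m2]
    rw [dif_pos ht.2]
    refine GoodA_mono ht.1 ?_ (ht.2.1 y).choose_spec.2.1
    have : (k : ℝ) ≤ kq t := by exact_mod_cast ht.1
    gcongr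
  · intro k
    filter_upwards [hkq k] with t ht y
    change GoodB b (Pt t) (t + 1) k (1 / ((k : ℝ) + 1)) y (m2 t y)
    simp only [m2]
    rw [dif_pos ht.2]
    refine GoodB_mono ht.1 ?_ (ht.2.1 y).choose_spec.2.2
    have : (k : ℝ) ≤ kq t := by exact_mod_cast ht.1
    gcongr

/-- numerators -/
def yseq (b : ℕ) (mch : Fin 3 → ℕ → ℕ → ℕ) (ty : ℕ → Fin 3) : ℕ → ℕ
  | 0 => 0
  | t + 1 => b ^ (t + 1) * yseq b mch ty t + mch (ty t) t (yseq b mch ty t)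

lemma yseq_congr {b : ℕ} {mch : Fin 3 → ℕ → ℕ → ℕ} {ty ty' : ℕ → Fin 3} {T : ℕ}
    (h : ∀ t < T, ty t = ty' t) : yseq b mch ty T = yseq b mch ty' T := by
  induction T with
  | zero => rfl
  | succ T ih =>
    rw [yseq, yseq, ih (fun t ht => h t (by omega)), h T (by omega)]

/-- left endpoints -/
noncomputable def xseq (b : ℕ) (mch : Fin 3 → ℕ → ℕ → ℕ) (ty : ℕ → Fin 3) (t : ℕ) : ℝ :=
  (yseq b mch ty t : ℝ) / (b : ℝ) ^ (Pt t)

/-- the limit point -/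
noncomputable def Xlim (b : ℕ) (mch : Fin 3 → ℕ → ℕ → ℕ) (ty : ℕ → Fin 3) : ℝ :=
  ⨆ t, xseq b mch ty t

section Limit

variable {b : ℕ} {mch : Fin 3 → ℕ → ℕ → ℕ} (ty : ℕ → Fin 3)

lemma xseq_succ_eq (t : ℕ) :
    xseq b mch ty (t + 1) = Xp b (Pt t) (t + 1) (yseq b mch ty t)
      (mch (ty t) t (yseq b mch ty t)) := rfl

lemma xseq_mono (hb : 2 ≤ b) : Monotone (xseq b mch ty) := by
  apply monotone_nat_of_le_succ
  intro t
  have hb0 : (0 : ℝ) < b := by exact_mod_cast (by omega : 0 < b)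
  unfold xseq
  rw [yseq, Pt]
  push_cast
  rw [pow_add _ (Pt t), div_le_div_iff₀ (by positivity) (by positivity)]
  have : (0 : ℝ) ≤ (mch (ty t) t (yseq b mch ty t) : ℝ) := Nat.cast_nonneg _
  have h2 : (0 : ℝ) < (b : ℝ) ^ Pt t := by positivity
  nlinarith [mul_nonneg this h2.le]

lemma xseq_upper_step (hb : 2 ≤ b) (hm : ∀ ty t y, mch ty t y < b ^ (t + 1)) (t : ℕ) :
    xseq b mch ty (t + 1) + 1 / (b : ℝ) ^ (Pt (t + 1)) ≤
      xseq b mch ty t + 1 / (b : ℝ) ^ (Pt t) := by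
  have hb0 : (0 : ℝ) < b := by exact_mod_cast (by omega : 0 < b)
  unfold xseq
  rw [yseq, Pt, ← add_div, ← add_div]
  have h1 : (mch (ty t) t (yseq b mch ty t) : ℝ) + 1 ≤ (b : ℝ) ^ (t + 1) := by
    exact_mod_cast hm (ty t) t (yseq b mch ty t)
  have h2 : (0 : ℝ) < (b : ℝ) ^ Pt t := by positivity
  push_cast
  rw [pow_add _ (Pt t), div_le_div_iff₀ (by positivity) (by positivity)]
  nlinarith

lemma xseq_upper (hb : 2 ≤ b) (hm : ∀ ty t y, mch ty t y < b ^ (t + 1)) {s t : ℕ} (hst : s ≤ t) :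
    xseq b mch ty t + 1 / (b : ℝ) ^ (Pt t) ≤ xseq b mch ty s + 1 / (b : ℝ) ^ (Pt s) := by
  induction t, hst using Nat.le_induction with
  | base => exact le_rfl
  | succ t ht ih => exact (xseq_upper_step ty hb hm t).trans ih

lemma xseq_le (hb : 2 ≤ b) (hm : ∀ ty t y, mch ty t y < b ^ (t + 1)) (s t : ℕ) :
    xseq b mch ty t ≤ xseq b mch ty s + 1 / (b : ℝ) ^ (Pt s) := by
  have hb0 : (0 : ℝ) < b := by exact_mod_cast (by omega : 0 < b)
  rcases le_total s t with h | h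
  · have h1 := xseq_upper ty hb hm h
    have h2 : (0 : ℝ) < 1 / (b : ℝ) ^ (Pt t) := by positivity
    linarith
  · have h1 := xseq_mono (mch := mch) ty hb h
    have h2 : (0 : ℝ) < 1 / (b : ℝ) ^ (Pt s) := by positivity
    linarith

lemma xseq_bdd (hb : 2 ≤ b) (hm : ∀ ty t y, mch ty t y < b ^ (t + 1)) :
    BddAbove (Set.range (xseq b mch ty)) :=
  ⟨_, by rintro _ ⟨t, rfl⟩; exact xseq_le ty hb hm 0 t⟩

lemma xseq_le_Xlim (hb : 2 ≤ b) (hm : ∀ ty t y, mch ty t y < b ^ (t + 1)) (t : ℕ) :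
    xseq b mch ty t ≤ Xlim b mch ty := le_ciSup (xseq_bdd ty hb hm) t

lemma Xlim_le (hb : 2 ≤ b) (hm : ∀ ty t y, mch ty t y < b ^ (t + 1)) (t : ℕ) :
    Xlim b mch ty ≤ xseq b mch ty t + 1 / (b : ℝ) ^ (Pt t) := ciSup_le fun s => xseq_le ty hb hm t s

end Limit

lemma Xlim_cont {b : ℕ} {mch : Fin 3 → ℕ → ℕ → ℕ} (hb : 2 ≤ b)
    (hm : ∀ ty t y, mch ty t y < b ^ (t + 1)) {ty ty' : ℕ → Fin 3} {T : ℕ}
    (h : ∀ t < T, ty t = ty' t) : |Xlim b mch ty - Xlim b mch ty'| ≤ (1 / 2) ^ T := by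
  have h1 := xseq_le_Xlim ty hb hm T
  have h2 := Xlim_le ty hb hm T
  have h3 := xseq_le_Xlim ty' hb hm T
  have h4 := Xlim_le ty' hb hm T
  have h5 : xseq b mch ty T = xseq b mch ty' T := by
    unfold xseq
    rw [yseq_congr h]
  have h6 : 1 / (b : ℝ) ^ (Pt T) ≤ (1 / 2) ^ T := by
    rw [one_div_pow]
    apply one_div_le_one_div_of_le (by positivity)
    have hb2 : (2 : ℝ) ≤ b := by exact_mod_cast hb
    calc (2 : ℝ) ^ T ≤ (2 : ℝ) ^ (Pt T) := pow_le_pow_right₀ (by norm_num) (le_Pt T)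
      _ ≤ (b : ℝ) ^ (Pt T) := pow_le_pow_left₀ (by norm_num) hb2 _
  rw [abs_le]
  constructor <;> linarith

/-- **The construction.** -/
theorem exists_X {a b : ℕ} (ha : 2 ≤ a) (hb : 2 ≤ b) (hab : MulIndep a b) :
    ∃ X : (ℕ → Fin 3) → ℝ,
      (∀ (ty ty' : ℕ → Fin 3) (T : ℕ), (∀ t < T, ty t = ty' t) → |X ty - X ty'| ≤ (1 / 2) ^ T) ∧
      (∀ (ty : ℕ → Fin 3) (t : ℕ), ty t = 0 →
        ((nA a b (Pt (t + 1)) - nA a b (Pt t) : ℕ) : ℝ) - (2 + 2 * Real.pi * a) ≤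
          (∑ n ∈ Finset.Ico (nA a b (Pt t)) (nA a b (Pt (t + 1))), e ((a : ℝ) ^ n * X ty)).re) ∧
      (∀ k : ℕ, ∀ᶠ t in atTop, ∀ ty : ℕ → Fin 3, ty t ≠ 0 → ∀ h : ℕ, 1 ≤ h → h ≤ k →
        ‖∑ n ∈ Finset.Ico (nA a b (Pt t)) (nA a b (Pt (t + 1))),
          e ((h : ℝ) * ((a : ℝ) ^ n * X ty))‖ ≤ 1 / ((k : ℝ) + 1) * ((t : ℝ) + 1)) ∧
      (∀ k : ℕ, ∀ᶠ t in atTop, ∀ ty : ℕ → Fin 3, ty t = 2 → ∀ h : ℕ, 1 ≤ h → h ≤ k → ¬ b ∣ h →
        ‖∑ n ∈ Finset.Ico (Pt t) (Pt (t + 1)),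
          e ((h : ℝ) * ((b : ℝ) ^ n * X ty))‖ ≤ 1 / ((k : ℝ) + 1) * ((t : ℝ) + 1)) ∧
      (∀ᶠ t in atTop, ∀ ty : ℕ → Fin 3, ty t = 1 →
        ((t : ℝ) + 1) / 2 - 7 ≤
          (∑ n ∈ Finset.Ico (Pt t) (Pt (t + 1)), e ((b : ℝ) ^ n * X ty)).re) := by
  obtain ⟨mch, hm, h0, h1A, h1B, h2A, h2B⟩ := exists_choice ha hb hab
  have hin : ∀ (ty : ℕ → Fin 3) (t : ℕ),
      Xp b (Pt t) (t + 1) (yseq b mch ty t) (mch (ty t) t (yseq b mch ty t)) ≤ Xlim b mch ty ∧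
      Xlim b mch ty ≤ Xp b (Pt t) (t + 1) (yseq b mch ty t) (mch (ty t) t (yseq b mch ty t)) +
        1 / (b : ℝ) ^ (Pt t + (t + 1)) := by
    intro ty t
    exact ⟨xseq_le_Xlim ty hb hm (t + 1), Xlim_le ty hb hm (t + 1)⟩
  refine ⟨Xlim b mch, fun ty ty' T h => Xlim_cont hb hm h, ?_, ?_, ?_, ?_⟩
  · intro ty t ht
    have h := hin ty t
    rw [ht] at h
    exact h0 t (yseq b mch ty t) _ h.1 h.2
  · intro k
    filter_upwards [h1A k, h2A k] with t h1 h2 ty hty h hh1 hh2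
    have hi := hin ty t
    have hcases : ty t = 1 ∨ ty t = 2 := by
      revert hty
      generalize ty t = v
      revert v
      decide
    rcases hcases with h3 | h3
    · rw [h3] at hi
      have := h1 (yseq b mch ty t) _ hi.1 hi.2 h hh1 hh2
      push_cast at this
      exact this
    · rw [h3] at hi
      have := h2 (yseq b mch ty t) _ hi.1 hi.2 h hh1 hh2
      push_cast at this
      exact this
  · intro k
    filter_upwards [h2B k] with t h2 ty hty h hh1 hh2 hh3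
    have hi := hin ty t
    rw [hty] at hi
    have := h2 (yseq b mch ty t) _ hi.1 hi.2 h hh1 hh2 hh3
    push_cast at this
    exact this
  · filter_upwards [h1B] with t h1 ty hty
    have hi := hin ty t
    rw [hty] at hi
    have := h1 (yseq b mch ty t) _ hi.1 hi.2
    push_cast at this
    exact this

end Pool.Agent.Lib_helper50.NN
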