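import Mathlib
import Pool.Agent.Lib_helper50.NN.Construct

/-!
# The reduction
-/

set_option autoImplicit false

open Filter Topology

namespace Pool.Agent.Lib_helper50.NN

/-- it suffices to treat positive frequencies -/
lemma weyl_of_nat {x : ℕ → ℝ}
    (h : ∀ h : ℕ, 1 ≤ h →
      Tendsto (fun N : ℕ => (∑ n ∈ Finset.range N, e ((h : ℝ) * x n)) / (N : ℂ)) atTop (𝓝 0)) :
    Weyl x := by
  intro k hk
  rcases lt_or_gt_of_ne hk with h1 | h1
  · obtain ⟨m, hm⟩ := Int.eq_ofNat_of_zero_le (show 0 ≤ -k by omega)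
    have h2 := h m (by omega)
    have h3 := (Complex.continuous_conj.tendsto _).comp h2
    rw [map_zero] at h3
    refine h3.congr (fun N => ?_)
    simp only [Function.comp_apply, map_div₀, map_sum, map_natCast]
    congr 1
    apply Finset.sum_congr rfl
    intro n _
    rw [← e_neg]
    congr 1
    have : (k : ℝ) = -(m : ℝ) := by
      have : k = -(m : ℤ) := by omega
      rw [this]; push_cast; ring
    rw [this]
    ring
  · obtain ⟨m, hm⟩ := Int.eq_ofNat_of_zero_le h1.le
    have h2 := h m (by omega)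
    have : (k : ℝ) = (m : ℝ) := by rw [hm, Int.cast_natCast]
    rw [this]
    exact h2

/-- for geometric sequences in base `b` it suffices to treat frequencies not divisible by `b` -/
lemma weyl_of_not_dvd {b : ℕ} (hb : 2 ≤ b) (X : ℝ)
    (h : ∀ h : ℕ, 1 ≤ h → ¬ b ∣ h →
      Tendsto (fun N : ℕ => (∑ n ∈ Finset.range N, e ((h : ℝ) * ((b : ℝ) ^ n * X))) / (N : ℂ))
        atTop (𝓝 0)) :
    ∀ h : ℕ, 1 ≤ h →
      Tendsto (fun N : ℕ => (∑ n ∈ Finset.range N, e ((h : ℝ) * ((b : ℝ) ^ n * X))) / (N : ℂ))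
        atTop (𝓝 0) := by
  intro k
  induction k using Nat.strong_induction_on with
  | _ k ih =>
    intro hk
    by_cases hd : b ∣ k
    · obtain ⟨k', rfl⟩ := hd
      have hk' : 1 ≤ k' := by
        rcases Nat.eq_zero_or_pos k' with h0 | h0
        · subst h0; simp at hk
        · exact h0
      have hlt : k' < b * k' := by nlinarith
      have h1 := ih k' hlt hk'
      -- shift by one
      have h2 : ∀ N : ℕ, ∑ n ∈ Finset.range N, e (((b * k' : ℕ) : ℝ) * ((b : ℝ) ^ n * X)) =
          ∑ n ∈ Finset.range N, e ((k' : ℝ) * ((b : ℝ) ^ n * X)) +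
            (e ((k' : ℝ) * ((b : ℝ) ^ N * X)) - e ((k' : ℝ) * ((b : ℝ) ^ 0 * X))) := by
        intro N
        induction N with
        | zero => simp
        | succ N ihN =>
          rw [Finset.sum_range_succ, ihN, Finset.sum_range_succ]
          have : ((b * k' : ℕ) : ℝ) * ((b : ℝ) ^ N * X) = (k' : ℝ) * ((b : ℝ) ^ (N + 1) * X) := by
            push_cast; ring
          rw [this]
          ring
      have h3 : Tendsto (fun N : ℕ => (e ((k' : ℝ) * ((b : ℝ) ^ N * X)) -
          e ((k' : ℝ) * ((b : ℝ) ^ 0 * X))) / (N : ℂ)) atTop (𝓝 0) := by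
        have hb : ∀ N : ℕ, ‖(e ((k' : ℝ) * ((b : ℝ) ^ N * X)) -
          e ((k' : ℝ) * ((b : ℝ) ^ 0 * X))) / (N : ℂ)‖ ≤ 2 / N := by
          intro N
          rw [norm_div, Complex.norm_natCast]
          apply div_le_div_of_nonneg_right _ (Nat.cast_nonneg _)
          refine (norm_sub_le _ _).trans ?_
          rw [norm_e, norm_e]
          norm_num
        apply squeeze_zero_norm hb
        exact tendsto_const_nhds.div_atTop tendsto_natCast_atTop_atTop
      have h4 := h1.add h3
      rw [add_zero] at h4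
      refine h4.congr (fun N => ?_)
      rw [h2, add_div]
    · exact h k hk hd

lemma le_mul_nA {a b : ℕ} (ha : 2 ≤ a) (hb : 2 ≤ b) (P : ℕ) : P ≤ a * nA a b P := by
  have h4 : a ≤ b ^ a := by
    calc a ≤ 2 ^ a := Nat.lt_two_pow_self.le
      _ ≤ b ^ a := Nat.pow_le_pow_left hb _
  have h5 : b ^ P ≤ b ^ (a * nA a b P) := by
    calc b ^ P ≤ a ^ (nA a b P) := le_pow_nA ha P
      _ ≤ (b ^ a) ^ (nA a b P) := Nat.pow_le_pow_left h4 _
      _ = b ^ (a * nA a b P) := by rw [pow_mul]
  exact (Nat.pow_le_pow_iff_right (by omega)).mp h5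

lemma nA_zero (a b : ℕ) : nA a b 0 = 0 := by
  unfold nA
  exact Nat.clog_of_right_le_one (by simp) a

lemma Pt_mono : Monotone Pt := monotone_nat_of_le_succ fun t => by rw [Pt]; omega

lemma blocks_b : Blocks Pt (1 / 2) 1 where
  mono := Pt_mono
  zero := rfl
  cpos := by norm_num
  lower := by
    intro T
    have h : (2 : ℝ) * Pt T = T * (T + 1) := by exact_mod_cast two_mul_Pt T
    have : (0 : ℝ) ≤ T := Nat.cast_nonneg T
    nlinarith
  upper := by
    intro T
    have h : (2 : ℝ) * Pt T = T * (T + 1) := by exact_mod_cast two_mul_Pt T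
    have h2 : (T : ℝ) ≤ (T : ℝ) ^ 2 := by exact_mod_cast Nat.le_self_pow (by norm_num) T
    nlinarith
  step := by
    intro t
    rw [Pt, Nat.add_sub_cancel_left]
    push_cast
    linarith

lemma blocks_a {a b : ℕ} (ha : 2 ≤ a) (hb : 2 ≤ b) :
    Blocks (fun t => nA a b (Pt t)) (1 / (2 * a)) (1 + b) where
  mono := fun s t h => nA_mono hb (Pt_mono h)
  zero := nA_zero a b
  cpos := by
    have : (0 : ℝ) < a := by exact_mod_cast (by omega : 0 < a)
    positivity
  lower := by
    intro T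
    have ha0 : (0 : ℝ) < a := by exact_mod_cast (by omega : 0 < a)
    have h : (2 : ℝ) * Pt T = T * (T + 1) := by exact_mod_cast two_mul_Pt T
    have h1 : (Pt T : ℝ) ≤ a * nA a b (Pt T) := by exact_mod_cast le_mul_nA ha hb (Pt T)
    have : (0 : ℝ) ≤ T := Nat.cast_nonneg T
    rw [one_div, inv_mul_le_iff₀ (by positivity)]
    nlinarith
  upper := by
    intro T
    rcases Nat.eq_zero_or_pos T with hT | hT
    · subst hT
      change ((nA a b 0 : ℕ) : ℝ) ≤ _
      rw [nA_zero]
      simp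
    · have h1 := nA_window_le ha hb 0 (Pt T)
      rw [nA_zero, zero_add, Nat.sub_zero] at h1
      have h2 : (nA a b (Pt T) : ℝ) ≤ 1 + b * Pt T := by exact_mod_cast h1
      have h3 := blocks_b.upper T
      have h4 : (1 : ℝ) ≤ (T : ℝ) ^ 2 := by exact_mod_cast Nat.one_le_pow _ _ hT
      have h5 : (0 : ℝ) ≤ b := Nat.cast_nonneg b
      have h6 : (b : ℝ) * Pt T ≤ b * (1 * (T : ℝ) ^ 2) := by gcongr
      nlinarith
  step := by
    intro t
    have h1 := nA_window_le ha hb (Pt t) (t + 1)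
    have h2 : ((nA a b (Pt (t + 1)) - nA a b (Pt t) : ℕ) : ℝ) ≤ 1 + b * ((t : ℝ) + 1) := by
      exact_mod_cast h1
    have h3 : (0 : ℝ) ≤ t := Nat.cast_nonneg t
    have h5 : (0 : ℝ) ≤ b := Nat.cast_nonneg b
    nlinarith

lemma densZero_union {Z Z' : Set ℕ} (h : DensZero Z) (h' : DensZero Z') : DensZero (Z ∪ Z') := by
  classical
  have h1 := h.add h'
  rw [add_zero] at h1
  refine squeeze_zero (fun T => by positivity) (fun T => ?_) h1
  rw [← add_div]
  apply div_le_div_of_nonneg_right _ (Nat.cast_nonneg _)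
  have : cnt (Z ∪ Z') T ≤ cnt Z T + cnt Z' T := by
    induction T with
    | zero => simp [cnt]
    | succ T ih =>
      by_cases h1 : T ∈ Z
      · rw [cnt_succ_mem (show T ∈ Z ∪ Z' from Or.inl h1), cnt_succ_mem h1]
        by_cases h2 : T ∈ Z'
        · rw [cnt_succ_mem h2]; omega
        · rw [cnt_succ_notMem h2]; omega
      · by_cases h2 : T ∈ Z'
        · rw [cnt_succ_mem (show T ∈ Z ∪ Z' from Or.inr h2), cnt_succ_mem h2,
            cnt_succ_notMem h1]; omega
        · rw [cnt_succ_notMem (show T ∉ Z ∪ Z' from fun h => h.elim h1 h2), cnt_succ_notMem h1,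
            cnt_succ_notMem h2]; omega
  exact_mod_cast this

lemma densZero_empty : DensZero ∅ := by
  have : ∀ T, cnt ∅ T = 0 := by
    intro T
    simp [cnt]
  unfold DensZero
  simp [this]

/-- rates from a sequence indexed by dyadic stages -/
def rate (α : ℕ → ℕ) (t : ℕ) : ℕ := α (Nat.log 2 t)

lemma tendsto_rate {α : ℕ → ℕ} (h : Tendsto α atTop atTop) : Tendsto (rate α) atTop atTop := by
  apply h.comp
  apply tendsto_atTop_atTop.mpr
  intro k
  refine ⟨2 ^ k, fun t ht => ?_⟩
  exact Nat.le_log_of_pow_le (by norm_num) ht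

lemma freq_rate {α : ℕ → ℕ} (h : ¬ Tendsto α atTop atTop) :
    ∃ g : ℕ, ∃ᶠ k : ℕ in atTop, ∀ t, 2 ^ k ≤ t → t < 2 ^ (k + 1) → rate α t ≤ g := by
  rw [tendsto_atTop] at h
  push Not at h
  obtain ⟨g, hg⟩ := h
  refine ⟨g, hg.mono ?_⟩
  intro k hk t h1 h2
  have : Nat.log 2 t = k := Nat.log_eq_of_pow_le_of_lt_pow h1 h2
  unfold rate
  rw [this]
  omega

/-- the set of `a`-damaged blocks -/
def setA (z : ℕ → ℕ × ℕ) : Set ℕ := sel (rate fun n => (z n).1) ∅

/-- the set of `b`-damaged blocks -/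
def setB (z : ℕ → ℕ × ℕ) : Set ℕ := sel (rate fun n => (z n).2) (setA z)

open Classical in
/-- block types -/
noncomputable def typ (z : ℕ → ℕ × ℕ) (t : ℕ) : Fin 3 :=
  if t ∈ setA z then 0 else if t ∈ setB z then 1 else 2

lemma typ_eq_zero {z : ℕ → ℕ × ℕ} {t : ℕ} (h : t ∈ setA z) : typ z t = 0 := by
  unfold typ; rw [if_pos h]

lemma typ_eq_one {z : ℕ → ℕ × ℕ} {t : ℕ} (h : t ∈ setB z) : typ z t = 1 := by
  unfold typ; rw [if_neg h.1, if_pos h]

lemma typ_ne_zero {z : ℕ → ℕ × ℕ} {t : ℕ} (h : t ∉ setA z) : typ z t ≠ 0 := by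
  unfold typ; rw [if_neg h]; split_ifs <;> decide

lemma typ_eq_two {z : ℕ → ℕ × ℕ} {t : ℕ} (h : t ∉ setA z) (h' : t ∉ setB z) : typ z t = 2 := by
  unfold typ; rw [if_neg h, if_neg h']

lemma typ_congr {z z' : ℕ → ℕ × ℕ} {n : ℕ} (hn : 1 ≤ n) (h : ∀ s < n, z s = z' s) :
    ∀ t < 2 ^ n, typ z t = typ z' t := by
  classical
  have hlog : ∀ t < 2 ^ n, Nat.log 2 t < n := by
    intro t ht
    rcases Nat.eq_zero_or_pos t with h0 | h0
    · subst h0; simp; omega
    · exact Nat.log_lt_of_lt_pow (by omega) ht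
  have hA : ∀ t < 2 ^ n, (t ∈ setA z ↔ t ∈ setA z') := by
    intro t ht
    apply sel_congr (T := 2 ^ n) _ (fun _ _ => Iff.rfl) ht
    intro s hs
    change (z (Nat.log 2 s)).1 = (z' (Nat.log 2 s)).1
    rw [h _ (hlog s hs)]
  have hB : ∀ t < 2 ^ n, (t ∈ setB z ↔ t ∈ setB z') := by
    intro t ht
    apply sel_congr (T := 2 ^ n) _ hA ht
    intro s hs
    change (z (Nat.log 2 s)).2 = (z' (Nat.log 2 s)).2
    rw [h _ (hlog s hs)]
  intro t ht
  unfold typ
  rw [if_congr (hA t ht) rfl (if_congr (hB t ht) rfl rfl)]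

/-- **The reduction theorem.** -/
theorem exists_reduction {a b : ℕ} (ha : 2 ≤ a) (hb : 2 ≤ b) (hab : MulIndep a b) :
    ∃ F : (ℕ → ℕ × ℕ) → ℝ,
      (∀ (z z' : ℕ → ℕ × ℕ) (n : ℕ), 1 ≤ n → (∀ s < n, z s = z' s) →
        |F z - F z'| ≤ (1 / 2) ^ n) ∧
      ∀ z : ℕ → ℕ × ℕ, (Weyl (fun n => F z * (a : ℝ) ^ n) ∧ ¬ Weyl (fun n => F z * (b : ℝ) ^ n)) ↔
        (Tendsto (fun n => (z n).1) atTop atTop ∧ ¬ Tendsto (fun n => (z n).2) atTop atTop) := by
  obtain ⟨X, hX1, hX2, hX3, hX4, hX5⟩ := exists_X ha hb hab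
  refine ⟨fun z => X (typ z), ?_, ?_⟩
  · intro z z' n hn h
    refine (hX1 _ _ (2 ^ n) (typ_congr hn h)).trans ?_
    apply pow_le_pow_of_le_one (by norm_num) (by norm_num)
    exact Nat.lt_two_pow_self.le
  intro z
  set x : ℝ := X (typ z) with hx
  have hepsk : ∀ ε : ℝ, 0 < ε → ∀ h : ℕ, ∃ k : ℕ, h ≤ k ∧ 1 / ((k : ℝ) + 1) ≤ ε := by
    intro ε hε h
    obtain ⟨k, hk⟩ := exists_nat_ge (1 / ε)
    refine ⟨max h k, le_max_left _ _, ?_⟩
    rw [div_le_iff₀ (by positivity)]
    have h1 : (k : ℝ) ≤ (max h k : ℕ) := by exact_mod_cast le_max_right h k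
    rw [div_le_iff₀ hε] at hk
    nlinarith
  -- (a) `α → ∞` implies normality in base `a`
  have ha' : Tendsto (fun n => (z n).1) atTop atTop → Weyl (fun n => x * (a : ℝ) ^ n) := by
    intro hα
    apply weyl_of_nat
    intro h hh
    have hd : DensZero (setA z) := densZero_sel (tendsto_rate hα) ∅
    have := blocks_tendsto (blocks_a ha hb) (u := fun n => e ((h : ℝ) * ((a : ℝ) ^ n * x)))
      (fun n => (norm_e _).le) hd (by
        intro ε hε
        obtain ⟨k, hk1, hk2⟩ := hepsk ε hε h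
        filter_upwards [hX3 k] with t ht htA
        refine (ht (typ z) (typ_ne_zero htA) h hh hk1).trans ?_
        gcongr)
    refine this.congr (fun N => ?_)
    congr 1
    apply Finset.sum_congr rfl
    intro n _
    rw [mul_comm x]
  -- (b) `α → ∞` and `β → ∞` imply normality in base `b`
  have hb' : Tendsto (fun n => (z n).1) atTop atTop → Tendsto (fun n => (z n).2) atTop atTop →
      Weyl (fun n => x * (b : ℝ) ^ n) := by
    intro hα hβ
    apply weyl_of_nat
    intro h hh
    have hd : DensZero (setA z ∪ setB z) :=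
      densZero_union (densZero_sel (tendsto_rate hα) ∅) (densZero_sel (tendsto_rate hβ) _)
    have := weyl_of_not_dvd hb x (by
      intro h hh hdvd
      exact blocks_tendsto blocks_b (u := fun n => e ((h : ℝ) * ((b : ℝ) ^ n * x)))
        (fun n => (norm_e _).le) hd (by
          intro ε hε
          obtain ⟨k, hk1, hk2⟩ := hepsk ε hε h
          filter_upwards [hX4 k] with t ht htAB
          have h1 : t ∉ setA z := fun h => htAB (Or.inl h)
          have h2 : t ∉ setB z := fun h => htAB (Or.inr h)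
          refine (ht (typ z) (typ_eq_two h1 h2) h hh hk1 hdvd).trans ?_
          gcongr)) h hh
    refine this.congr (fun N => ?_)
    congr 1
    apply Finset.sum_congr rfl
    intro n _
    rw [mul_comm x]
  -- (c) `α → ∞` and not `β → ∞` imply non-normality in base `b`
  have hc' : Tendsto (fun n => (z n).1) atTop atTop → ¬ Tendsto (fun n => (z n).2) atTop atTop →
      ¬ Weyl (fun n => x * (b : ℝ) ^ n) := by
    intro hα hβ hW
    have hd : DensZero (setA z) := densZero_sel (tendsto_rate hα) ∅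
    obtain ⟨g, hg⟩ := freq_rate hβ
    have hf := freq_sel hd hg
    have := blocks_not_tendsto blocks_b (u := fun n => e ((b : ℝ) ^ n * x))
      (fun n => (norm_e _).le) hd (B := setB z) (κ := 1 / 2) (C0 := 7)
      (c' := 1 / (4 * ((g : ℝ) + 1))) (by norm_num) (by positivity) (by
        intro ε hε
        obtain ⟨k, hk1, hk2⟩ := hepsk ε hε 1
        filter_upwards [hX4 k] with t ht htA htB
        have h1 := ht (typ z) (typ_eq_two htA htB) 1 le_rfl hk1 (by
          intro hdvd
          have := Nat.le_of_dvd (by norm_num) hdvd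
          omega)
        simp only [Nat.cast_one, one_mul] at h1
        refine h1.trans ?_
        gcongr) (by
        filter_upwards [hX5] with t ht htB
        refine le_trans (le_of_eq ?_) (ht (typ z) (typ_eq_one htB))
        ring) hf
    apply this
    have h1 := hW 1 one_ne_zero
    refine h1.congr (fun N => ?_)
    congr 1
    apply Finset.sum_congr rfl
    intro n _
    change e (((1 : ℤ) : ℝ) * (x * (b : ℝ) ^ n)) = _
    rw [Int.cast_one, one_mul, mul_comm x]
  -- (d) not `α → ∞` implies non-normality in base `a`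
  have hd' : ¬ Tendsto (fun n => (z n).1) atTop atTop → ¬ Weyl (fun n => x * (a : ℝ) ^ n) := by
    intro hα hW
    obtain ⟨g, hg⟩ := freq_rate hα
    have hf := freq_sel densZero_empty hg
    have ha0 : (0 : ℝ) < a := by exact_mod_cast (by omega : 0 < a)
    have := blocks_not_tendsto (blocks_a ha hb) (u := fun n => e ((a : ℝ) ^ n * x))
      (fun n => (norm_e _).le) densZero_empty (B := setA z) (κ := 1 / a)
      (C0 := 3 + 2 * Real.pi * a)
      (c' := 1 / (4 * ((g : ℝ) + 1))) (by positivity) (by positivity) (by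
        intro ε hε
        obtain ⟨k, hk1, hk2⟩ := hepsk ε hε 1
        filter_upwards [hX3 k] with t ht _ htA
        have h1 := ht (typ z) (typ_ne_zero htA) 1 le_rfl hk1
        simp only [Nat.cast_one, one_mul] at h1
        refine h1.trans ?_
        gcongr) (by
        filter_upwards with t htA
        refine le_trans ?_ (hX2 (typ z) t (typ_eq_zero htA))
        have h1 : t + 1 ≤ a * (nA a b (Pt (t + 1)) - nA a b (Pt t) + 1) :=
          nA_window_ge ha hb (Pt t) (t + 1)
        have h2 : (t : ℝ) + 1 ≤ a * (((nA a b (Pt (t + 1)) - nA a b (Pt t) : ℕ) : ℝ) + 1) := by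
          exact_mod_cast h1
        have h3 : 1 / (a : ℝ) * ((t : ℝ) + 1) ≤
            ((nA a b (Pt (t + 1)) - nA a b (Pt t) : ℕ) : ℝ) + 1 := by
          rw [one_div, inv_mul_le_iff₀ ha0]
          exact h2
        linarith) hf
    apply this
    have h1 := hW 1 one_ne_zero
    refine h1.congr (fun N => ?_)
    congr 1
    apply Finset.sum_congr rfl
    intro n _
    change e (((1 : ℤ) : ℝ) * (x * (a : ℝ) ^ n)) = _
    rw [Int.cast_one, one_mul, mul_comm x]
  constructor
  · rintro ⟨h1, h2⟩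
    have hα : Tendsto (fun n => (z n).1) atTop atTop := by
      by_contra hcon
      exact hd' hcon h1
    exact ⟨hα, fun hβ => h2 (hb' hα hβ)⟩
  · rintro ⟨hα, hβ⟩
    exact ⟨ha' hα, hc' hα hβ⟩

end Pool.Agent.Lib_helper50.NN
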