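import Mathlib
import Pool.Agent.Lib_helper50.NN.Reduction

/-!
# Borel complexity
-/

set_option autoImplicit false

open Filter Topology

namespace Pool.Agent.Lib_helper50.NN

lemma continuous_e : Continuous e := by
  unfold e
  fun_prop

lemma continuous_polyVal {k : ℕ} (n : ℕ) : Continuous (fun g : Xi k => polyVal g n) := by
  unfold polyVal
  fun_prop

/-- `𝒩_{a,k}` is `Π⁰₃`. -/
theorem isPi03_normalSet (a k : ℕ) : IsPi03 (normalSet a k) := by
  -- the closed sets
  let F : ℕ → ℕ → Set (Xi k) := fun n M => {g | ∀ N ≥ M,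
    ‖(∑ i ∈ Finset.range N, e (((Nat.unpair n).1 + 1 : ℕ) * (polyVal g i * (a : ℝ) ^ i))) /
      (N : ℂ)‖ ≤ 1 / (((Nat.unpair n).2 : ℝ) + 1)}
  refine ⟨fun n => ⋃ M, F n M, fun n => ⟨F n, fun M => ?_, rfl⟩, ?_⟩
  · have : F n M = ⋂ N, ⋂ (_ : N ≥ M), {g | ‖(∑ i ∈ Finset.range N,
      e (((Nat.unpair n).1 + 1 : ℕ) * (polyVal g i * (a : ℝ) ^ i))) /
      (N : ℂ)‖ ≤ 1 / (((Nat.unpair n).2 : ℝ) + 1)} := by
      ext g
      simp only [F, Set.mem_iInter]
      rfl
    rw [this]
    apply isClosed_iInter
    intro N
    apply isClosed_iInter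
    intro _
    apply isClosed_le _ continuous_const
    apply Continuous.norm
    apply Continuous.div_const
    apply continuous_finsetSum
    intro i _
    apply continuous_e.comp
    exact continuous_const.mul ((continuous_polyVal i).mul continuous_const)
  · ext g
    have hW : g ∈ normalSet a k ↔ ∀ h : ℕ, 1 ≤ h →
        Tendsto (fun N : ℕ => (∑ n ∈ Finset.range N, e ((h : ℝ) * (polyVal g n * (a : ℝ) ^ n))) /
          (N : ℂ)) atTop (𝓝 0) := by
      change IsUD _ ↔ _
      rw [isUD_iff_weyl]
      constructor
      · intro hw h hh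
        have := hw h (by omega)
        simpa using this
      · intro hw
        exact weyl_of_nat hw
    rw [hW]
    simp only [Set.mem_iInter, Set.mem_iUnion]
    constructor
    · intro hw n
      have h1 := hw ((Nat.unpair n).1 + 1) (by omega)
      have h2 := Metric.tendsto_nhds.mp h1 (1 / (((Nat.unpair n).2 : ℝ) + 1)) (by positivity)
      obtain ⟨M, hM⟩ := eventually_atTop.mp h2
      refine ⟨M, fun N hN => ?_⟩
      have := hM N hN
      rw [dist_zero_right] at this
      exact this.le
    · intro hw h hh
      rw [Metric.tendsto_nhds]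
      intro ε hε
      obtain ⟨r, hr⟩ := exists_nat_one_div_lt hε
      obtain ⟨M, hM⟩ := hw (Nat.pair (h - 1) r)
      filter_upwards [eventually_ge_atTop M] with N hN
      have := hM N hN
      rw [Nat.unpair_pair] at this
      simp only [Nat.sub_add_cancel hh] at this
      rw [dist_zero_right]
      exact lt_of_le_of_lt this hr

/-- A map on sequences whose `n`-th output depends only on the first `n` inputs has a fixed
point. -/
lemma exists_fixed {α : Type*} [Inhabited α] (R : (ℕ → α) → (ℕ → α))
    (hR : ∀ z z' n, (∀ i < n, z i = z' i) → R z n = R z' n) : ∃ z, R z = z := by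
  let approx : ℕ → (ℕ → α) := fun n => Nat.rec (fun _ => default)
    (fun n f => Function.update f n (R f n)) n
  have hsucc : ∀ n, approx (n + 1) = Function.update (approx n) n (R (approx n) n) :=
    fun n => rfl
  let z : ℕ → α := fun n => approx (n + 1) n
  have hagree : ∀ n, ∀ i < n, approx n i = z i := by
    intro n
    induction n with
    | zero => intro i hi; omega
    | succ n ih =>
      intro i hi
      by_cases h : i = n
      · subst h; rfl
      · rw [hsucc, Function.update_of_ne h]
        exact ih i (by omega)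
  refine ⟨z, funext fun n => ?_⟩
  have h1 : R z n = R (approx n) n := hR _ _ _ (fun i hi => (hagree n i hi).symm)
  rw [h1]
  change _ = approx (n + 1) n
  rw [hsucc, Function.update_self]

/-- the local continuity property -/
def LocCont {α X : Type*} [TopologicalSpace X] (G : (ℕ → α) → X) : Prop :=
  ∀ z, ∀ U ∈ 𝓝 (G z), ∃ n : ℕ, ∀ z' : ℕ → α, (∀ i < n, z' i = z i) → G z' ∈ U

/-- `Π⁰₃` sets reduce to divergence to infinity, by a map whose `n`-th output depends only on the
first `n` inputs. -/
lemma pi03_reduction {α X : Type*} [TopologicalSpace X] {G : (ℕ → α) → X} (hG : LocCont G)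
    {S : Set X} (hS : IsPi03 S) :
    ∃ r : (ℕ → α) → ℕ → ℕ, (∀ z z' n, (∀ i < n, z i = z' i) → r z n = r z' n) ∧
      ∀ z, G z ∈ S ↔ Tendsto (r z) atTop atTop := by
  classical
  obtain ⟨S', hS', rfl⟩ := hS
  choose F hF hFS using hS'
  -- `F i j` closed, `S' i = ⋃ j, F i j`
  let alive : ℕ → ℕ → (ℕ → α) → ℕ → Prop := fun i j z n =>
    ∃ z' : ℕ → α, (∀ s < n, z' s = z s) ∧ G z' ∈ F i j
  have halive_congr : ∀ i j z z' n, (∀ s < n, z s = z' s) → (alive i j z n ↔ alive i j z' n) := by
    intro i j z z' n h
    constructor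
    · rintro ⟨w, hw1, hw2⟩
      exact ⟨w, fun s hs => (hw1 s hs).trans (h s hs), hw2⟩
    · rintro ⟨w, hw1, hw2⟩
      exact ⟨w, fun s hs => (hw1 s hs).trans (h s hs).symm, hw2⟩
  have halive_anti : ∀ i j z m n, m ≤ n → alive i j z n → alive i j z m := by
    rintro i j z m n hmn ⟨w, hw1, hw2⟩
    exact ⟨w, fun s hs => hw1 s (by omega), hw2⟩
  have hex : ∀ i z n, ∃ j, n ≤ j ∨ alive i j z n := fun i z n => ⟨n, Or.inl le_rfl⟩
  let guess : ℕ → (ℕ → α) → ℕ → ℕ := fun i z n => Nat.find (hex i z n)
  have hguess_congr : ∀ i z z' n, (∀ s < n, z s = z' s) → guess i z n = guess i z' n := by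
    intro i z z' n h
    apply le_antisymm
    · apply Nat.find_min'
      have := Nat.find_spec (hex i z' n)
      exact this.imp_right (halive_congr i _ z z' n h).mpr
    · apply Nat.find_min'
      have := Nat.find_spec (hex i z n)
      exact this.imp_right (halive_congr i _ z z' n h).mp
  have hguess_mono : ∀ i z, Monotone (guess i z) := by
    intro i z
    apply monotone_nat_of_le_succ
    intro n
    apply Nat.find_min'
    have := Nat.find_spec (hex i z (n + 1))
    rcases this with h | h
    · left
      change n + 1 ≤ guess i z (n + 1) at h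
      exact (Nat.le_succ n).trans h
    · right
      exact halive_anti i _ z n (n + 1) (by omega) h
  have hguess_le : ∀ i j z, G z ∈ F i j → ∀ n, guess i z n ≤ j := by
    intro i j z hz n
    apply Nat.find_min'
    right
    exact ⟨z, fun _ _ => rfl, hz⟩
  have hguess_unb : ∀ i z, (∀ j, G z ∉ F i j) → ∀ J, ∃ n, J < guess i z n := by
    intro i z hz J
    have hdead : ∀ j, ∃ n, ¬ alive i j z n := by
      intro j
      obtain ⟨n, hn⟩ := hG z (F i j)ᶜ ((hF i j).isOpen_compl.mem_nhds (hz j))
      refine ⟨n, ?_⟩
      rintro ⟨w, hw1, hw2⟩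
      exact hn w hw1 hw2
    choose d hd using hdead
    refine ⟨(Finset.range (J + 1)).sup d + (J + 1), ?_⟩
    by_contra hcon
    push Not at hcon
    rcases Nat.find_spec (hex i z ((Finset.range (J + 1)).sup d + (J + 1))) with h | h
    · change (Finset.range (J + 1)).sup d + (J + 1) ≤
        guess i z ((Finset.range (J + 1)).sup d + (J + 1)) at h
      omega
    · apply hd (guess i z ((Finset.range (J + 1)).sup d + (J + 1)))
      apply halive_anti i _ z _ _ _ h
      have : d (guess i z ((Finset.range (J + 1)).sup d + (J + 1))) ≤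
          (Finset.range (J + 1)).sup d :=
        Finset.le_sup (f := d) (Finset.mem_range.mpr (by omega))
      omega
  have hexr : ∀ (z : ℕ → α) (n : ℕ), ∃ i, n ≤ i ∨ guess i z n ≠ guess i z (n - 1) :=
    fun z n => ⟨n, Or.inl le_rfl⟩
  let r : (ℕ → α) → ℕ → ℕ := fun z n => Nat.find (hexr z n)
  refine ⟨r, ?_, ?_⟩
  · intro z z' n h
    have h1 : ∀ i, guess i z n = guess i z' n := fun i => hguess_congr i z z' n h
    have h2 : ∀ i, guess i z (n - 1) = guess i z' (n - 1) :=
      fun i => hguess_congr i z z' (n - 1) (fun s hs => h s (by omega))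
    apply le_antisymm
    · apply Nat.find_min'
      have := Nat.find_spec (hexr z' n)
      rw [h1, h2]
      exact this
    · apply Nat.find_min'
      have := Nat.find_spec (hexr z n)
      rw [← h1, ← h2]
      exact this
  · intro z
    constructor
    · intro hz
      rw [tendsto_atTop]
      intro I
      -- each guess is eventually constant
      have hconst : ∀ i, ∀ᶠ n in atTop, guess i z n = guess i z (n - 1) := by
        intro i
        have hi : G z ∈ S' i := Set.mem_iInter.mp hz i
        rw [hFS i] at hi
        obtain ⟨j, hj⟩ := Set.mem_iUnion.mp hi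
        have hbdd := hguess_le i j z hj
        -- monotone and bounded
        obtain ⟨n0, hn0⟩ : ∃ n0, ∀ n ≥ n0, guess i z n = guess i z n0 := by
          by_contra hcon
          push Not at hcon
          have : ∀ m, ∃ n, m ≤ guess i z n := by
            intro m
            induction m with
            | zero => exact ⟨0, Nat.zero_le _⟩
            | succ m ih =>
              obtain ⟨n, hn⟩ := ih
              obtain ⟨n', hn', hne⟩ := hcon n
              have := hguess_mono i z hn'
              exact ⟨n', by omega⟩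
          obtain ⟨n, hn⟩ := this (j + 1)
          have := hbdd n
          omega
        filter_upwards [eventually_ge_atTop (n0 + 1)] with n hn
        rw [hn0 n (by omega), hn0 (n - 1) (by omega)]
      have hall : ∀ᶠ n in atTop, ∀ i < I, guess i z n = guess i z (n - 1) := by
        have := (Finset.range I).eventually_all (l := atTop)
          (p := fun i n => guess i z n = guess i z (n - 1))
        have h2 := this.mpr (fun i _ => hconst i)
        filter_upwards [h2] with n hn i hi
        exact hn i (Finset.mem_range.mpr hi)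
      filter_upwards [hall, eventually_ge_atTop I] with n h1 h2
      by_contra hcon
      push Not at hcon
      rcases Nat.find_spec (hexr z n) with h | h
      · change n ≤ r z n at h
        omega
      · exact h (h1 _ hcon)
    · intro hz
      rw [Set.mem_iInter]
      intro i
      rw [hFS i]
      by_contra hcon
      have hnot : ∀ j, G z ∉ F i j := fun j hj => hcon (Set.mem_iUnion.mpr ⟨j, hj⟩)
      obtain ⟨n0, hn0⟩ := eventually_atTop.mp (hz.eventually_gt_atTop i)
      have hstep : ∀ n ≥ n0, guess i z n = guess i z (n - 1) := by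
        intro n hn
        by_contra hne
        have h1 : r z n ≤ i := Nat.find_min' (hexr z n) (Or.inr hne)
        have h2 := hn0 n hn
        omega
      have hbd : ∀ n, guess i z n ≤ guess i z n0 := by
        intro n
        rcases le_total n n0 with h | h
        · exact hguess_mono i z h
        · induction n, h using Nat.le_induction with
          | base => exact le_rfl
          | succ n hn ih =>
            have := hstep (n + 1) (by omega)
            rw [Nat.add_sub_cancel] at this
            omega
      obtain ⟨n, hn⟩ := hguess_unb i z hnot (guess i z n0)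
      have := hbd n
      omega

/-- embedding of constants -/
noncomputable def cst (k : ℕ) (c : ℝ) : Xi k := EuclideanSpace.single 0 c

lemma polyVal_cst (k : ℕ) (c : ℝ) (n : ℕ) : polyVal (cst k c) n = c := by
  unfold polyVal cst
  rw [Finset.sum_eq_single 0]
  · simp
  · intro i _ hi
    simp [hi]
  · intro h
    exact absurd (Finset.mem_univ _) h

lemma continuous_cst (k : ℕ) : Continuous (cst k) := by
  rw [Metric.continuous_iff]
  intro b ε hε
  refine ⟨ε, hε, fun a ha => ?_⟩
  unfold cst
  rw [EuclideanSpace.dist_single_same]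
  exact ha

/-- **Main theorem.** -/
theorem main {a b : ℕ} (ha : 1 < a) (hb : 1 < b) (hab : MulIndep a b) (k : ℕ) :
    IsD2Pi03Complete (normalSet a k \ normalSet b k) := by
  refine ⟨⟨_, _, isPi03_normalSet a k, isPi03_normalSet b k, rfl⟩, ?_⟩
  rintro ⟨A, B, hA, hB, hAB⟩
  obtain ⟨F, hF1, hF2⟩ := exists_reduction (a := a) (b := b) (by omega) (by omega) hab
  have hG : LocCont (fun z => cst k (F z)) := by
    intro z U hU
    have h1 : cst k ⁻¹' U ∈ 𝓝 (F z) := (continuous_cst k).continuousAt hU
    obtain ⟨ε, hε, hεU⟩ := Metric.mem_nhds_iff.mp h1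
    obtain ⟨n, hn⟩ := exists_pow_lt_of_lt_one hε (show (1 / 2 : ℝ) < 1 by norm_num)
    refine ⟨n + 1, fun z' hz' => ?_⟩
    apply hεU
    rw [Metric.mem_ball, Real.dist_eq]
    refine lt_of_le_of_lt (hF1 z' z (n + 1) (by omega) hz') (lt_of_le_of_lt ?_ hn)
    apply pow_le_pow_of_le_one (by norm_num) (by norm_num) (by omega)
  obtain ⟨rA, hrA1, hrA2⟩ := pi03_reduction hG hA
  obtain ⟨rB, hrB1, hrB2⟩ := pi03_reduction hG hB
  obtain ⟨z, hz⟩ := exists_fixed (fun z n => (rA z n, rB z n)) (by
    intro z z' n h
    simp only [hrA1 z z' n h, hrB1 z z' n h])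
  have hzA : (fun n => (z n).1) = rA z := by
    funext n
    rw [← congrFun hz n]
  have hzB : (fun n => (z n).2) = rB z := by
    funext n
    rw [← congrFun hz n]
  have key : cst k (F z) ∈ normalSet a k \ normalSet b k ↔ cst k (F z) ∈ A \ B := by
    have e1 : cst k (F z) ∈ normalSet a k ↔ Weyl (fun n => F z * (a : ℝ) ^ n) := by
      change IsUD _ ↔ _
      rw [isUD_iff_weyl]
      simp only [polyVal_cst]
    have e2 : cst k (F z) ∈ normalSet b k ↔ Weyl (fun n => F z * (b : ℝ) ^ n) := by
      change IsUD _ ↔ _
      rw [isUD_iff_weyl]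
      simp only [polyVal_cst]
    rw [Set.mem_sdiff, Set.mem_sdiff, e1, e2, hF2 z, hzA, hzB, ← hrA2 z, ← hrB2 z]
  rw [← hAB] at key
  by_cases h : cst k (F z) ∈ normalSet a k \ normalSet b k
  · exact (key.mp h) h
  · exact h (key.mpr h)

end Pool.Agent.Lib_helper50.NN
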